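import Pool.Agent.H77.Z12.Shannon

/-!
The chart `(I | M)`, `M > 0` (MP_1e71f9_co).
-/

set_option autoImplicit false

namespace Pool.Agent.H77.Z12

open Finset Matrix Pool.Agent.H67.Nu

theorem sg_mul_self (b : Bool) : sg b * sg b = 1 := by cases b <;> simp [sg]

theorem sg_ne_zero (b : Bool) : sg b ≠ 0 := by cases b <;> simp [sg]

theorem sg_not (b : Bool) : sg (!b) = -sg b := by cases b <;> simp [sg]

theorem sg_beq (a b : Bool) : sg (a == b) = sg a * sg b := by
  cases a <;> cases b <;> simp [sg]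

section transfer

variable {n r : ℕ} {v v' : Fin n → Fin r → ℝ} {A : Matrix (Fin r) (Fin r) ℝ} {π : Fin n ≃ Fin n}
  {ε : Fin n → Bool}

theorem Tope.transfer (hA : A.det ≠ 0) (h : ∀ j, sg (ε j) • v (π j) = v' j ᵥ* A)
    {s : Fin n → Bool} (hs : Tope v' s) : Tope v fun k => (s (π.symm k) == ε (π.symm k)) := by
  obtain ⟨y', hy'⟩ := hs
  have hu : IsUnit A.det := isUnit_iff_ne_zero.2 hA
  refine ⟨A⁻¹ *ᵥ y', fun k => ?_⟩
  obtain ⟨j, rfl⟩ := π.surjective k
  simp only [π.symm_apply_apply]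
  rw [sg_beq]
  have e : sg (ε j) * ((A⁻¹ *ᵥ y') ⬝ᵥ v (π j)) = y' ⬝ᵥ v' j := by
    have h1 : sg (ε j) * ((A⁻¹ *ᵥ y') ⬝ᵥ v (π j)) = (A⁻¹ *ᵥ y') ⬝ᵥ (sg (ε j) • v (π j)) := by
      rw [dotProduct_smul, smul_eq_mul]
    rw [h1, h j, dotProduct_comm, ← Matrix.dotProduct_mulVec, Matrix.mulVec_mulVec,
      Matrix.mul_nonsing_inv A hu, Matrix.one_mulVec, dotProduct_comm]
  rw [mul_assoc, e]
  exact hy' j

theorem Complete.transfer (hA : A.det ≠ 0) (h : ∀ j, sg (ε j) • v (π j) = v' j ᵥ* A)
    {s : Fin n → Bool} (hs : Complete v' s) :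
    Complete v fun k => (s (π.symm k) == ε (π.symm k)) := by
  refine ⟨hs.1.transfer hA h, fun k => ?_⟩
  have h1 := (hs.2 (π.symm k)).transfer hA h
  have e : (fun l => (Function.update s (π.symm k) (!s (π.symm k)) (π.symm l) == ε (π.symm l))) =
      Function.update (fun k => (s (π.symm k) == ε (π.symm k))) k
        (!(s (π.symm k) == ε (π.symm k))) := by
    funext l
    by_cases hl : l = k
    · subst hl
      simp only [Function.update_self]
      cases s (π.symm l) <;> cases ε (π.symm l) <;> rfl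
    · have hl' : π.symm l ≠ π.symm k := fun h0 => hl (π.symm.injective h0)
      rw [Function.update_of_ne hl, Function.update_of_ne hl']
  rw [← e]
  exact h1

theorem Gen.transfer (h : ∀ j, sg (ε j) • v (π j) = v' j ᵥ* A)
    (hv : Gen v) : Gen v' := by
  intro f hf h0
  have h1 := hv (fun i => π (f i)) (π.injective.comp hf)
  have e : (Matrix.of fun i => v' (f i)) * A =
      Matrix.of fun i k => sg (ε (f i)) * v (π (f i)) k := by
    ext i k
    have := congrFun (h (f i)) k
    rw [Pi.smul_apply, smul_eq_mul] at this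
    rw [Matrix.of_apply, this]
    rfl
  have h2 : (Matrix.of fun i k => sg (ε (f i)) * v (π (f i)) k).det =
      (∏ i, sg (ε (f i))) * (Matrix.of fun i => v (π (f i))).det := by
    have := Matrix.det_mul_column (fun i => sg (ε (f i))) (Matrix.of fun i => v (π (f i)))
    rw [← this]
    rfl
  have h3 : (∏ i, sg (ε (f i))) ≠ 0 := Finset.prod_ne_zero_iff.2 fun i _ => sg_ne_zero _
  have h4 := congrArg Matrix.det e
  rw [Matrix.det_mul, h0, zero_mul, h2] at h4
  exact mul_ne_zero h3 h1 h4.symm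

end transfer

/-- The vectors of the chart: the unit vectors and the columns of `M`. -/
def cfg {r m : ℕ} (M : Fin r → Fin m → ℝ) : Fin (r + m) → Fin r → ℝ :=
  Fin.addCases (fun i => Pi.single i 1) fun c i => M i c

theorem exists_chart {r m : ℕ} (v : Fin (r + m) → Fin r → ℝ) (h : Gen v) (hr : 1 ≤ r)
    (hm : 1 ≤ m) (hbad : ∀ s, ¬ Complete v s) :
    ∃ M : Fin r → Fin m → ℝ, (∀ i c, 0 < M i c) ∧ Gen (cfg M) ∧ ∀ s, ¬ Complete (cfg M) s := by
  classical
  obtain ⟨B, Q, hB, h1, h2, h3⟩ := exists_simplicial h hr (by omega)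
  -- the enumeration
  have hBc : Bᶜ.card = m := by
    rw [Finset.card_compl, Fintype.card_fin, hB]; omega
  let eB : Fin r ≃ B := (Finset.equivFinOfCardEq hB).symm
  let eC : Fin m ≃ (Bᶜ : Finset (Fin (r + m))) := (Finset.equivFinOfCardEq hBc).symm
  have hb0 : ∃ b0, b0 ∈ B := by
    have : 0 < B.card := by omega
    exact Finset.card_pos.1 this
  obtain ⟨b0, hb0⟩ := hb0
  let F : Fin (r + m) → Fin (r + m) :=
    Fin.addCases (fun i => ((eB i : B) : Fin (r + m))) fun c => ((eC c : _) : Fin (r + m))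
  have hF : Function.Injective F := by
    intro a b
    refine Fin.addCases (fun i => ?_) (fun c => ?_) a <;>
      refine Fin.addCases (fun i' => ?_) (fun c' => ?_) b <;> intro hab
    · simp only [F, Fin.addCases_left] at hab
      rw [eB.injective (Subtype.ext hab)]
    · simp only [F, Fin.addCases_left, Fin.addCases_right] at hab
      have := Finset.mem_compl.1 (eC c').2
      rw [← hab] at this
      exact absurd (eB i).2 this
    · simp only [F, Fin.addCases_left, Fin.addCases_right] at hab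
      have := Finset.mem_compl.1 (eC c).2
      rw [hab] at this
      exact absurd (eB i').2 this
    · simp only [F, Fin.addCases_right] at hab
      rw [eC.injective (Subtype.ext hab)]
  let π : Fin (r + m) ≃ Fin (r + m) := Equiv.ofBijective F ⟨hF, Finite.surjective_of_injective hF⟩
  have hπl : ∀ i, π (Fin.castAdd m i) = (eB i : B) := fun i => by
    show F _ = _
    simp only [F, Fin.addCases_left]
  have hπr : ∀ c, π (Fin.natAdd r c) = (eC c : (Bᶜ : Finset (Fin (r + m)))) := fun c => by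
    show F _ = _
    simp only [F, Fin.addCases_right]
  -- signs
  let τ : Fin (r + m) → Bool := fun k =>
    if k ∈ B then decide (0 < Q k ⬝ᵥ v k) else decide (0 < Q b0 ⬝ᵥ v k)
  have hsgd : ∀ x : ℝ, x ≠ 0 → sg (decide (0 < x)) * x = |x| := by
    intro x hx
    rcases lt_or_gt_of_ne hx with h0 | h0
    · have : ¬ 0 < x := not_lt.2 h0.le
      simp [sg, this, abs_of_neg h0]
    · simp [sg, h0, abs_of_pos h0]
  have hQk : ∀ k ∉ B, ∀ b ∈ B, Q b ⬝ᵥ v k ≠ 0 := fun k hk b hb h0 => by
    have := h3 k hk b hb b hb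
    rw [h0] at this
    simp at this
  have hτB : ∀ b ∈ B, sg (τ b) * (Q b ⬝ᵥ v b) = |Q b ⬝ᵥ v b| := by
    intro b hb
    simp only [τ, hb, if_true]
    exact hsgd _ (h2 b hb)
  have hτC : ∀ k ∉ B, ∀ b ∈ B, sg (τ k) * (Q b ⬝ᵥ v k) = |Q b ⬝ᵥ v k| := by
    intro k hk b hb
    simp only [τ, hk, if_false]
    have h4 := h3 k hk b0 hb0 b hb
    have h5 : decide (0 < Q b0 ⬝ᵥ v k) = decide (0 < Q b ⬝ᵥ v k) := by
      rcases lt_or_gt_of_ne (hQk k hk b0 hb0) with h0 | h0
      · have h6 : Q b ⬝ᵥ v k < 0 := by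
          by_contra h7
          nlinarith [not_lt.1 h7]
        rw [decide_eq_false (not_lt.2 h0.le), decide_eq_false (not_lt.2 h6.le)]
      · have h6 : 0 < Q b ⬝ᵥ v k := by
          by_contra h7
          nlinarith [not_lt.1 h7]
        rw [decide_eq_true h0, decide_eq_true h6]
    rw [h5]
    exact hsgd _ (hQk k hk b hb)
  -- the matrix
  let M : Fin r → Fin m → ℝ := fun i c =>
    |Q (eB i) ⬝ᵥ v (eC c)| / |Q (eB i) ⬝ᵥ v (eB i)|
  have hMpos : ∀ i c, 0 < M i c := by
    intro i c
    have hc := Finset.mem_compl.1 (eC c).2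
    exact div_pos (abs_pos.2 (hQk _ hc _ (eB i).2)) (abs_pos.2 (h2 _ (eB i).2))
  -- the change of basis
  let A : Matrix (Fin r) (Fin r) ℝ := Matrix.of fun i k => sg (τ (eB i)) * v (eB i) k
  have hA : A.det ≠ 0 := by
    have h4 := h (fun i => ((eB i : B) : Fin (r + m))) fun a b hab =>
      eB.injective (Subtype.ext hab)
    have h5 := Matrix.det_mul_column (fun i => sg (τ (eB i)))
      (Matrix.of fun i => v ((eB i : B) : Fin (r + m)))
    have h6 : (∏ i, sg (τ ((eB i : B) : Fin (r + m)))) ≠ 0 :=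
      Finset.prod_ne_zero_iff.2 fun i _ => sg_ne_zero _
    have h7 : A.det = (Matrix.of fun i k => sg (τ (eB i)) *
      (Matrix.of fun i => v ((eB i : B) : Fin (r + m))) i k).det := rfl
    rw [h7, h5]
    exact mul_ne_zero h6 h4
  let ε : Fin (r + m) → Bool := fun j => τ (π j)
  have hrel : ∀ j, sg (ε j) • v (π j) = cfg M j ᵥ* A := by
    intro j
    refine Fin.addCases (fun i => ?_) (fun c => ?_) j
    · -- a unit vector
      have e1 : cfg M (Fin.castAdd m i) = Pi.single i 1 := by
        simp only [cfg, Fin.addCases_left]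
      rw [e1, Matrix.single_one_vecMul]
      funext k
      simp only [ε, hπl, Pi.smul_apply, smul_eq_mul]
      rfl
    · -- a column of `M`
      have hc := Finset.mem_compl.1 (eC c).2
      obtain ⟨a, ha⟩ := h.span hB (v (eC c))
      have hQa : ∀ b ∈ B, Q b ⬝ᵥ v (eC c) = a b * (Q b ⬝ᵥ v b) := by
        intro b hb
        conv_lhs => rw [ha]
        rw [dotProduct_sum, Finset.sum_eq_single_of_mem b hb]
        · rw [dotProduct_smul, smul_eq_mul]
        · intro b' hb' hne
          rw [dotProduct_smul, h1 b hb b' hb' hne, smul_zero]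
      have hab : ∀ b ∈ B, sg (τ (eC c)) * a b =
          (|Q b ⬝ᵥ v (eC c)| / |Q b ⬝ᵥ v b|) * sg (τ b) := by
        intro b hb
        have h4 := hQa b hb
        have h5 := hτC _ hc b hb
        have h6 := hτB b hb
        have h7 : |Q b ⬝ᵥ v b| ≠ 0 := abs_ne_zero.2 (h2 b hb)
        rw [← h5, h4, div_mul_eq_mul_div, eq_div_iff h7, ← h6]
        ring
      have e1 : cfg M (Fin.natAdd r c) = fun i => M i c := by
        simp only [cfg, Fin.addCases_right]
      rw [e1]
      funext k
      simp only [ε, hπr, Pi.smul_apply, smul_eq_mul]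
      have e2 : v (eC c) k = ∑ b ∈ B, a b * v b k := by
        conv_lhs => rw [ha]
        rw [Finset.sum_apply]
        rfl
      rw [e2, Finset.mul_sum]
      simp only [Matrix.vecMul, dotProduct]
      rw [← Finset.sum_coe_sort B, ← eB.sum_comp]
      refine Finset.sum_congr rfl fun i _ => ?_
      show sg (τ (eC c)) * (a (eB i) * v (eB i) k) = M i c * (sg (τ (eB i)) * v (eB i) k)
      rw [← mul_assoc, hab _ (eB i).2]
      show _ = (|Q (eB i) ⬝ᵥ v (eC c)| / |Q (eB i) ⬝ᵥ v (eB i)|) * _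
      ring
  refine ⟨M, hMpos, h.transfer hrel, fun s hs => hbad _ (hs.transfer hA hrel)⟩

end Pool.Agent.H77.Z12
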