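import Mathlib
import Pool.Agent.H77.Z12.Chart

/-!
Signs of determinants of six vectors, three term relations, cocircuits and circuits
(MP_1e71f9_co).
-/

set_option autoImplicit false

namespace Pool.Agent.H77.Z12

open Finset Matrix Pool.Agent.H67.Nu

variable {n : ℕ} {v : Fin n → Fin 6 → ℝ}

/-- The determinant of six of the vectors. -/
def D (v : Fin n → Fin 6 → ℝ) (l : Fin 6 → Fin n) : ℝ := (Matrix.of fun i => v (l i)).det

/-- The Vandermonde product of a sequence of indices. -/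
def vd (l : Fin 6 → Fin n) : ℝ := (Matrix.vandermonde fun i => ((l i : ℕ) : ℝ)).det

theorem D_perm (v : Fin n → Fin 6 → ℝ) (l : Fin 6 → Fin n) (σ : Equiv.Perm (Fin 6)) :
    D v (l ∘ σ) = ((Equiv.Perm.sign σ : ℤ) : ℝ) * D v l := by
  have := Matrix.det_permute σ (Matrix.of fun i => v (l i))
  exact this

theorem vd_perm (l : Fin 6 → Fin n) (σ : Equiv.Perm (Fin 6)) :
    vd (l ∘ σ) = ((Equiv.Perm.sign σ : ℤ) : ℝ) * vd l := by
  have := Matrix.det_permute σ (Matrix.vandermonde fun i => ((l i : ℕ) : ℝ))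
  exact this

theorem sign_sq (σ : Equiv.Perm (Fin 6)) :
    ((Equiv.Perm.sign σ : ℤ) : ℝ) * ((Equiv.Perm.sign σ : ℤ) : ℝ) = 1 := by
  rcases Int.units_eq_one_or (Equiv.Perm.sign σ) with h | h <;> rw [h] <;> norm_num

theorem DV_perm (v : Fin n → Fin 6 → ℝ) (l : Fin 6 → Fin n) (σ : Equiv.Perm (Fin 6)) :
    D v (l ∘ σ) * vd (l ∘ σ) = D v l * vd l := by
  rw [D_perm, vd_perm]
  have := sign_sq σ
  linear_combination (D v l * vd l) * this

theorem exists_perm {l l' : Fin 6 → Fin n} (h' : Function.Injective l')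
    (he : Finset.univ.image l = Finset.univ.image l') : ∃ σ : Equiv.Perm (Fin 6), l' = l ∘ σ := by
  classical
  have hs : ∀ i, ∃ j, l j = l' i := fun i => by
    have : l' i ∈ Finset.univ.image l := by rw [he]; exact Finset.mem_image_of_mem _ (mem_univ _)
    obtain ⟨j, -, hj⟩ := Finset.mem_image.1 this
    exact ⟨j, hj⟩
  choose f hf using hs
  have hinj : Function.Injective f := fun a b hab => h' (by rw [← hf a, ← hf b, hab])
  refine ⟨Equiv.ofBijective f (Finite.injective_iff_bijective.1 hinj), ?_⟩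
  funext i
  exact (hf i).symm

theorem DV_congr (v : Fin n → Fin 6 → ℝ) {l l' : Fin 6 → Fin n} (h' : Function.Injective l') (he : Finset.univ.image l = Finset.univ.image l') :
    D v l * vd l = D v l' * vd l' := by
  obtain ⟨σ, rfl⟩ := exists_perm h' he
  exact (DV_perm v l σ).symm

open Classical in
/-- The sign of the determinant of the vectors of `S` in increasing order. -/
noncomputable def chi (v : Fin n → Fin 6 → ℝ) (S : Finset (Fin n)) : Bool :=
  decide (∃ l : Fin 6 → Fin n, Function.Injective l ∧ Finset.univ.image l = S ∧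
    0 < D v l * vd l)

theorem chi_iff (v : Fin n → Fin 6 → ℝ) {l : Fin 6 → Fin n} (h : Function.Injective l) :
    chi v (Finset.univ.image l) = true ↔ 0 < D v l * vd l := by
  rw [chi, decide_eq_true_iff]
  constructor
  · rintro ⟨l', h', he, hp⟩
    rwa [DV_congr v h' he.symm]
  · intro hp
    exact ⟨l, h, rfl, hp⟩

theorem vd_ne {l : Fin 6 → Fin n} (h : Function.Injective l) : vd l ≠ 0 := by
  rw [vd, Matrix.det_vandermonde_ne_zero_iff]
  intro a b hab
  apply h
  apply Fin.ext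
  have hab' : ((l a : ℕ) : ℝ) = ((l b : ℕ) : ℝ) := hab
  exact_mod_cast hab'

theorem D_ne (hv : Gen v) {l : Fin 6 → Fin n} (h : Function.Injective l) : D v l ≠ 0 := hv l h

theorem chi_iff_neg (hv : Gen v) {l : Fin 6 → Fin n} (h : Function.Injective l) :
    chi v (Finset.univ.image l) = false ↔ D v l * vd l < 0 := by
  rw [← not_iff_not, Bool.not_eq_false, chi_iff v h, not_lt]
  constructor
  · exact le_of_lt
  · intro hle
    exact lt_of_le_of_ne hle (Ne.symm (mul_ne_zero (D_ne hv h) (vd_ne h)))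

/-- `D` has the sign of `chi` times the sign of the Vandermonde product. -/
theorem D_sign (hv : Gen v) {l : Fin 6 → Fin n} (h : Function.Injective l) :
    0 < sg (chi v (Finset.univ.image l)) * (D v l * vd l) := by
  cases hc : chi v (Finset.univ.image l)
  · have := (chi_iff_neg hv h).1 hc
    simp only [sg]
    norm_num
    linarith
  · have := (chi_iff v h).1 hc
    simp only [sg]
    norm_num
    linarith

/-! ### Rows -/

/-- The matrix with rows `a 0, .., a 3, x, y`. -/
def mat6 (a : Fin 4 → Fin 6 → ℝ) (x y : Fin 6 → ℝ) : Matrix (Fin 6) (Fin 6) ℝ :=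
  Matrix.of ![a 0, a 1, a 2, a 3, x, y]

/-- The determinant as a function of the last two rows. -/
def F (a : Fin 4 → Fin 6 → ℝ) (x y : Fin 6 → ℝ) : ℝ := (mat6 a x y).det

theorem mat6_y (a : Fin 4 → Fin 6 → ℝ) (x y : Fin 6 → ℝ) :
    mat6 a x y = (mat6 a x 0).updateRow 5 y := by
  ext i j
  fin_cases i <;> simp [mat6, Matrix.updateRow_apply, Fin.ext_iff]

theorem mat6_x (a : Fin 4 → Fin 6 → ℝ) (x y : Fin 6 → ℝ) :
    mat6 a x y = (mat6 a 0 y).updateRow 4 x := by
  ext i j
  fin_cases i <;> simp [mat6, Matrix.updateRow_apply, Fin.ext_iff]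

theorem F_add_left (a : Fin 4 → Fin 6 → ℝ) (x x' y : Fin 6 → ℝ) :
    F a (x + x') y = F a x y + F a x' y := by
  rw [F, F, F, mat6_x a (x + x'), mat6_x a x, mat6_x a x', Matrix.det_updateRow_add]

theorem F_smul_left (a : Fin 4 → Fin 6 → ℝ) (c : ℝ) (x y : Fin 6 → ℝ) :
    F a (c • x) y = c * F a x y := by
  rw [F, F, mat6_x a (c • x), mat6_x a x, Matrix.det_updateRow_smul]

theorem F_add_right (a : Fin 4 → Fin 6 → ℝ) (x y y' : Fin 6 → ℝ) :
    F a x (y + y') = F a x y + F a x y' := by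
  rw [F, F, F, mat6_y a x (y + y'), mat6_y a x y, mat6_y a x y', Matrix.det_updateRow_add]

theorem F_smul_right (a : Fin 4 → Fin 6 → ℝ) (c : ℝ) (x y : Fin 6 → ℝ) :
    F a x (c • y) = c * F a x y := by
  rw [F, F, mat6_y a x (c • y), mat6_y a x y, Matrix.det_updateRow_smul]

theorem F_self (a : Fin 4 → Fin 6 → ℝ) (x : Fin 6 → ℝ) : F a x x = 0 := by
  rw [F]
  exact Matrix.det_zero_of_row_eq (i := 4) (j := 5) (by decide) rfl

theorem F_swap (a : Fin 4 → Fin 6 → ℝ) (x y : Fin 6 → ℝ) : F a y x = - F a x y := by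
  have h := F_self a (x + y)
  rw [F_add_left, F_add_right, F_add_right, F_self, F_self] at h
  linarith

theorem F_row_left (a : Fin 4 → Fin 6 → ℝ) (k : Fin 4) (y : Fin 6 → ℝ) : F a (a k) y = 0 := by
  rw [F]
  refine Matrix.det_zero_of_row_eq (i := k.castLE (by norm_num)) (j := 4) ?_ ?_
  · intro h
    have := congrArg Fin.val h
    have hk := k.2
    simp at this
    omega
  · fin_cases k <;> rfl

/-- Coordinates of a vector with respect to six independent rows. -/
theorem exists_coord (a : Fin 4 → Fin 6 → ℝ) {x y : Fin 6 → ℝ} (h : F a x y ≠ 0)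
    (z : Fin 6 → ℝ) : ∃ (c : Fin 4 → ℝ) (α β : ℝ),
      z = c 0 • a 0 + (c 1 • a 1 + (c 2 • a 2 + (c 3 • a 3 + (α • x + β • y)))) := by
  have hu : IsUnit (mat6 a x y).det := isUnit_iff_ne_zero.2 h
  have h1 : (z ᵥ* (mat6 a x y)⁻¹) ᵥ* (mat6 a x y) = z := by
    rw [Matrix.vecMul_vecMul, Matrix.nonsing_inv_mul _ hu, Matrix.vecMul_one]
  set c := z ᵥ* (mat6 a x y)⁻¹ with hc
  refine ⟨![c 0, c 1, c 2, c 3], c 4, c 5, ?_⟩
  conv_lhs => rw [← h1]
  funext k
  simp [Matrix.vecMul, dotProduct, Fin.sum_univ_succ, mat6]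

theorem F_expand (a : Fin 4 → Fin 6 → ℝ) {x y : Fin 6 → ℝ} {z : Fin 6 → ℝ} {c : Fin 4 → ℝ}
    {α β : ℝ} (hz : z = c 0 • a 0 + (c 1 • a 1 + (c 2 • a 2 + (c 3 • a 3 + (α • x + β • y)))))
    (w : Fin 6 → ℝ) : F a z w = α * F a x w + β * F a y w := by
  rw [hz]
  simp only [F_add_left, F_smul_left, F_row_left, mul_zero, zero_add]

/-- The three term relation. -/
theorem F_gp (a : Fin 4 → Fin 6 → ℝ) {x y : Fin 6 → ℝ} (h : F a x y ≠ 0) (z w : Fin 6 → ℝ) :
    F a x y * F a z w - F a x z * F a y w + F a x w * F a y z = 0 := by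
  obtain ⟨c, α, β, hz⟩ := exists_coord a h z
  have e1 := F_expand a hz w
  have e2 := F_expand a hz y
  have e3 := F_expand a hz x
  have s1 := F_swap a z x
  have s2 := F_swap a z y
  have s3 := F_swap a x y
  have t1 := F_self a x
  have t2 := F_self a y
  rw [e1]
  have hxz : F a x z = β * F a x y := by rw [s1, e3, t1, s3]; ring
  have hyz : F a y z = - (α * F a x y) := by rw [s2, e2, t2]; ring
  rw [hxz, hyz]
  ring

end Pool.Agent.H77.Z12
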