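import Mathlib
import Pool.Agent.H77.Z12.Det

/-!
The sign relations in terms of sets of indices: three term relations, cocircuits, circuits
(MP_1e71f9_co).
-/

set_option autoImplicit false

namespace Pool.Agent.H77.Z12

open Finset Matrix Pool.Agent.H67.Nu

variable {n : ℕ} {v : Fin n → Fin 6 → ℝ}

/-- Parity of the number of elements of `S` above `x`. -/
def ip (S : Finset (Fin n)) (x : Fin n) : Bool := decide (Odd (S.filter fun z => x < z).card)

theorem sg_not_dec {n : ℕ} {x a : Fin n} (h : x ≠ a) :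
    0 < sg (!(decide (x < a))) * (((x : ℕ) : ℝ) - ((a : ℕ) : ℝ)) := by
  rcases lt_trichotomy x a with h1 | h1 | h1
  · have : ((x : ℕ) : ℝ) < ((a : ℕ) : ℝ) := by exact_mod_cast h1
    simp [sg, h1, this]
  · exact absurd h1 h
  · have : ((a : ℕ) : ℝ) < ((x : ℕ) : ℝ) := by exact_mod_cast h1
    simp [sg, h1.le, this]

theorem sg_xor (a b : Bool) : sg (!(xor a b)) = sg (!a) * sg (!b) := by
  cases a <;> cases b <;> simp [sg]

theorem sg_mul_pos {a b : Bool} {x y : ℝ} (hx : 0 < sg (!a) * x) (hy : 0 < sg (!b) * y) :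
    0 < sg (!(xor a b)) * (x * y) := by
  rw [sg_xor]
  calc (0 : ℝ) < (sg (!a) * x) * (sg (!b) * y) := mul_pos hx hy
    _ = _ := by ring

theorem card_filter_ofFn {k : ℕ} (a : Fin k → Fin n) (ha : Function.Injective a) (x : Fin n) :
    ((Finset.univ.image a).filter fun z => x < z).card =
      ∑ i : Fin k, if x < a i then 1 else 0 := by
  classical
  rw [Finset.card_filter, Finset.sum_image (fun _ _ _ _ h => ha h)]

theorem prod_sign {k : ℕ} (a : Fin k → Fin n) (ha : Function.Injective a) (x : Fin n)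
    (hx : ∀ i, x ≠ a i) :
    0 < sg (!(ip (Finset.univ.image a) x)) *
      ∏ i : Fin k, (((x : ℕ) : ℝ) - ((a i : ℕ) : ℝ)) := by
  classical
  rw [ip, card_filter_ofFn a ha]
  clear ha
  induction k with
  | zero => simp [sg]
  | succ k ih =>
    have h1 := ih (fun i => a i.succ) (fun i => hx i.succ)
    have h0 := sg_not_dec (hx 0)
    rw [Fin.prod_univ_succ, Fin.sum_univ_succ]
    have e : decide (Odd ((if x < a 0 then 1 else 0) +
        ∑ i : Fin k, if x < a i.succ then 1 else 0)) =
        xor (decide (x < a 0)) (decide (Odd (∑ i : Fin k, if x < a i.succ then 1 else 0))) := by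
      generalize (∑ i : Fin k, if x < a i.succ then 1 else 0) = N
      by_cases hlt : x < a 0
      · simp only [hlt, if_true, decide_true]
        by_cases ho : Odd N
        · have : ¬ Odd (1 + N) := by
            rw [Nat.not_odd_iff_even]; exact (odd_one.add_odd ho)
          rw [decide_eq_false this, decide_eq_true ho]; rfl
        · have : Odd (1 + N) := odd_one.add_even (Nat.not_odd_iff_even.1 ho)
          rw [decide_eq_true this, decide_eq_false ho]; rfl
      · simp [hlt]
    rw [e]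
    exact sg_mul_pos h0 h1

/-- The sequence `a 0, .., a 3, x, y`. -/
def sq (a : Fin 4 → Fin n) (x y : Fin n) : Fin 6 → Fin n := ![a 0, a 1, a 2, a 3, x, y]

theorem D_sq (v : Fin n → Fin 6 → ℝ) (a : Fin 4 → Fin n) (x y : Fin n) :
    D v (sq a x y) = F (fun i => v (a i)) (v x) (v y) := by
  rw [D, F, mat6]
  congr 1
  ext i j
  fin_cases i <;> rfl

theorem sq_injective {a : Fin 4 → Fin n} (ha : Function.Injective a) {x y : Fin n}
    (hx : ∀ i, x ≠ a i) (hy : ∀ i, y ≠ a i) (hxy : x ≠ y) : Function.Injective (sq a x y) := by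
  have h01 : a 0 ≠ a 1 := fun h => absurd (ha h) (by decide)
  have h02 : a 0 ≠ a 2 := fun h => absurd (ha h) (by decide)
  have h03 : a 0 ≠ a 3 := fun h => absurd (ha h) (by decide)
  have h12 : a 1 ≠ a 2 := fun h => absurd (ha h) (by decide)
  have h13 : a 1 ≠ a 3 := fun h => absurd (ha h) (by decide)
  have h23 : a 2 ≠ a 3 := fun h => absurd (ha h) (by decide)
  have := hx 0
  have := hx 1
  have := hx 2
  have := hx 3
  have := hy 0
  have := hy 1
  have := hy 2
  have := hy 3
  intro i j hij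
  fin_cases i <;> fin_cases j <;> simp [sq] at hij ⊢ <;> first | (exact absurd hij (by assumption)) | (exact absurd hij.symm (by assumption))

theorem image_sq (a : Fin 4 → Fin n) (x y : Fin n) :
    Finset.univ.image (sq a x y) = insert x (insert y (Finset.univ.image a)) := by
  classical
  ext z
  simp only [Finset.mem_image, Finset.mem_univ, true_and, Finset.mem_insert]
  constructor
  · rintro ⟨i, rfl⟩
    fin_cases i
    · exact Or.inr (Or.inr ⟨0, rfl⟩)
    · exact Or.inr (Or.inr ⟨1, rfl⟩)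
    · exact Or.inr (Or.inr ⟨2, rfl⟩)
    · exact Or.inr (Or.inr ⟨3, rfl⟩)
    · exact Or.inl rfl
    · exact Or.inr (Or.inl rfl)
  · rintro (rfl | rfl | ⟨i, rfl⟩)
    · exact ⟨4, rfl⟩
    · exact ⟨5, rfl⟩
    · fin_cases i
      · exact ⟨0, rfl⟩
      · exact ⟨1, rfl⟩
      · exact ⟨2, rfl⟩
      · exact ⟨3, rfl⟩

theorem vd_sq {a : Fin 4 → Fin n} (ha : StrictMono a) {x y : Fin n}
    (hx : ∀ i, x ≠ a i) (hy : ∀ i, y ≠ a i) (hxy : x < y) :
    0 < sg (!(xor (ip (Finset.univ.image a) x) (ip (Finset.univ.image a) y))) *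
      vd (sq a x y) := by
  have hX := prod_sign a ha.injective x hx
  have hY := prod_sign a ha.injective y hy
  have h3 := sg_mul_pos hX hY
  have e : vd (sq a x y) =
      ((∏ i : Fin 4, (((x : ℕ) : ℝ) - ((a i : ℕ) : ℝ))) *
        (∏ i : Fin 4, (((y : ℕ) : ℝ) - ((a i : ℕ) : ℝ)))) *
      ((((y : ℕ) : ℝ) - ((x : ℕ) : ℝ)) *
        (Matrix.vandermonde fun i => ((a i : ℕ) : ℝ)).det) := by
    rw [vd, Matrix.det_vandermonde, Matrix.det_vandermonde]
    simp [Fin.prod_univ_succ, Fin.prod_Ioi_succ, sq]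
    ring
  have hV : 0 < (Matrix.vandermonde fun i => ((a i : ℕ) : ℝ)).det := by
    rw [Matrix.det_vandermonde]
    refine Finset.prod_pos fun i _ => Finset.prod_pos fun j hj => ?_
    have : a i < a j := ha (Finset.mem_Ioi.1 hj)
    have : ((a i : ℕ) : ℝ) < ((a j : ℕ) : ℝ) := by exact_mod_cast this
    linarith
  have hyx : 0 < ((y : ℕ) : ℝ) - ((x : ℕ) : ℝ) := by
    have : ((x : ℕ) : ℝ) < ((y : ℕ) : ℝ) := by exact_mod_cast hxy
    linarith
  rw [e, ← mul_assoc]
  exact mul_pos h3 (mul_pos hyx hV)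

/-- The sign of `F` in the last two rows: `chi` corrected by the parities. -/
noncomputable def fs (v : Fin n → Fin 6 → ℝ) (S : Finset (Fin n)) (x y : Fin n) : Bool :=
  xor (chi v (insert x (insert y S))) (xor (ip S x) (ip S y))

theorem F_sign (hv : Gen v) {a : Fin 4 → Fin n} (ha : StrictMono a) {x y : Fin n}
    (hx : ∀ i, x ≠ a i) (hy : ∀ i, y ≠ a i) (hxy : x < y) :
    0 < sg (fs v (Finset.univ.image a) x y) * F (fun i => v (a i)) (v x) (v y) := by
  have h1 := D_sign hv (sq_injective ha.injective hx hy hxy.ne)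
  have h2 := vd_sq ha hx hy hxy
  rw [image_sq, D_sq] at h1
  rw [fs]
  set c := chi v (insert x (insert y (Finset.univ.image a)))
  set p := xor (ip (Finset.univ.image a) x) (ip (Finset.univ.image a) y)
  have h3 : 0 < (sg c * (F (fun i => v (a i)) (v x) (v y) * vd (sq a x y))) *
      (sg (!p) * vd (sq a x y)) := mul_pos h1 h2
  have hne : vd (sq a x y) ≠ 0 := by
    intro h0
    rw [h0, mul_zero] at h2
    exact lt_irrefl _ h2
  have h4 : 0 < vd (sq a x y) * vd (sq a x y) := mul_self_pos.2 hne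
  have e : sg (xor c p) = sg c * sg (!p) := by cases c <;> cases p <;> simp [sg]
  rw [e]
  have h5 : 0 < (sg c * sg (!p) * F (fun i => v (a i)) (v x) (v y)) *
      (vd (sq a x y) * vd (sq a x y)) := by
    calc (0 : ℝ) < _ := h3
      _ = _ := by ring
  exact (pos_iff_pos_of_mul_pos h5).2 h4

/-- The three term relation for signs. -/
theorem gp_sign (hv : Gen v) {S : Finset (Fin n)} (hS : S.card = 4) {a b c d : Fin n}
    (hab : a < b) (hbc : b < c) (hcd : c < d) (ha : a ∉ S) (hb : b ∉ S) (hc : c ∉ S)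
    (hd : d ∉ S) :
    ¬ ((fs v S a b == fs v S c d) = !(fs v S a c == fs v S b d) ∧
      (fs v S a b == fs v S c d) = (fs v S a d == fs v S b c)) := by
  classical
  set e := S.orderEmbOfFin hS with he
  have hm : StrictMono e := e.strictMono
  have him : Finset.univ.image e = S := by
    apply Finset.coe_injective
    rw [Finset.coe_image, Finset.coe_univ, Set.image_univ, he, Finset.range_orderEmbOfFin]
  have hmem : ∀ i, e i ∈ S := fun i => Finset.orderEmbOfFin_mem S hS i
  have ha' : ∀ i, a ≠ e i := fun i h => ha (h ▸ hmem i)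
  have hb' : ∀ i, b ≠ e i := fun i h => hb (h ▸ hmem i)
  have hc' : ∀ i, c ≠ e i := fun i h => hc (h ▸ hmem i)
  have hd' : ∀ i, d ≠ e i := fun i h => hd (h ▸ hmem i)
  have hac := hab.trans hbc
  have hbd := hbc.trans hcd
  have had := hac.trans hcd
  have Fab := F_sign hv hm ha' hb' hab
  have Fcd := F_sign hv hm hc' hd' hcd
  have Fac := F_sign hv hm ha' hc' hac
  have Fbd := F_sign hv hm hb' hd' hbd
  have Fad := F_sign hv hm ha' hd' had
  have Fbc := F_sign hv hm hb' hc' hbc
  rw [him] at Fab Fcd Fac Fbd Fad Fbc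
  have hne : F (fun i => v (e i)) (v a) (v b) ≠ 0 := by
    intro h0
    rw [h0, mul_zero] at Fab
    exact lt_irrefl _ Fab
  have gp := F_gp (fun i => v (e i)) hne (v c) (v d)
  generalize F (fun i => v (e i)) (v a) (v b) = Xab at *
  generalize F (fun i => v (e i)) (v c) (v d) = Xcd at *
  generalize F (fun i => v (e i)) (v a) (v c) = Xac at *
  generalize F (fun i => v (e i)) (v b) (v d) = Xbd at *
  generalize F (fun i => v (e i)) (v a) (v d) = Xad at *
  generalize F (fun i => v (e i)) (v b) (v c) = Xbc at *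
  have P1 : 0 < sg (fs v S a b == fs v S c d) * (Xab * Xcd) := by
    rw [sg_beq]
    calc (0 : ℝ) < _ := mul_pos Fab Fcd
      _ = _ := by ring
  have P2 : 0 < sg (fs v S a c == fs v S b d) * (Xac * Xbd) := by
    rw [sg_beq]
    calc (0 : ℝ) < _ := mul_pos Fac Fbd
      _ = _ := by ring
  have P3 : 0 < sg (fs v S a d == fs v S b c) * (Xad * Xbc) := by
    rw [sg_beq]
    calc (0 : ℝ) < _ := mul_pos Fad Fbc
      _ = _ := by ring
  rintro ⟨h1, h2⟩
  rw [← h2] at P3
  have h1' : (fs v S a c == fs v S b d) = !(fs v S a b == fs v S c d) := by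
    rw [h1, Bool.not_not]
  rw [h1', sg_not] at P2
  have : 0 < sg (fs v S a b == fs v S c d) * (Xab * Xcd - Xac * Xbd + Xad * Xbc) := by
    have e : sg (fs v S a b == fs v S c d) * (Xab * Xcd - Xac * Xbd + Xad * Xbc) =
      sg (fs v S a b == fs v S c d) * (Xab * Xcd) +
      -sg (fs v S a b == fs v S c d) * (Xac * Xbd) +
      sg (fs v S a b == fs v S c d) * (Xad * Xbc) := by ring
    rw [e]
    linarith
  rw [gp, mul_zero] at this
  exact lt_irrefl _ this

end Pool.Agent.H77.Z12
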