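import Mathlib
import Pool.Agent.H77.Z12.Signs

/-!
Cocircuits give topes, circuits forbid them (MP_1e71f9_co).
-/

set_option autoImplicit false

namespace Pool.Agent.H77.Z12

open Finset Matrix Pool.Agent.H67.Nu

variable {n : ℕ} {v : Fin n → Fin 6 → ℝ}

/-- The determinant as a function of its last row. -/
def G (a : Fin 5 → Fin 6 → ℝ) (x : Fin 6 → ℝ) : ℝ :=
  (Matrix.of ![a 0, a 1, a 2, a 3, a 4, x]).det

theorem G_eq (a : Fin 5 → Fin 6 → ℝ) (x : Fin 6 → ℝ) :
    G a x = F (fun i => a i.castSucc) (a 4) x := rfl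

theorem exists_normal (a : Fin 5 → Fin 6 → ℝ) : ∃ w : Fin 6 → ℝ, ∀ x, w ⬝ᵥ x = G a x := by
  refine ⟨fun j => G a (Pi.single j 1), fun x => ?_⟩
  let L : (Fin 6 → ℝ) →ₗ[ℝ] ℝ :=
    { toFun := G a
      map_add' := fun x y => by simp only [G_eq, F_add_right]
      map_smul' := fun c x => by simp only [G_eq, F_smul_right, RingHom.id_apply, smul_eq_mul] }
  have h : L x = ∑ i : Fin 6, x i • L (fun j => if i = j then 1 else 0) :=
    LinearMap.pi_apply_eq_sum_univ L x
  have h' : G a x = ∑ i : Fin 6, x i • G a (fun j => if i = j then 1 else 0) := h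
  rw [h', dotProduct]
  refine Finset.sum_congr rfl fun i _ => ?_
  rw [smul_eq_mul, mul_comm]
  congr 2
  funext j
  by_cases hij : i = j
  · subst hij; simp
  · simp [hij, Ne.symm hij]

theorem G_row (a : Fin 5 → Fin 6 → ℝ) (k : Fin 5) : G a (a k) = 0 := by
  rw [G]
  refine Matrix.det_zero_of_row_eq (i := k.castLE (by norm_num)) (j := 5) ?_ ?_
  · intro h
    have := congrArg Fin.val h
    have hk := k.2
    simp at this
    omega
  · fin_cases k <;> rfl

/-- The sequence `a 0, .., a 4, x`. -/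
def sq5 (a : Fin 5 → Fin n) (x : Fin n) : Fin 6 → Fin n := ![a 0, a 1, a 2, a 3, a 4, x]

theorem D_sq5 (v : Fin n → Fin 6 → ℝ) (a : Fin 5 → Fin n) (x : Fin n) :
    D v (sq5 a x) = G (fun i => v (a i)) (v x) := by
  rw [D, G]
  congr 1
  ext i j
  fin_cases i <;> rfl

theorem sq5_injective {a : Fin 5 → Fin n} (ha : Function.Injective a) {x : Fin n}
    (hx : ∀ i, x ≠ a i) : Function.Injective (sq5 a x) := by
  have e : sq5 a x = sq (fun i => a i.castSucc) (a 4) x := rfl
  rw [e]
  refine sq_injective (fun i j h => Fin.castSucc_injective _ (ha h)) ?_ (fun i => hx _) ?_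
  · intro i h
    have := congrArg Fin.val (ha h)
    have hi := i.2
    simp at this
    omega
  · exact (hx 4).symm

theorem image_sq5 (a : Fin 5 → Fin n) (x : Fin n) :
    Finset.univ.image (sq5 a x) = insert x (Finset.univ.image a) := by
  classical
  ext z
  simp only [Finset.mem_image, Finset.mem_univ, true_and, Finset.mem_insert]
  constructor
  · rintro ⟨i, rfl⟩
    fin_cases i
    · exact Or.inr ⟨0, rfl⟩
    · exact Or.inr ⟨1, rfl⟩
    · exact Or.inr ⟨2, rfl⟩
    · exact Or.inr ⟨3, rfl⟩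
    · exact Or.inr ⟨4, rfl⟩
    · exact Or.inl rfl
  · rintro (rfl | ⟨i, rfl⟩)
    · exact ⟨5, rfl⟩
    · fin_cases i
      · exact ⟨0, rfl⟩
      · exact ⟨1, rfl⟩
      · exact ⟨2, rfl⟩
      · exact ⟨3, rfl⟩
      · exact ⟨4, rfl⟩

theorem vd_sq5 {a : Fin 5 → Fin n} (ha : StrictMono a) {x : Fin n} (hx : ∀ i, x ≠ a i) :
    0 < sg (!(ip (Finset.univ.image a) x)) * vd (sq5 a x) := by
  have hX := prod_sign a ha.injective x hx
  have e : vd (sq5 a x) =
      (∏ i : Fin 5, (((x : ℕ) : ℝ) - ((a i : ℕ) : ℝ))) *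
        (Matrix.vandermonde fun i => ((a i : ℕ) : ℝ)).det := by
    rw [vd, Matrix.det_vandermonde, Matrix.det_vandermonde]
    simp [Fin.prod_univ_succ, Fin.prod_Ioi_succ, sq5]
    ring
  have hV : 0 < (Matrix.vandermonde fun i => ((a i : ℕ) : ℝ)).det := by
    rw [Matrix.det_vandermonde]
    refine Finset.prod_pos fun i _ => Finset.prod_pos fun j hj => ?_
    have : a i < a j := ha (Finset.mem_Ioi.1 hj)
    have : ((a i : ℕ) : ℝ) < ((a j : ℕ) : ℝ) := by exact_mod_cast this
    linarith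
  rw [e, ← mul_assoc]
  exact mul_pos hX hV

/-- The sign of the cocircuit vanishing on `S` at `x`. -/
noncomputable def cs (v : Fin n → Fin 6 → ℝ) (S : Finset (Fin n)) (x : Fin n) : Bool :=
  xor (chi v (insert x S)) (ip S x)

theorem G_sign (hv : Gen v) {a : Fin 5 → Fin n} (ha : StrictMono a) {x : Fin n}
    (hx : ∀ i, x ≠ a i) :
    0 < sg (cs v (Finset.univ.image a) x) * G (fun i => v (a i)) (v x) := by
  have h1 := D_sign hv (sq5_injective ha.injective hx)
  have h2 := vd_sq5 ha hx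
  rw [image_sq5, D_sq5] at h1
  rw [cs]
  set c := chi v (insert x (Finset.univ.image a))
  set p := ip (Finset.univ.image a) x
  have h3 := mul_pos h1 h2
  have hne : vd (sq5 a x) ≠ 0 := by
    intro h0
    rw [h0, mul_zero] at h2
    exact lt_irrefl _ h2
  have h4 : 0 < vd (sq5 a x) * vd (sq5 a x) := mul_self_pos.2 hne
  have e : sg (xor c p) = sg c * sg (!p) := by cases c <;> cases p <;> simp [sg]
  rw [e]
  have h5 : 0 < (sg c * sg (!p) * G (fun i => v (a i)) (v x)) *
      (vd (sq5 a x) * vd (sq5 a x)) := by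
    calc (0 : ℝ) < _ := h3
      _ = _ := by ring
  exact (pos_iff_pos_of_mul_pos h5).2 h4

/-- A functional which vanishes on independent vectors can be perturbed to any signs there. -/
theorem exists_perturb (hv : Gen v) (S : Finset (Fin n)) {B : Finset (Fin n)} (hSB : S ⊆ B)
    (hB : B.card = 6) (w : Fin 6 → ℝ)
    (hw : ∀ d ∈ S, w ⬝ᵥ v d = 0) (s : Fin n → Bool)
    (hs : ∀ j ∉ S, 0 < sg (s j) * (w ⬝ᵥ v j)) : Tope v s := by
  classical
  -- a functional with prescribed values on `B`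
  obtain ⟨z, hz⟩ : ∃ z : Fin 6 → ℝ, ∀ d ∈ S, z ⬝ᵥ v d = sg (s d) := by
    let e : Fin 6 ≃ B := (Finset.equivFinOfCardEq hB).symm
    have hf : Function.Injective fun i => (e i : Fin n) := fun a b hab =>
      e.injective (Subtype.ext hab)
    have hdet := hv _ hf
    set A : Matrix (Fin 6) (Fin 6) ℝ := Matrix.of fun i => v (e i : Fin n) with hA
    have hu : IsUnit A.det := isUnit_iff_ne_zero.2 hdet
    refine ⟨A⁻¹ *ᵥ fun i => sg (s (e i : Fin n)), fun d hd => ?_⟩
    have h1 : A *ᵥ (A⁻¹ *ᵥ fun i => sg (s (e i : Fin n))) = fun i => sg (s (e i : Fin n)) := by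
      rw [Matrix.mulVec_mulVec, Matrix.mul_nonsing_inv A hu, Matrix.one_mulVec]
    have h2 := congrFun h1 (e.symm ⟨d, hSB hd⟩)
    have h3 : (e (e.symm ⟨d, hSB hd⟩) : Fin n) = d := by simp
    rw [h3] at h2
    rw [dotProduct_comm]
    calc _ = (A *ᵥ (A⁻¹ *ᵥ fun i => sg (s (e i : Fin n)))) (e.symm ⟨d, hSB hd⟩) := by
          rw [Matrix.mulVec]
          rw [hA]
          simp only [Matrix.of_apply, h3]
      _ = _ := h2
  -- small multiple
  have hex : ∀ j : Fin n, ∃ ε : ℝ, 0 < ε ∧ ∀ t, 0 < t → t ≤ ε →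
      0 < sg (s j) * ((w + t • z) ⬝ᵥ v j) := by
    intro j
    by_cases hj : j ∈ S
    · refine ⟨1, one_pos, fun t ht _ => ?_⟩
      rw [add_dotProduct, smul_dotProduct, hw j hj, hz j hj, smul_eq_mul, zero_add]
      have := sg_mul_self (s j)
      calc (0 : ℝ) < t := ht
        _ = t * (sg (s j) * sg (s j)) := by rw [this, mul_one]
        _ = _ := by ring
    · have h0 := hs j hj
      refine ⟨(sg (s j) * (w ⬝ᵥ v j)) / (2 * (|z ⬝ᵥ v j| + 1)), by positivity, fun t ht hte => ?_⟩
      rw [add_dotProduct, smul_dotProduct, smul_eq_mul]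
      have h1 : t * (2 * (|z ⬝ᵥ v j| + 1)) ≤ sg (s j) * (w ⬝ᵥ v j) := by
        rwa [le_div_iff₀ (by positivity)] at hte
      have h2 : |sg (s j) * (t * (z ⬝ᵥ v j))| ≤ t * |z ⬝ᵥ v j| := by
        rw [abs_mul, abs_mul, abs_of_pos ht]
        have : |sg (s j)| = 1 := by cases s j <;> simp [sg]
        rw [this, one_mul]
      have h3 := neg_abs_le (sg (s j) * (t * (z ⬝ᵥ v j)))
      have h4 : 0 ≤ |z ⬝ᵥ v j| := abs_nonneg _
      rw [mul_add]
      nlinarith
  choose ε hε hε' using hex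
  obtain ⟨t, ht, ht'⟩ : ∃ t : ℝ, 0 < t ∧ ∀ j, t ≤ ε j := by
    rcases isEmpty_or_nonempty (Fin n) with he | hne
    · exact ⟨1, one_pos, fun j => (he.false j).elim⟩
    · refine ⟨Finset.univ.inf' Finset.univ_nonempty ε, ?_, fun j =>
        Finset.inf'_le _ (Finset.mem_univ j)⟩
      rw [Finset.lt_inf'_iff]
      exact fun j _ => hε j
  exact ⟨w + t • z, fun j => hε' j t ht (ht' j)⟩

/-- **Cocircuits give topes.** -/
theorem tope_of_cocircuit (hv : Gen v) {S : Finset (Fin n)} (hS : S.card = 5) (hn : 6 ≤ n)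
    (ε : Bool) (s : Fin n → Bool) (hs : ∀ j ∉ S, s j = xor (cs v S j) ε) : Tope v s := by
  classical
  set a := S.orderEmbOfFin hS with ha
  have hm : StrictMono a := a.strictMono
  have him : Finset.univ.image a = S := by
    apply Finset.coe_injective
    rw [Finset.coe_image, Finset.coe_univ, Set.image_univ, ha, Finset.range_orderEmbOfFin]
  have hmem : ∀ i, a i ∈ S := fun i => Finset.orderEmbOfFin_mem S hS i
  obtain ⟨w, hw⟩ := exists_normal (fun i => v (a i))
  have hsig : ∀ j ∉ S, 0 < sg (cs v S j) * (w ⬝ᵥ v j) := by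
    intro j hj
    have := G_sign hv hm (x := j) (fun i h => hj (h ▸ hmem i))
    rw [him] at this
    rw [hw]
    exact this
  have hz : ∀ d ∈ S, w ⬝ᵥ v d = 0 := by
    intro d hd
    have : d ∈ Finset.univ.image a := by rw [him]; exact hd
    obtain ⟨i, -, rfl⟩ := Finset.mem_image.1 this
    rw [hw]
    exact G_row _ i
  have hex : ∃ B : Finset (Fin n), S ⊆ B ∧ B.card = 6 := by
    obtain ⟨B, h1, h2⟩ := Finset.exists_superset_card_eq (s := S) (n := 6) (by omega)
      (by rw [Fintype.card_fin]; exact hn)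
    exact ⟨B, h1, h2⟩
  obtain ⟨B, hSB, hB⟩ := hex
  refine exists_perturb hv S hSB hB (sg (!ε) • w) ?_ s ?_
  · intro d hd
    rw [smul_dotProduct, hz d hd, smul_zero]
  · intro j hj
    rw [smul_dotProduct, smul_eq_mul, hs j hj]
    have h1 := hsig j hj
    have e : sg (xor (cs v S j) ε) = sg (cs v S j) * sg (!ε) := by
      cases cs v S j <;> cases ε <;> simp [sg]
    have h2 := sg_mul_self (!ε)
    rw [e]
    calc (0 : ℝ) < sg (cs v S j) * (w ⬝ᵥ v j) := h1
      _ = (sg (cs v S j) * (w ⬝ᵥ v j)) * (sg (!ε) * sg (!ε)) := by rw [h2, mul_one]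
      _ = _ := by ring

theorem circuit_sum (v : Fin n → Fin 6 → ℝ) (γ : Fin 7 → Fin n) (y : Fin 6 → ℝ) :
    ∑ j : Fin 7, (-1 : ℝ) ^ (j : ℕ) * (y ⬝ᵥ v (γ j)) * D v (γ ∘ j.succAbove) = 0 := by
  set N : Matrix (Fin 7) (Fin 7) ℝ := Matrix.of fun j => Fin.cons (y ⬝ᵥ v (γ j)) (v (γ j)) with hN
  have h0 : N.det = 0 := by
    rw [← Matrix.exists_mulVec_eq_zero_iff]
    refine ⟨Fin.cons (-1) y, ?_, ?_⟩
    · intro h
      have := congrFun h 0
      simp at this
    · funext j
      rw [Matrix.mulVec, dotProduct, Fin.sum_univ_succ]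
      simp only [hN, Matrix.of_apply, Fin.cons_zero, Fin.cons_succ, Pi.zero_apply]
      rw [dotProduct]
      have : ∑ i : Fin 6, v (γ j) i * y i = ∑ i : Fin 6, y i * v (γ j) i :=
        Finset.sum_congr rfl fun i _ => mul_comm _ _
      rw [this]
      ring
  rw [Matrix.det_succ_column_zero] at h0
  rw [← h0]
  refine Finset.sum_congr rfl fun j _ => ?_
  rfl

theorem vd_pos_of_mono {l : Fin 6 → Fin n} (hl : StrictMono l) : 0 < vd l := by
  rw [vd, Matrix.det_vandermonde]
  refine Finset.prod_pos fun i _ => Finset.prod_pos fun j hj => ?_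
  have : l i < l j := hl (Finset.mem_Ioi.1 hj)
  have : ((l i : ℕ) : ℝ) < ((l j : ℕ) : ℝ) := by exact_mod_cast this
  linarith

/-- The sign of the circuit with support `S` at `x`. -/
noncomputable def ks (v : Fin n → Fin 6 → ℝ) (S : Finset (Fin n)) (x : Fin n) : Bool :=
  xor (chi v (S.erase x)) (ip S x)

theorem ip_mono {γ : Fin 7 → Fin n} (hγ : StrictMono γ) (j : Fin 7) :
    sg (!(ip (Finset.univ.image γ) (γ j))) = (-1 : ℝ) ^ (j : ℕ) := by
  classical
  rw [ip, card_filter_ofFn γ hγ.injective]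
  have h : ∀ i : Fin 7, (if γ j < γ i then 1 else 0) = if j < i then 1 else 0 := by
    intro i
    by_cases h : j < i
    · rw [if_pos h, if_pos (hγ h)]
    · rw [if_neg h, if_neg (fun h' => h (hγ.lt_iff_lt.1 h'))]
  have key : ∀ j : Fin 7, decide (Odd (∑ i : Fin 7, if j < i then 1 else 0)) =
      decide (Odd (j : ℕ)) := by decide
  rw [Finset.sum_congr rfl fun i _ => h i, key]
  by_cases ho : Odd (j : ℕ)
  · rw [decide_eq_true ho, ho.neg_one_pow]
    simp [sg]
  · rw [decide_eq_false ho, (Nat.not_odd_iff_even.1 ho).neg_one_pow]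
    simp [sg]

/-- **Circuits forbid topes.** -/
theorem not_tope_of_circuit (hv : Gen v) {S : Finset (Fin n)} (hS : S.card = 7)
    (ε : Bool) (s : Fin n → Bool) (hs : ∀ j ∈ S, s j = xor (ks v S j) ε) : ¬ Tope v s := by
  classical
  rintro ⟨y, hy⟩
  set a := S.orderEmbOfFin hS with ha
  have hm : StrictMono a := a.strictMono
  have him : Finset.univ.image a = S := by
    apply Finset.coe_injective
    rw [Finset.coe_image, Finset.coe_univ, Set.image_univ, ha, Finset.range_orderEmbOfFin]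
  have hmem : ∀ i, a i ∈ S := fun i => Finset.orderEmbOfFin_mem S hS i
  have hsum := circuit_sum v a y
  have hterm : ∀ j : Fin 7, 0 < sg (!ε) *
      ((-1 : ℝ) ^ (j : ℕ) * (y ⬝ᵥ v (a j)) * D v (a ∘ j.succAbove)) := by
    intro j
    have hl : StrictMono (a ∘ j.succAbove) := hm.comp (Fin.strictMono_succAbove j)
    have h1 := D_sign hv hl.injective
    have h2 := vd_pos_of_mono hl
    have himg : Finset.univ.image (a ∘ j.succAbove) = S.erase (a j) := by
      ext z
      simp only [Finset.mem_image, Finset.mem_univ, true_and, Finset.mem_erase,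
        Function.comp_apply]
      constructor
      · rintro ⟨i, rfl⟩
        exact ⟨fun h => Fin.succAbove_ne j i (hm.injective h), hmem _⟩
      · rintro ⟨hne, hz⟩
        have : z ∈ Finset.univ.image a := by rw [him]; exact hz
        obtain ⟨k, -, rfl⟩ := Finset.mem_image.1 this
        have hk : k ≠ j := fun h => hne (by rw [h])
        obtain ⟨i, rfl⟩ := Fin.exists_succAbove_eq hk
        exact ⟨i, rfl⟩
    rw [himg] at h1
    have h3 : 0 < sg (chi v (S.erase (a j))) * D v (a ∘ j.succAbove) := by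
      have : 0 < (sg (chi v (S.erase (a j))) * D v (a ∘ j.succAbove)) * vd (a ∘ j.succAbove) := by
        calc (0 : ℝ) < _ := h1
          _ = _ := by ring
      exact (pos_iff_pos_of_mul_pos this).2 h2
    have h4 := hy (a j)
    rw [hs (a j) (hmem j)] at h4
    have h5 := ip_mono hm j
    rw [him] at h5
    rw [← h5]
    have e : sg (xor (ks v S (a j)) ε) = sg (chi v (S.erase (a j))) *
        sg (!(ip S (a j))) * sg (!ε) := by
      rw [ks]
      cases chi v (S.erase (a j)) <;> cases ip S (a j) <;> cases ε <;> simp [sg]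
    rw [e] at h4
    have h6 := mul_pos h3 h4
    have h7 := sg_mul_self (chi v (S.erase (a j)))
    calc (0 : ℝ) < _ := h6
      _ = (sg (chi v (S.erase (a j))) * sg (chi v (S.erase (a j)))) * (sg (!ε) *
      (sg (!(ip S (a j))) * (y ⬝ᵥ v (a j)) * D v (a ∘ j.succAbove))) := by ring
      _ = _ := by rw [h7, one_mul]
  have : 0 < ∑ j : Fin 7, sg (!ε) *
      ((-1 : ℝ) ^ (j : ℕ) * (y ⬝ᵥ v (a j)) * D v (a ∘ j.succAbove)) :=
    Finset.sum_pos (fun j _ => hterm j) Finset.univ_nonempty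
  rw [← Finset.mul_sum, hsum, mul_zero] at this
  exact lt_irrefl _ this

/-- Opposite sign vectors. -/
theorem tope_neg {n r : ℕ} {v : Fin n → Fin r → ℝ} {s : Fin n → Bool} (h : Tope v s) :
    Tope v (fun j => !(s j)) := by
  obtain ⟨y, hy⟩ := h
  refine ⟨-y, fun j => ?_⟩
  rw [sg_not, neg_dotProduct]
  have := hy j
  linarith

end Pool.Agent.H77.Z12
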