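import Mathlib
import Pool.Agent.H77.Z12.Cocirc

/-!
Twelve generic vectors of rank six without complete cell: the sign relations in terms of bit
masks below 4096 (MP_1e71f9_co).
-/

set_option autoImplicit false

namespace Pool.Agent.H77.Z12

open Finset Matrix Pool.Agent.H67.Nu

/-- Exclusive or of the first `k` values. -/
def xorr : ℕ → (ℕ → Bool) → Bool
  | 0, _ => false
  | k + 1, f => xor (f k) (xorr k f)

/-- Number of bits below 12. -/
def pc (A : ℕ) : ℕ :=
  (A.testBit 0).toNat + (A.testBit 1).toNat + (A.testBit 2).toNat + (A.testBit 3).toNat +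
  (A.testBit 4).toNat + (A.testBit 5).toNat + (A.testBit 6).toNat + (A.testBit 7).toNat +
  (A.testBit 8).toNat + (A.testBit 9).toNat + (A.testBit 10).toNat + (A.testBit 11).toNat

/-- Parity of the number of bits of `A` above `x`. -/
def ipm (A x : ℕ) : Bool := xorr 12 fun i => A.testBit i && decide (x < i)

/-- The set of a mask. -/
def toSet (A : ℕ) : Finset (Fin 12) := Finset.univ.filter fun i => A.testBit i = true

/-- Sign of the determinant with rows `A, x, y`. -/
def fsm (χ : ℕ → Bool) (A x y : ℕ) : Bool :=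
  xor (χ (A ||| 2 ^ x ||| 2 ^ y)) (xor (ipm A x) (ipm A y))

/-- Sign of the cocircuit vanishing on `A` at `x`. -/
def csm (χ : ℕ → Bool) (A x : ℕ) : Bool := xor (χ (A ||| 2 ^ x)) (ipm A x)

/-- Sign of the circuit with support `A` at `x`. -/
def ksm (χ : ℕ → Bool) (A x : ℕ) : Bool := xor (χ (A ^^^ 2 ^ x)) (ipm A x)

/-- All sign relations used. -/
structure Model (χ T : ℕ → Bool) : Prop where
  gp : ∀ A a b c d : ℕ, pc A = 4 → a < b → b < c → c < d → d < 12 →
    A.testBit a = false → A.testBit b = false → A.testBit c = false → A.testBit d = false →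
    ¬ ((fsm χ A a b == fsm χ A c d) = !(fsm χ A a c == fsm χ A b d) ∧
      (fsm χ A a b == fsm χ A c d) = (fsm χ A a d == fsm χ A b c))
  cc : ∀ A, pc A = 5 → ∀ (ε : Bool) (s : ℕ),
    (∀ j < 12, A.testBit j = false → s.testBit j = xor (csm χ A j) ε) → T s = true
  kc : ∀ A, pc A = 7 → ∀ (ε : Bool) (s : ℕ),
    (∀ j < 12, A.testBit j = true → s.testBit j = xor (ksm χ A j) ε) → T s = false
  anti : ∀ s, T (4095 ^^^ s) = T s
  bad : ∀ s, T s = true → ∃ i < 12, T (s ^^^ 2 ^ i) = false

theorem card_toSet (A : ℕ) : (toSet A).card = pc A := by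
  rw [toSet, Finset.card_filter, pc]
  simp only [Fin.sum_univ_succ, Fin.sum_univ_zero]
  have e : ∀ b : Bool, (if b = true then 1 else 0) = b.toNat := by decide
  simp only [e]
  simp [Nat.add_assoc]

theorem decide_odd_sum (k : ℕ) (f : ℕ → Bool) :
    decide (Odd (∑ i : Fin k, if f i = true then 1 else 0)) = xorr k f := by
  induction k with
  | zero => simp [xorr]
  | succ k ih =>
    rw [Fin.sum_univ_castSucc, xorr, ← ih]
    simp only [Fin.val_castSucc, Fin.val_last]
    generalize (∑ i : Fin k, if f (i : ℕ) = true then 1 else 0) = N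
    rcases Bool.eq_false_or_eq_true (f k) with hf | hf
    · simp only [hf, if_true, Bool.true_xor]
      by_cases ho : Odd N
      · have : ¬ Odd (N + 1) := by
          rw [Nat.not_odd_iff_even]; exact (ho.add_odd odd_one)
        rw [decide_eq_false this, decide_eq_true ho]; rfl
      · have : Odd (N + 1) := (Nat.not_odd_iff_even.1 ho).add_odd odd_one
        rw [decide_eq_true this, decide_eq_false ho]; rfl
    · simp [hf]

theorem ip_toSet (A : ℕ) (x : Fin 12) : ip (toSet A) x = ipm A x := by
  rw [ip, ipm, ← decide_odd_sum, toSet, Finset.filter_filter, Finset.card_filter]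
  congr 3
  funext i
  have h : (A.testBit i = true ∧ x < i) ↔ (A.testBit i && decide ((x : ℕ) < (i : ℕ))) = true := by
    rw [Bool.and_eq_true, decide_eq_true_iff, Fin.lt_def]
  simp only [h]

theorem mem_toSet {A : ℕ} {i : Fin 12} : i ∈ toSet A ↔ A.testBit i = true := by
  simp [toSet]

theorem testBit_or_pow (A x j : ℕ) :
    (A ||| 2 ^ x).testBit j = (A.testBit j || decide (x = j)) := by
  rw [Nat.testBit_or, Nat.testBit_two_pow]

theorem testBit_xor_pow (A x j : ℕ) :
    (A ^^^ 2 ^ x).testBit j = (xor (A.testBit j) (decide (x = j))) := by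
  rw [Nat.testBit_xor, Nat.testBit_two_pow]

theorem toSet_or (A : ℕ) (x : Fin 12) : toSet (A ||| 2 ^ (x : ℕ)) = insert x (toSet A) := by
  ext j
  rw [mem_toSet, Finset.mem_insert, mem_toSet, testBit_or_pow, Bool.or_eq_true,
    decide_eq_true_iff, Fin.ext_iff, or_comm, eq_comm]

theorem toSet_xor (A : ℕ) (x : Fin 12) (hx : A.testBit x = true) :
    toSet (A ^^^ 2 ^ (x : ℕ)) = (toSet A).erase x := by
  ext j
  rw [mem_toSet, Finset.mem_erase, mem_toSet, testBit_xor_pow]
  by_cases h : x = j
  · subst h; simp [hx]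
  · have h' : ¬ (x : ℕ) = (j : ℕ) := fun h' => h (Fin.ext h')
    simp [h', Ne.symm h]

/-- The signs of the configuration on masks. -/
noncomputable def chiN (v : Fin 12 → Fin 6 → ℝ) (A : ℕ) : Bool := chi v (toSet A)

open Classical in
/-- The topes of the configuration as masks. -/
noncomputable def topN (v : Fin 12 → Fin 6 → ℝ) (s : ℕ) : Bool :=
  decide (Tope v fun i => s.testBit i)

open Classical in
theorem topN_true {v : Fin 12 → Fin 6 → ℝ} {s : ℕ} :
    topN v s = true ↔ Tope v fun i => s.testBit i := by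
  unfold topN
  exact decide_eq_true_iff

open Classical in
theorem topN_false {v : Fin 12 → Fin 6 → ℝ} {s : ℕ} :
    topN v s = false ↔ ¬ Tope v fun i => s.testBit i := by
  unfold topN
  exact decide_eq_false_iff_not

theorem fs_toSet (v : Fin 12 → Fin 6 → ℝ) (A : ℕ) (x y : Fin 12) :
    fs v (toSet A) x y = fsm (chiN v) A x y := by
  rw [fs, fsm, chiN, ip_toSet, ip_toSet, toSet_or, toSet_or, Finset.insert_comm]

theorem cs_toSet (v : Fin 12 → Fin 6 → ℝ) (A : ℕ) (x : Fin 12) :
    cs v (toSet A) x = csm (chiN v) A x := by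
  rw [cs, csm, chiN, ip_toSet, toSet_or]

theorem ks_toSet (v : Fin 12 → Fin 6 → ℝ) (A : ℕ) (x : Fin 12) (hx : A.testBit x = true) :
    ks v (toSet A) x = ksm (chiN v) A x := by
  rw [ks, ksm, chiN, ip_toSet, toSet_xor _ _ hx]

theorem exists_model {v : Fin 12 → Fin 6 → ℝ} (hv : Gen v) (hb : ∀ s, ¬ Complete v s) :
    Model (chiN v) (topN v) where
  gp A a b c d hA hab hbc hcd hd ha hb' hc hd' := by
    have hS : (toSet A).card = 4 := by rw [card_toSet, hA]
    have h := gp_sign hv hS (a := ⟨a, by omega⟩) (b := ⟨b, by omega⟩) (c := ⟨c, by omega⟩)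
      (d := ⟨d, hd⟩) (by simpa using hab) (by simpa using hbc) (by simpa using hcd)
      (by rw [mem_toSet]; simp [ha]) (by rw [mem_toSet]; simp [hb'])
      (by rw [mem_toSet]; simp [hc]) (by rw [mem_toSet]; simp [hd'])
    simpa only [fs_toSet] using h
  cc A hA ε s hs := by
    rw [topN_true]
    have hS : (toSet A).card = 5 := by rw [card_toSet, hA]
    refine tope_of_cocircuit hv hS (by norm_num) ε _ fun j hj => ?_
    rw [mem_toSet, Bool.not_eq_true] at hj
    rw [cs_toSet]
    exact hs j j.2 hj
  kc A hA ε s hs := by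
    rw [topN_false]
    have hS : (toSet A).card = 7 := by rw [card_toSet, hA]
    refine not_tope_of_circuit hv hS ε _ fun j hj => ?_
    rw [mem_toSet] at hj
    rw [ks_toSet _ _ _ hj]
    exact hs j j.2 hj
  anti s := by
    have h4095 : ∀ i : Fin 12, (4095 : ℕ).testBit i = true := by decide
    have key : ∀ s : ℕ, Tope v (fun i => s.testBit i) → Tope v (fun i => (4095 ^^^ s).testBit i) := by
      intro s h
      have := tope_neg h
      convert this using 2 with i
      rw [Nat.testBit_xor, h4095, Bool.true_xor]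
    rw [Bool.eq_iff_iff, topN_true, topN_true]
    constructor
    · intro h
      have := key _ h
      rwa [← Nat.xor_assoc, Nat.xor_self, Nat.zero_xor] at this
    · exact key s
  bad s hs := by
    rw [topN_true] at hs
    by_contra hcon
    push Not at hcon
    refine hb _ ⟨hs, fun j => ?_⟩
    have := hcon j j.2
    rw [Bool.ne_false_iff, topN_true] at this
    convert this using 2 with i
    rw [testBit_xor_pow]
    by_cases h : i = j
    · subst h; simp
    · have h' : ¬ (j : ℕ) = (i : ℕ) := fun h' => h (Fin.ext h'.symm)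
      simp [Function.update_of_ne h, h']

end Pool.Agent.H77.Z12
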