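import Mathlib
import Pool.Agent.H77.Z12.Model

/-!
Simplicial cells with a prescribed facet and a prescribed non-facet (MP_1e71f9_co).
-/

set_option autoImplicit false

namespace Pool.Agent.H77.Z12

open Finset Matrix Pool.Agent.H67.Nu

section pair

variable {n r : ℕ} {v : Fin n → Fin r → ℝ}

/-- `s` is (the sign vector of) a simplicial cell with the set of facets `B`. -/
def Sim (v : Fin n → Fin r → ℝ) (B : Finset (Fin n)) (s : Fin n → Bool) : Prop :=
  ∃ Q : Fin n → Fin r → ℝ, (∀ b ∈ B, ∀ b' ∈ B, b' ≠ b → Q b ⬝ᵥ v b' = 0) ∧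
    (∀ b ∈ B, 0 < sg (s b) * (Q b ⬝ᵥ v b)) ∧
    ∀ k ∉ B, ∀ b ∈ B, 0 < sg (s k) * (Q b ⬝ᵥ v k)

/-- **Simplicial cells with a prescribed facet `n0` and a prescribed non-facet `e`**: the product
of the two signs can be prescribed as soon as it occurs at some vertex outside both. -/
theorem exists_sim_sign (h : Gen v) (hr : 2 ≤ r) {n0 e : Fin n} (hne : n0 ≠ e)
    (σ : Bool) {D1 : Finset (Fin n)} (hD1 : D1.card + 1 = r) (hD1n : n0 ∉ D1) (hD1e : e ∉ D1)
    {q1 : Fin r → ℝ} (hq1 : ∀ d ∈ D1, q1 ⬝ᵥ v d = 0)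
    (hq1s : 0 < sg σ * ((q1 ⬝ᵥ v n0) * (q1 ⬝ᵥ v e))) :
    ∃ (B : Finset (Fin n)) (s : Fin n → Bool), B.card = r ∧ n0 ∈ B ∧ e ∉ B ∧ Sim v B s ∧
      (s n0 == s e) = σ := by
  classical
  -- normals
  have hex : ∀ D : Finset (Fin n), ∃ p : Fin r → ℝ, D.card + 1 = r →
      (∀ d ∈ D, p ⬝ᵥ v d = 0) ∧ ∀ j ∉ D, p ⬝ᵥ v j ≠ 0 := by
    intro D
    by_cases hD : D.card + 1 = r
    · obtain ⟨p, hp⟩ := h.normal (by omega) hD
      exact ⟨p, fun _ => hp⟩
    · exact ⟨0, fun h => absurd h hD⟩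
  choose p0 hp0 using hex
  set g := v e with hgdef
  have hg : ∀ D : Finset (Fin n), e ∉ D → D.card + 1 = r → p0 D ⬝ᵥ g ≠ 0 := fun D he hD =>
    (hp0 D hD).2 e he
  -- normalised normals
  obtain ⟨P, hP⟩ : ∃ P : Finset (Fin n) → Fin r → ℝ, ∀ D, e ∉ D → D.card + 1 = r →
      (∀ d ∈ D, P D ⬝ᵥ v d = 0) ∧ (∀ j ∉ D, P D ⬝ᵥ v j ≠ 0) ∧ P D ⬝ᵥ g = 1 := by
    refine ⟨fun D => (p0 D ⬝ᵥ g)⁻¹ • p0 D, fun D he hD => ⟨fun d hd => ?_, fun j hj => ?_, ?_⟩⟩
    · rw [smul_dotProduct, (hp0 D hD).1 d hd, smul_zero]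
    · rw [smul_dotProduct, smul_eq_mul]
      exact mul_ne_zero (inv_ne_zero (hg D he hD)) ((hp0 D hD).2 j hj)
    · rw [smul_dotProduct, smul_eq_mul, inv_mul_cancel₀ (hg D he hD)]
  -- the minimal vertex
  have hD1mem : D1 ∈ ((((univ.erase n0).erase e).powersetCard (r - 1)).filter
      fun D => 0 < sg σ * (P D ⬝ᵥ v n0)) := by
    rw [Finset.mem_filter, Finset.mem_powersetCard]
    refine ⟨⟨fun x hx => ?_, by omega⟩, ?_⟩
    · rw [Finset.mem_erase, Finset.mem_erase]
      exact ⟨fun h0 => hD1e (h0 ▸ hx), fun h0 => hD1n (h0 ▸ hx), Finset.mem_univ _⟩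
    · obtain ⟨a1, a2, a3⟩ := hP D1 hD1e hD1
      have hq1e : q1 ⬝ᵥ g ≠ 0 := by
        intro h0
        rw [hgdef] at h0
        rw [h0, mul_zero, mul_zero] at hq1s
        exact lt_irrefl _ hq1s
      have hq : P D1 = (q1 ⬝ᵥ g)⁻¹ • q1 := by
        refine h.normal_unique hD1 (g := g) a1 ?_ a3 ?_ hD1n
        · intro d hd
          rw [smul_dotProduct, hq1 d hd, smul_zero]
        · rw [smul_dotProduct, smul_eq_mul, inv_mul_cancel₀ hq1e]
      rw [hq, smul_dotProduct, smul_eq_mul]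
      have e1 : sg σ * ((q1 ⬝ᵥ g)⁻¹ * (q1 ⬝ᵥ v n0)) =
          (sg σ * ((q1 ⬝ᵥ v n0) * (q1 ⬝ᵥ v e))) * ((q1 ⬝ᵥ g)⁻¹ * (q1 ⬝ᵥ g)⁻¹) := by
        rw [← hgdef]; field_simp
      rw [e1]
      exact mul_pos hq1s (mul_self_pos.2 (inv_ne_zero hq1e))
  obtain ⟨D0, hD0, hmin⟩ := Finset.exists_min_image
    ((((univ.erase n0).erase e).powersetCard (r - 1)).filter
      fun D => 0 < sg σ * (P D ⬝ᵥ v n0)) (fun D => |P D ⬝ᵥ v n0|) ⟨D1, hD1mem⟩
  rw [Finset.mem_filter, Finset.mem_powersetCard] at hD0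
  obtain ⟨⟨hD0s, hD0c⟩, hD0σ⟩ := hD0
  have hn0 : n0 ∉ D0 := fun h0 => by
    have := hD0s h0
    simp at this
  have he0 : e ∉ D0 := fun h0 => by
    have := hD0s h0
    simp at this
  have hD0r : D0.card + 1 = r := by omega
  have hDi : ∀ i ∈ D0, (insert n0 (D0.erase i)).card + 1 = r := by
    intro i hi
    rw [Finset.card_insert_of_notMem (fun h0 => hn0 (Finset.mem_of_mem_erase h0)),
      Finset.card_erase_of_mem hi]
    have : 0 < D0.card := Finset.card_pos.2 ⟨i, hi⟩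
    omega
  have heDi : ∀ i, e ∉ insert n0 (D0.erase i) := by
    intro i h0
    rcases Finset.mem_insert.1 h0 with h0 | h0
    · exact hne h0.symm
    · exact he0 (Finset.mem_of_mem_erase h0)
  -- the key fact
  have key : ∀ k, k ∉ D0 → k ≠ n0 → ∀ i ∈ D0,
      0 < (P D0 ⬝ᵥ v k) * (P (insert n0 (D0.erase i)) ⬝ᵥ v k) := by
    intro k hk hkn i hi
    have hki : k ∉ insert n0 (D0.erase i) := by
      intro h0
      rcases Finset.mem_insert.1 h0 with h0 | h0
      · exact hkn h0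
      · exact hk (Finset.mem_of_mem_erase h0)
    obtain ⟨a1, a2, a3⟩ := hP D0 he0 hD0r
    obtain ⟨b1, b2, b3⟩ := hP _ (heDi i) (hDi i hi)
    by_cases hke : k = e
    · subst hke
      rw [a3, b3]; norm_num
    have ha := a2 k hk
    have hb := b2 k hki
    by_contra hcon
    have hneg : (P D0 ⬝ᵥ v k) * (P (insert n0 (D0.erase i)) ⬝ᵥ v k) < 0 :=
      lt_of_le_of_ne (not_lt.1 hcon) (mul_ne_zero ha hb)
    set A := P D0 ⬝ᵥ v k with hA
    set C := P (insert n0 (D0.erase i)) ⬝ᵥ v k with hC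
    have hAC : A - C ≠ 0 := by
      intro h0
      have : A = C := sub_eq_zero.1 h0
      rw [this] at hneg
      nlinarith [mul_self_nonneg C]
    obtain ⟨l, hl⟩ : ∃ l : ℝ, l = -C / (A - C) := ⟨_, rfl⟩
    have hl01 : 0 < l ∧ l < 1 := by
      rw [hl]
      rcases lt_or_gt_of_ne ha with h1 | h1
      · have h2 : 0 < C := by nlinarith
        constructor
        · exact div_pos_of_neg_of_neg (by linarith) (by linarith)
        · rw [div_lt_one_of_neg (by linarith)]; linarith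
      · have h2 : C < 0 := by nlinarith
        constructor
        · exact div_pos (by linarith) (by linarith)
        · rw [div_lt_one (by linarith)]; linarith
    obtain ⟨q, hq⟩ : ∃ q : Fin r → ℝ, q = l • P D0 + (1 - l) • P (insert n0 (D0.erase i)) :=
      ⟨_, rfl⟩
    have hqw : ∀ w : Fin r → ℝ, q ⬝ᵥ w = l * (P D0 ⬝ᵥ w) +
        (1 - l) * (P (insert n0 (D0.erase i)) ⬝ᵥ w) := by
      intro w
      rw [hq, add_dotProduct, smul_dotProduct, smul_dotProduct, smul_eq_mul, smul_eq_mul]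
    have hD'c : (insert k (D0.erase i)).card + 1 = r := by
      rw [Finset.card_insert_of_notMem (fun h0 => hk (Finset.mem_of_mem_erase h0)),
        Finset.card_erase_of_mem hi]
      have : 0 < D0.card := Finset.card_pos.2 ⟨i, hi⟩
      omega
    have heD' : e ∉ insert k (D0.erase i) := by
      intro h0
      rcases Finset.mem_insert.1 h0 with h0 | h0
      · exact hke h0.symm
      · exact he0 (Finset.mem_of_mem_erase h0)
    obtain ⟨c1, c2, c3⟩ := hP _ heD' hD'c
    have hqP : q = P (insert k (D0.erase i)) := by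
      refine h.normal_unique hD'c (g := g) ?_ c1 ?_ c3 (j := i) ?_
      · intro d hd
        rw [hqw]
        rcases Finset.mem_insert.1 hd with rfl | hd
        · rw [← hA, ← hC, hl]
          field_simp
          ring
        · rw [a1 d (Finset.mem_of_mem_erase hd), b1 d (Finset.mem_insert_of_mem hd)]
          ring
      · rw [hqw, a3, b3]; ring
      · intro h0
        rcases Finset.mem_insert.1 h0 with h0 | h0
        · exact hk (h0 ▸ hi)
        · exact absurd rfl (Finset.ne_of_mem_erase h0)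
    have hm := hmin (insert k (D0.erase i)) (by
      rw [Finset.mem_filter, Finset.mem_powersetCard]
      refine ⟨⟨fun x hx => ?_, by omega⟩, ?_⟩
      · rcases Finset.mem_insert.1 hx with rfl | hx
        · simp [hkn, hke]
        · exact hD0s (Finset.mem_of_mem_erase hx)
      · rw [← hqP, hqw, b1 n0 (Finset.mem_insert_self _ _), mul_zero, add_zero]
        calc (0 : ℝ) < l * (sg σ * (P D0 ⬝ᵥ v n0)) := mul_pos hl01.1 hD0σ
          _ = _ := by ring)
    rw [← hqP, hqw, b1 n0 (Finset.mem_insert_self _ _), mul_zero, add_zero, abs_mul,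
      abs_of_pos hl01.1] at hm
    have hpos : 0 < |P D0 ⬝ᵥ v n0| := abs_pos.2 (a2 n0 hn0)
    nlinarith [hl01.2]
  have hsgd : ∀ x : ℝ, x ≠ 0 → 0 < sg (decide (0 < x)) * x := by
    intro x hx
    rcases lt_or_gt_of_ne hx with h1 | h1
    · rw [decide_eq_false (not_lt.2 h1.le)]
      simp [sg, h1]
    · rw [decide_eq_true h1]
      simp [sg, h1]
  obtain ⟨Q, hQdef⟩ : ∃ Q : Fin n → Fin r → ℝ,
      Q = fun b => if b = n0 then P D0 else P (insert n0 (D0.erase b)) := ⟨_, rfl⟩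
  have hQ1 : ∀ b ∈ insert n0 D0, ∀ b' ∈ insert n0 D0, b' ≠ b → Q b ⬝ᵥ v b' = 0 := by
    intro b hb b' hb' hne'
    rw [hQdef]
    by_cases hbn : b = n0
    · subst hbn
      simp only [if_true]
      rcases Finset.mem_insert.1 hb' with h0 | h0
      · exact absurd h0 hne'
      · exact (hP D0 he0 hD0r).1 b' h0
    · simp only [hbn, if_false]
      have hbD : b ∈ D0 := (Finset.mem_insert.1 hb).resolve_left hbn
      refine (hP _ (heDi b) (hDi b hbD)).1 b' ?_
      rcases Finset.mem_insert.1 hb' with h0 | h0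
      · rw [h0]; exact Finset.mem_insert_self _ _
      · exact Finset.mem_insert_of_mem (Finset.mem_erase.2 ⟨hne', h0⟩)
  have hQ2 : ∀ b ∈ insert n0 D0, Q b ⬝ᵥ v b ≠ 0 := by
    intro b hb
    rw [hQdef]
    by_cases hbn : b = n0
    · subst hbn
      simp only [if_true]
      exact (hP D0 he0 hD0r).2.1 b hn0
    · simp only [hbn, if_false]
      have hbD : b ∈ D0 := (Finset.mem_insert.1 hb).resolve_left hbn
      refine (hP _ (heDi b) (hDi b hbD)).2.1 b ?_
      intro h0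
      rcases Finset.mem_insert.1 h0 with h0 | h0
      · exact hbn h0
      · exact absurd rfl (Finset.ne_of_mem_erase h0)
  have hval : ∀ k ∉ insert n0 D0, ∀ b ∈ insert n0 D0, 0 < (P D0 ⬝ᵥ v k) * (Q b ⬝ᵥ v k) := by
    intro k hk b hb
    have hkD : k ∉ D0 := fun h0 => hk (Finset.mem_insert_of_mem h0)
    have hkn : k ≠ n0 := fun h0 => hk (by rw [h0]; exact Finset.mem_insert_self _ _)
    rw [hQdef]
    by_cases hbn : b = n0
    · simp only [hbn, if_true]
      exact mul_self_pos.2 ((hP D0 he0 hD0r).2.1 k hkD)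
    · simp only [hbn, if_false]
      exact key k hkD hkn b ((Finset.mem_insert.1 hb).resolve_left hbn)
  refine ⟨insert n0 D0, fun b => if b ∈ insert n0 D0 then decide (0 < Q b ⬝ᵥ v b) else
    decide (0 < P D0 ⬝ᵥ v b), ?_, Finset.mem_insert_self _ _, ?_, ⟨Q, hQ1, ?_, ?_⟩, ?_⟩
  · rw [Finset.card_insert_of_notMem hn0]; omega
  · intro h0
    rcases Finset.mem_insert.1 h0 with h0 | h0
    · exact hne h0.symm
    · exact he0 h0
  · intro b hb
    simp only [if_pos hb]
    exact hsgd _ (hQ2 b hb)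
  · intro k hk b hb
    simp only [if_neg hk]
    have hkD : k ∉ D0 := fun h0 => hk (Finset.mem_insert_of_mem h0)
    have h1 := hval k hk b hb
    have h2 := hsgd _ ((hP D0 he0 hD0r).2.1 k hkD)
    have h3 : 0 < (P D0 ⬝ᵥ v k) * (P D0 ⬝ᵥ v k) :=
      mul_self_pos.2 ((hP D0 he0 hD0r).2.1 k hkD)
    have h4 : 0 < (sg (decide (0 < P D0 ⬝ᵥ v k)) * (Q b ⬝ᵥ v k)) *
        ((P D0 ⬝ᵥ v k) * (P D0 ⬝ᵥ v k)) := by
      calc (0 : ℝ) < _ := mul_pos h1 h2
        _ = _ := by ring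
    exact (pos_iff_pos_of_mul_pos h4).2 h3
  · have heB : e ∉ insert n0 D0 := by
      intro h0
      rcases Finset.mem_insert.1 h0 with h0 | h0
      · exact hne h0.symm
      · exact he0 h0
    have e1 : P D0 ⬝ᵥ v e = 1 := (hP D0 he0 hD0r).2.2
    have e2 : Q n0 = P D0 := by rw [hQdef]; simp
    simp only [if_pos (Finset.mem_insert_self n0 D0), if_neg heB, e1, e2]
    have e3 : decide ((0 : ℝ) < 1) = true := decide_eq_true one_pos
    rw [e3]
    have h1 := hsgd _ ((hP D0 he0 hD0r).2.1 n0 hn0)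
    revert h1 hD0σ
    generalize P D0 ⬝ᵥ v n0 = x
    intro h2 _
    cases σ
    · have : ¬ 0 < x := by
        simp only [sg] at h2
        norm_num at h2
        linarith
      rw [decide_eq_false this]
      rfl
    · have : 0 < x := by
        simp only [sg] at h2
        norm_num at h2
        linarith
      rw [decide_eq_true this]
      rfl

/-- Every pair: a simplicial cell with the facet `n0` and without the facet `e`. -/
theorem exists_sim (h : Gen v) (hr : 2 ≤ r) (hn : r < n) {n0 e : Fin n} (hne : n0 ≠ e) :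
    ∃ (B : Finset (Fin n)) (s : Fin n → Bool), B.card = r ∧ n0 ∈ B ∧ e ∉ B ∧ Sim v B s := by
  classical
  obtain ⟨D1, hD1⟩ : ((univ.erase n0).erase e).powersetCard (r - 1) |>.Nonempty := by
    apply Finset.powersetCard_nonempty.2
    rw [Finset.card_erase_of_mem (by simp [hne.symm]),
      Finset.card_erase_of_mem (Finset.mem_univ _), Finset.card_univ, Fintype.card_fin]
    omega
  rw [Finset.mem_powersetCard] at hD1
  obtain ⟨hs, hc⟩ := hD1
  have hn0 : n0 ∉ D1 := fun h0 => by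
    have := hs h0
    simp at this
  have he0 : e ∉ D1 := fun h0 => by
    have := hs h0
    simp at this
  obtain ⟨q, hq, hq'⟩ := h.normal (by omega) (D := D1) (by omega)
  have hne0 : (q ⬝ᵥ v n0) * (q ⬝ᵥ v e) ≠ 0 := mul_ne_zero (hq' _ hn0) (hq' _ he0)
  obtain ⟨σ, hσ⟩ : ∃ σ : Bool, 0 < sg σ * ((q ⬝ᵥ v n0) * (q ⬝ᵥ v e)) := by
    rcases lt_or_gt_of_ne hne0 with h1 | h1
    · exact ⟨false, by simp [sg, h1]⟩
    · exact ⟨true, by simp [sg, h1]⟩
  obtain ⟨B, s, h1, h2, h3, h4, -⟩ := exists_sim_sign h hr hne σ (D1 := D1) (by omega) hn0 he0 hq hσ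
  exact ⟨B, s, h1, h2, h3, h4⟩

end pair

/-- The relations of a simplicial cell in terms of the signs. -/
theorem sim_sign {n : ℕ} {v : Fin n → Fin 6 → ℝ} (hv : Gen v) {B : Finset (Fin n)}
    (hB : B.card = 6) {s : Fin n → Bool} (hs : Sim v B s) {b k : Fin n} (hb : b ∈ B)
    (hk : k ∉ B) :
    xor (cs v (B.erase b) b) (cs v (B.erase b) k) = xor (s b) (s k) := by
  classical
  obtain ⟨Q, hQ1, hQ2, hQ3⟩ := hs
  have hS : (B.erase b).card = 5 := by rw [Finset.card_erase_of_mem hb, hB]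
  set a := (B.erase b).orderEmbOfFin hS with ha
  have hm : StrictMono a := a.strictMono
  have him : Finset.univ.image a = B.erase b := by
    apply Finset.coe_injective
    rw [Finset.coe_image, Finset.coe_univ, Set.image_univ, ha, Finset.range_orderEmbOfFin]
  have hmem : ∀ i, a i ∈ B.erase b := fun i => Finset.orderEmbOfFin_mem _ hS i
  obtain ⟨w, hw⟩ := exists_normal (fun i => v (a i))
  have hsig : ∀ j ∉ B.erase b, 0 < sg (cs v (B.erase b) j) * (w ⬝ᵥ v j) := by
    intro j hj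
    have := G_sign hv hm (x := j) (fun i h => hj (h ▸ hmem i))
    rw [him] at this
    rw [hw]
    exact this
  have hz : ∀ d ∈ B.erase b, w ⬝ᵥ v d = 0 := by
    intro d hd
    have : d ∈ Finset.univ.image a := by rw [him]; exact hd
    obtain ⟨i, -, rfl⟩ := Finset.mem_image.1 this
    rw [hw]
    exact G_row _ i
  have h1 := hsig b (Finset.notMem_erase _ _)
  have h2 := hsig k (fun h => hk (Finset.mem_of_mem_erase h))
  have h3 := hQ2 b hb
  have h4 := hQ3 k hk b hb
  -- proportionality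
  have hQb : Q b ⬝ᵥ v b ≠ 0 := by
    intro h0
    rw [h0, mul_zero] at h3
    exact lt_irrefl _ h3
  have hprop : w - ((w ⬝ᵥ v b) / (Q b ⬝ᵥ v b)) • Q b = 0 := by
    refine hv.eq_zero hB ?_
    intro d hd
    rw [sub_dotProduct, smul_dotProduct, smul_eq_mul]
    by_cases hdb : d = b
    · subst hdb; field_simp; ring
    · rw [hz d (Finset.mem_erase.2 ⟨hdb, hd⟩), hQ1 b hb d hd hdb]; ring
  set c := (w ⬝ᵥ v b) / (Q b ⬝ᵥ v b) with hc
  have hwk : w ⬝ᵥ v k = c * (Q b ⬝ᵥ v k) := by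
    rw [sub_eq_zero.1 hprop, smul_dotProduct, smul_eq_mul]
  have hwb : w ⬝ᵥ v b = c * (Q b ⬝ᵥ v b) := by
    rw [hc]; field_simp
  rw [hwb] at h1
  rw [hwk] at h2
  have h5 := mul_pos h1 h3
  have h6 := mul_pos h2 h4
  have h7 := mul_pos h5 h6
  have hc2 : 0 ≤ (c * (Q b ⬝ᵥ v b) * (Q b ⬝ᵥ v k)) ^ 2 := sq_nonneg _
  have h8 : 0 < sg (cs v (B.erase b) b) * sg (cs v (B.erase b) k) * sg (s b) * sg (s k) := by
    have e : 0 < (sg (cs v (B.erase b) b) * sg (cs v (B.erase b) k) * sg (s b) * sg (s k)) *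
        (c * (Q b ⬝ᵥ v b) * (Q b ⬝ᵥ v k)) ^ 2 := by
      calc (0 : ℝ) < _ := h7
        _ = _ := by ring
    exact (pos_iff_pos_of_mul_pos e).2 (lt_of_le_of_ne hc2 (fun h0 => by
      rw [← h0, mul_zero] at e; exact lt_irrefl _ e))
  revert h8
  cases cs v (B.erase b) b <;> cases cs v (B.erase b) k <;> cases s b <;> cases s k <;>
    simp [sg]

/-- The relations of a simplicial cell on masks. -/
def Simp (χ : ℕ → Bool) (B s : ℕ) : Prop :=
  ∀ b < 12, B.testBit b = true → ∀ k < 12, B.testBit k = false →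
    xor (csm χ (B ^^^ 2 ^ b) b) (csm χ (B ^^^ 2 ^ b) k) = xor (s.testBit b) (s.testBit k)

theorem simp_of_sim {v : Fin 12 → Fin 6 → ℝ} (hv : Gen v) {B s : ℕ} (hB : pc B = 6)
    (hs : Sim v (toSet B) fun i => s.testBit i) : Simp (chiN v) B s := by
  intro b hb hbB k hk hkB
  have h := sim_sign hv (by rw [card_toSet, hB]) hs (b := ⟨b, hb⟩) (k := ⟨k, hk⟩)
    (by rw [mem_toSet]; exact hbB) (by rw [mem_toSet]; simp [hkB])
  rw [← toSet_xor B ⟨b, hb⟩ hbB, cs_toSet, cs_toSet] at h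
  exact h

end Pool.Agent.H77.Z12
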