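import Mathlib
import Pool.Agent.H77.Z12.Pair

/-!
Relabelling and reorientation of bad configurations; relative position of simplicial cells
(MP_1e71f9_co).
-/

set_option autoImplicit false

namespace Pool.Agent.H77.Z12

open Finset Matrix Pool.Agent.H67.Nu

/-- Twelve generic vectors without complete cell. -/
def Bad (v : Fin 12 → Fin 6 → ℝ) : Prop := Gen v ∧ ∀ s, ¬ Complete v s

section sim

variable {n r : ℕ} {v v' : Fin n → Fin r → ℝ} {A : Matrix (Fin r) (Fin r) ℝ} {π : Fin n ≃ Fin n}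
  {ε : Fin n → Bool}

/-- Transfer of simplicial cells. -/
theorem Sim.transfer (h : ∀ j, sg (ε j) • v (π j) = v' j ᵥ* A)
    {B B' : Finset (Fin n)} {s s' : Fin n → Bool} (hB : ∀ j, j ∈ B' ↔ π j ∈ B)
    (hs' : ∀ j, s' j = (s (π j) == ε j)) (hs : Sim v B s) : Sim v' B' s' := by
  obtain ⟨Q, h1, h2, h3⟩ := hs
  have key : ∀ (b : Fin n) (j : Fin n), (A *ᵥ Q (π b)) ⬝ᵥ v' j =
      sg (ε j) * (Q (π b) ⬝ᵥ v (π j)) := by
    intro b j
    have e1 : sg (ε j) * (Q (π b) ⬝ᵥ v (π j)) = Q (π b) ⬝ᵥ (sg (ε j) • v (π j)) := by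
      rw [dotProduct_smul, smul_eq_mul]
    rw [e1, h j, dotProduct_comm, Matrix.dotProduct_mulVec, dotProduct_comm]
  refine ⟨fun b => A *ᵥ Q (π b), fun b hb b' hb' hne => ?_, fun b hb => ?_, fun k hk b hb => ?_⟩
  · rw [key, h1 (π b) ((hB b).1 hb) (π b') ((hB b').1 hb') (fun h0 => hne (π.injective h0)),
      mul_zero]
  · rw [key, hs', sg_beq]
    have := h2 (π b) ((hB b).1 hb)
    have e := sg_mul_self (ε b)
    calc (0 : ℝ) < sg (s (π b)) * (Q (π b) ⬝ᵥ v (π b)) := this
      _ = (sg (s (π b)) * (Q (π b) ⬝ᵥ v (π b))) * (sg (ε b) * sg (ε b)) := by rw [e, mul_one]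
      _ = _ := by ring
  · rw [key, hs', sg_beq]
    have := h3 (π k) (fun h0 => hk ((hB k).2 h0)) (π b) ((hB b).1 hb)
    have e := sg_mul_self (ε k)
    calc (0 : ℝ) < sg (s (π k)) * (Q (π b) ⬝ᵥ v (π k)) := this
      _ = (sg (s (π k)) * (Q (π b) ⬝ᵥ v (π k))) * (sg (ε k) * sg (ε k)) := by rw [e, mul_one]
      _ = _ := by ring

/-- The opposite of a simplicial cell. -/
theorem Sim.neg {B : Finset (Fin n)} {s : Fin n → Bool} (hs : Sim v B s) :
    Sim v B fun j => !(s j) := by
  obtain ⟨Q, h1, h2, h3⟩ := hs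
  refine ⟨fun b => - Q b, fun b hb b' hb' hne => ?_, fun b hb => ?_, fun k hk b hb => ?_⟩
  · rw [neg_dotProduct, h1 b hb b' hb' hne, neg_zero]
  · rw [neg_dotProduct, sg_not]
    have := h2 b hb
    linarith
  · rw [neg_dotProduct, sg_not]
    have := h3 k hk b hb
    linarith

/-- Simplicial cells are topes. -/
theorem Sim.tope {B : Finset (Fin n)} {s : Fin n → Bool} (hB : B.Nonempty) (hs : Sim v B s) :
    Tope v s := by
  classical
  obtain ⟨Q, h1, h2, h3⟩ := hs
  refine ⟨∑ b ∈ B, Q b, fun j => ?_⟩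
  rw [sum_dotProduct, Finset.mul_sum]
  by_cases hj : j ∈ B
  · rw [Finset.sum_eq_single_of_mem j hj]
    · exact h2 j hj
    · intro b hb hne
      rw [h1 b hb j hj (Ne.symm hne), mul_zero]
  · exact Finset.sum_pos (fun b hb => h3 j hj b hb) hB

end sim

theorem Bad.transfer {v v' : Fin 12 → Fin 6 → ℝ} {A : Matrix (Fin 6) (Fin 6) ℝ}
    {π : Fin 12 ≃ Fin 12} {ε : Fin 12 → Bool} (hA : A.det ≠ 0)
    (h : ∀ j, sg (ε j) • v (π j) = v' j ᵥ* A) (hb : Bad v) : Bad v' :=
  ⟨hb.1.transfer h, fun _ hs => hb.2 _ (hs.transfer hA h)⟩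

/-- The reflection in the first coordinate. -/
def refl (v : Fin 12 → Fin 6 → ℝ) : Fin 12 → Fin 6 → ℝ := fun j i => if i = 0 then - v j i else v j i

theorem D_refl (v : Fin 12 → Fin 6 → ℝ) (l : Fin 6 → Fin 12) : D (refl v) l = - D v l := by
  have h : (Matrix.of fun i => refl v (l i)) =
      Matrix.of fun (i : Fin 6) (j : Fin 6) =>
        (if j = 0 then (-1 : ℝ) else 1) * (Matrix.of fun i => v (l i)) i j := by
    ext i j
    simp only [Matrix.of_apply, refl]
    split_ifs <;> ring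
  rw [D, D, h]
  have := Matrix.det_mul_row (fun j : Fin 6 => (if j = 0 then (-1 : ℝ) else 1))
    (Matrix.of fun i => v (l i))
  rw [this]
  have e : ∏ j : Fin 6, (if j = 0 then (-1 : ℝ) else 1) = -1 := by
    simp
  rw [e]; ring

/-- The matrix of the reflection. -/
def reflM : Matrix (Fin 6) (Fin 6) ℝ := Matrix.diagonal fun i => if i = 0 then -1 else 1

theorem det_reflM : reflM.det ≠ 0 := by
  rw [reflM, Matrix.det_diagonal]
  simp

theorem refl_mul (v : Fin 12 → Fin 6 → ℝ) (j : Fin 12) :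
    sg true • v (Equiv.refl _ j) = refl v j ᵥ* reflM := by
  funext i
  rw [reflM, Matrix.vecMul_diagonal]
  simp only [sg, refl, Equiv.refl_apply, Pi.smul_apply]
  split_ifs <;> simp

theorem chi_refl {v : Fin 12 → Fin 6 → ℝ} (hv : Gen v) {S : Finset (Fin 12)} (hS : S.card = 6) :
    chi (refl v) S = !(chi v S) := by
  classical
  set a := S.orderEmbOfFin hS with ha
  have him : Finset.univ.image a = S := by
    apply Finset.coe_injective
    rw [Finset.coe_image, Finset.coe_univ, Set.image_univ, ha, Finset.range_orderEmbOfFin]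
  have h1 := chi_iff (refl v) (l := a) a.injective
  have h2 := chi_iff_neg hv (l := a) a.injective
  rw [him] at h1 h2
  rw [D_refl] at h1
  cases hc : chi v S
  · have := h2.1 hc
    exact h1.2 (by linarith)
  · have h3 := (chi_iff v (l := a) a.injective).1 (by rw [him]; exact hc)
    rw [Bool.not_true, ← Bool.not_eq_true, h1]
    intro h4
    linarith

/-- **Relabelling.** A family of simplicial cells can be moved by a permutation `π`; the cell
with index `i0` becomes all plus, and the sign of the first determinant can be chosen. -/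
theorem Bad.relabel {v : Fin 12 → Fin 6 → ℝ} (hb : Bad v) {ι : Type} (π : Fin 12 ≃ Fin 12)
    (B B' : ι → Finset (Fin 12)) (s s' : ι → Fin 12 → Bool) (i0 : ι)
    (hB : ∀ i j, j ∈ B' i ↔ π j ∈ B i)
    (hs' : ∀ i j, s' i j = (s i (π j) == s i0 (π j)))
    (hs : ∀ i, Sim v (B i) (s i)) :
    ∃ v' : Fin 12 → Fin 6 → ℝ, Bad v' ∧ chiN v' 63 = true ∧ ∀ i, Sim v' (B' i) (s' i) := by
  obtain ⟨w, hw⟩ : ∃ w : Fin 12 → Fin 6 → ℝ, w = fun j => sg (s i0 (π j)) • v (π j) := ⟨_, rfl⟩
  have h1 : ∀ j, sg (s i0 (π j)) • v (π j) = w j ᵥ* (1 : Matrix (Fin 6) (Fin 6) ℝ) := by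
    intro j
    rw [Matrix.vecMul_one, hw]
  have hd1 : (1 : Matrix (Fin 6) (Fin 6) ℝ).det ≠ 0 := by rw [Matrix.det_one]; norm_num
  have hw1 : Bad w := hb.transfer (ε := fun j => s i0 (π j)) hd1 h1
  have hw2 : ∀ i, Sim w (B' i) (s' i) := fun i =>
    (hs i).transfer (ε := fun j => s i0 (π j)) h1 (hB i) (hs' i)
  by_cases hc : chiN w 63 = true
  · exact ⟨w, hw1, hc, hw2⟩
  · have h2 := refl_mul w
    refine ⟨refl w, hw1.transfer (ε := fun _ => true) det_reflM h2, ?_, fun i =>
      (hw2 i).transfer (ε := fun _ => true) h2 (fun j => Iff.rfl) (fun j => ?_)⟩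
    · rw [chiN, chi_refl hw1.1 (by rw [card_toSet]; rfl)]
      rw [Bool.not_eq_true] at hc
      rw [chiN] at hc
      rw [hc]; rfl
    · simp

/-- Two labellings with the same numbers of labels differ by a permutation. -/
theorem exists_perm_of_card {n : ℕ} {α : Type} [DecidableEq α] (f g : Fin n → α)
    (h : ∀ a, (univ.filter fun j => f j = a).card = (univ.filter fun j => g j = a).card) :
    ∃ π : Fin n ≃ Fin n, ∀ j, f (π j) = g j := by
  classical
  have e : ∀ a, Nonempty ({j // g j = a} ≃ {j // f j = a}) := by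
    intro a
    rw [← Fintype.card_eq, Fintype.card_subtype, Fintype.card_subtype, h a]
  have φ : ∀ a, Nonempty ({j // g j = a} ≃ {j // f j = a}) := e
  let Φ : (Σ a, {j // g j = a}) ≃ (Σ a, {j // f j = a}) := Equiv.sigmaCongrRight fun a => (φ a).some
  refine ⟨(Equiv.sigmaFiberEquiv g).symm.trans (Φ.trans (Equiv.sigmaFiberEquiv f)), fun j => ?_⟩
  have h1 : (Equiv.sigmaFiberEquiv g).symm j = ⟨g j, ⟨j, rfl⟩⟩ := rfl
  rw [Equiv.trans_apply, Equiv.trans_apply, h1]
  have h2 : Φ ⟨g j, ⟨j, rfl⟩⟩ = ⟨g j, (φ (g j)).some ⟨j, rfl⟩⟩ := rfl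
  rw [h2]
  exact ((φ (g j)).some ⟨j, rfl⟩).2

/-- Relative position of two cells `(B1, s1)`, `(B2, s2)`: the label of an element. -/
def lab (B1 B2 : Finset (Fin 12)) (s1 s2 : Fin 12 → Bool) (j : Fin 12) : Bool × Bool × Bool :=
  (decide (j ∈ B1), decide (j ∈ B2), s2 j == s1 j)

/-- A pair of simplicial cells of a bad configuration, in canonical position: facets of the first
cell `0, .., 5`, all signs of the first cell plus. -/
theorem Bad.pair {v : Fin 12 → Fin 6 → ℝ} (hb : Bad v) {B1 B2 : Finset (Fin 12)}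
    {s1 s2 : Fin 12 → Bool} (h1 : Sim v B1 s1) (h2 : Sim v B2 s2) (C t : ℕ)
    (hcard : ∀ a, (univ.filter fun j => lab B1 B2 s1 s2 j = a).card =
      (univ.filter fun j => lab (toSet 63) (toSet C) (fun _ => true) (fun j => t.testBit j) j = a).card) :
    ∃ v' : Fin 12 → Fin 6 → ℝ, Bad v' ∧ chiN v' 63 = true ∧
      Sim v' (toSet 63) (fun _ => true) ∧ Sim v' (toSet C) (fun j => t.testBit j) := by
  obtain ⟨π, hπ⟩ := exists_perm_of_card _ _ hcard
  have ha : ∀ j, (j ∈ toSet 63 ↔ π j ∈ B1) := by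
    intro j
    have := congrArg Prod.fst (hπ j)
    simp only [lab] at this
    exact (decide_eq_decide.1 this).symm
  have hb' : ∀ j, (j ∈ toSet C ↔ π j ∈ B2) := by
    intro j
    have := congrArg (fun x => x.2.1) (hπ j)
    simp only [lab] at this
    exact (decide_eq_decide.1 this).symm
  have hc : ∀ j : Fin 12, t.testBit j = (s2 (π j) == s1 (π j)) := by
    intro j
    have := congrArg (fun x => x.2.2) (hπ j)
    simp only [lab] at this
    rw [this]
    cases t.testBit j <;> rfl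
  obtain ⟨v', hv', hchi, hsim⟩ := hb.relabel (ι := Bool) π
    (fun i => if i then B1 else B2) (fun i => if i then toSet 63 else toSet C)
    (fun i => if i then s1 else s2) (fun i => if i then fun _ => true else fun j => t.testBit j)
    true (by
      intro i j
      cases i
      · exact hb' j
      · exact ha j) (by
      intro i j
      cases i
      · exact hc j
      · simp) (by
      intro i
      cases i
      · exact h2
      · exact h1)
  exact ⟨v', hv', hchi, hsim true, hsim false⟩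

end Pool.Agent.H77.Z12
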