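import Mathlib
import Pool.Agent.H77.Z12.Frame

/-!
Normal form of a bad configuration: chart `(I | M)`, `M > 0`, and a pair of rows and a pair of
columns with the largest cross ratio; all other rows and columns sorted (MP_1e71f9_co).
-/

set_option autoImplicit false

namespace Pool.Agent.H77.Z12

open Finset Matrix Pool.Agent.H67.Nu

/-- The configuration of the chart, indexed by `Fin 12`. -/
def cf (M : Fin 6 → Fin 6 → ℝ) : Fin 12 → Fin 6 → ℝ := cfg (r := 6) (m := 6) M

/-- Row elements. -/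
def ra (a : Fin 6) : Fin 12 := Fin.castAdd 6 a

/-- Column elements. -/
def cb (b : Fin 6) : Fin 12 := Fin.natAdd 6 b

theorem cf_ra (M : Fin 6 → Fin 6 → ℝ) (a : Fin 6) : cf M (ra a) = Pi.single a 1 := by
  rw [cf, cfg, ra]
  exact Fin.addCases_left _

theorem cf_cb (M : Fin 6 → Fin 6 → ℝ) (b : Fin 6) : cf M (cb b) = fun i => M i b := by
  rw [cf, cfg, cb]
  exact Fin.addCases_right _

theorem ra_inj {a a' : Fin 6} (h : ra a = ra a') : a = a' := by
  have := congrArg Fin.val h
  simp only [ra, Fin.val_castAdd] at this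
  exact Fin.ext this

theorem ra_lt (a : Fin 6) : (ra a : ℕ) = a := rfl

theorem cb_val (b : Fin 6) : (cb b : ℕ) = 6 + b := rfl

/-- Expansion of `F` in its first argument. -/
theorem F_sum_left (a : Fin 4 → Fin 6 → ℝ) (x y : Fin 6 → ℝ) :
    F a x y = ∑ i : Fin 6, x i * F a (Pi.single i 1) y := by
  let L : (Fin 6 → ℝ) →ₗ[ℝ] ℝ :=
    { toFun := fun x => F a x y
      map_add' := fun x x' => by simp only [F_add_left]
      map_smul' := fun c x => by simp only [F_smul_left, RingHom.id_apply, smul_eq_mul] }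
  have h : L x = ∑ i : Fin 6, x i • L (fun j => if i = j then 1 else 0) :=
    LinearMap.pi_apply_eq_sum_univ L x
  have h' : F a x y = ∑ i : Fin 6, x i • F a (fun j => if i = j then 1 else 0) y := h
  rw [h']
  refine Finset.sum_congr rfl fun i _ => ?_
  rw [smul_eq_mul]
  congr 2
  funext j
  by_cases hij : i = j
  · subst hij; simp
  · simp [hij, Ne.symm hij]

/-- `F` with the other four unit rows is a two by two determinant. -/
theorem F_two {a : Fin 4 → Fin 6 → ℝ} {p q : Fin 6} (hpq : p ≠ q)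
    (h : ∀ i, i ≠ p → i ≠ q → ∃ k, a k = Pi.single i 1) (x y : Fin 6 → ℝ) :
    F a x y = (x p * y q - x q * y p) * F a (Pi.single p 1) (Pi.single q 1) := by
  have h0 : ∀ z, ∀ i, i ≠ p → i ≠ q → F a (Pi.single i 1) z = 0 := by
    intro z i hp hq
    obtain ⟨k, hk⟩ := h i hp hq
    rw [← hk, F_row_left]
  have h1 : ∀ x z, F a x z = x p * F a (Pi.single p 1) z + x q * F a (Pi.single q 1) z := by
    intro x z
    rw [F_sum_left]
    exact Finset.sum_eq_add p q hpq (fun i _ hi => by rw [h0 z i hi.1 hi.2, mul_zero])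
      (fun hn => absurd (Finset.mem_univ _) hn) (fun hn => absurd (Finset.mem_univ _) hn)
  have h2 : F a (Pi.single p 1) y = y q * F a (Pi.single p 1) (Pi.single q 1) := by
    rw [F_swap, h1 y, F_self, F_swap a (Pi.single p 1) (Pi.single q 1)]
    ring
  have h3 : F a (Pi.single q 1) y = - (y p * F a (Pi.single p 1) (Pi.single q 1)) := by
    rw [F_swap, h1 y, F_self]
    ring
  rw [h1, h2, h3]
  ring

/-- The mask of the rows other than `a, a'`. -/
def rm (a a' : ℕ) : ℕ := (63 ^^^ 2 ^ a) ^^^ 2 ^ a'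

theorem rm_facts : ∀ a a' : Fin 6, a ≠ a' → pc (rm a a') = 4 ∧ (rm a a').testBit a = false ∧
    (rm a a').testBit a' = false ∧
    (∀ i : Fin 6, i ≠ a → i ≠ a' → (rm a a').testBit i = true) ∧
    (∀ b : Fin 6, (rm a a').testBit (6 + b) = false) := by decide +kernel

theorem minor_sign {M : Fin 6 → Fin 6 → ℝ} (hv : Gen (cf M)) {a a' b b' : Fin 6} (ha : a < a')
    (hb : b < b') :
    (M a b * M a' b' - M a' b * M a b' ≠ 0) ∧
    (0 < M a b * M a' b' - M a' b * M a b' →
      fsm (chiN (cf M)) (rm a a') (6 + b) (6 + b') = fsm (chiN (cf M)) (rm a a') a a') ∧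
    (M a b * M a' b' - M a' b * M a b' < 0 →
      fsm (chiN (cf M)) (rm a a') (6 + b) (6 + b') = !(fsm (chiN (cf M)) (rm a a') a a')) := by
  classical
  obtain ⟨f1, f2, f3, f4, f5⟩ := rm_facts a a' ha.ne
  set S := toSet (rm a a') with hSdef
  have hS : S.card = 4 := by rw [hSdef, card_toSet, f1]
  set e := S.orderEmbOfFin hS with he
  have hm : StrictMono e := e.strictMono
  have him : Finset.univ.image e = S := by
    apply Finset.coe_injective
    rw [Finset.coe_image, Finset.coe_univ, Set.image_univ, he, Finset.range_orderEmbOfFin]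
  have hmem : ∀ i, e i ∈ S := fun i => Finset.orderEmbOfFin_mem S hS i
  have hn1 : ra a ∉ S := by rw [hSdef, mem_toSet, ra_lt, f2]; decide
  have hn2 : ra a' ∉ S := by rw [hSdef, mem_toSet, ra_lt, f3]; decide
  have hn3 : ∀ b : Fin 6, cb b ∉ S := fun b => by rw [hSdef, mem_toSet, cb_val, f5]; decide
  have hlt1 : ra a < ra a' := by rw [Fin.lt_def, ra_lt, ra_lt]; exact ha
  have hlt2 : cb b < cb b' := by
    rw [Fin.lt_def, cb_val, cb_val]
    have : (b : ℕ) < b' := hb
    omega
  have F1 := F_sign hv hm (x := ra a) (y := ra a') (fun i h => hn1 (h ▸ hmem i))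
    (fun i h => hn2 (h ▸ hmem i)) hlt1
  have F2 := F_sign hv hm (x := cb b) (y := cb b') (fun i h => hn3 b (h ▸ hmem i))
    (fun i h => hn3 b' (h ▸ hmem i)) hlt2
  rw [him] at F1 F2
  have hrow : ∀ i, i ≠ a → i ≠ a' → ∃ k, (fun i => cf M (e i)) k = Pi.single i 1 := by
    intro i hi hi'
    have h1 : ra i ∈ S := by rw [hSdef, mem_toSet, ra_lt, f4 i hi hi']
    rw [← him] at h1
    obtain ⟨k, -, hk⟩ := Finset.mem_image.1 h1
    exact ⟨k, by simp only [hk, cf_ra]⟩
  rw [cf_ra, cf_ra] at F1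
  rw [cf_cb, cf_cb, F_two ha.ne hrow] at F2
  have e1 : fs (cf M) S (ra a) (ra a') = fsm (chiN (cf M)) (rm a a') a a' := fs_toSet _ _ _ _
  have e2 : fs (cf M) S (cb b) (cb b') = fsm (chiN (cf M)) (rm a a') (6 + b) (6 + b') :=
    fs_toSet _ _ _ _
  rw [e1] at F1
  rw [e2] at F2
  set X := F (fun i => cf M (e i)) (Pi.single a 1) (Pi.single a' 1)
  set m := M a b * M a' b' - M a' b * M a b' with hmdef
  set c := fsm (chiN (cf M)) (rm a a') a a'
  set d := fsm (chiN (cf M)) (rm a a') (6 + b) (6 + b')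
  have h3 := mul_pos F1 F2
  have hX : X ≠ 0 := by
    intro h0
    rw [h0, mul_zero] at F1
    exact lt_irrefl _ F1
  have h4 : 0 < sg c * sg d * m := by
    have : 0 < (sg c * sg d * m) * (X * X) := by
      calc (0 : ℝ) < _ := h3
        _ = _ := by ring
    exact (pos_iff_pos_of_mul_pos this).2 (mul_self_pos.2 hX)
  refine ⟨fun h0 => ?_, fun hpos => ?_, fun hneg => ?_⟩
  · rw [h0, mul_zero] at h4
    exact lt_irrefl _ h4
  · have h5 : 0 < sg c * sg d := (pos_iff_pos_of_mul_pos h4).2 hpos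
    revert h5
    cases c <;> cases d <;> simp [sg]
  · have h5 : ¬ 0 < sg c * sg d := fun h =>
      absurd h4 (not_lt.2 (mul_neg_of_pos_of_neg h hneg).le)
    revert h5
    cases c <;> cases d <;> simp [sg]

/-- Permuting rows and columns. -/
theorem bad_perm {M : Fin 6 → Fin 6 → ℝ} (h : Bad (cf M)) (ρ γ : Fin 6 ≃ Fin 6) :
    Bad (cf fun a b => M (ρ a) (γ b)) := by
  let π : Fin 12 ≃ Fin 12 :=
    (finSumFinEquiv (m := 6) (n := 6)).symm.trans ((Equiv.sumCongr ρ γ).trans finSumFinEquiv)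
  have hl : ∀ a, π (ra a) = ra (ρ a) := fun a => by
    show finSumFinEquiv ((Equiv.sumCongr ρ γ) (finSumFinEquiv.symm (Fin.castAdd 6 a))) = _
    rw [finSumFinEquiv_symm_apply_castAdd]
    rfl
  have hr : ∀ b, π (cb b) = cb (γ b) := fun b => by
    show finSumFinEquiv ((Equiv.sumCongr ρ γ) (finSumFinEquiv.symm (Fin.natAdd 6 b))) = _
    rw [finSumFinEquiv_symm_apply_natAdd]
    rfl
  let A : Matrix (Fin 6) (Fin 6) ℝ := (Equiv.toPEquiv ρ).toMatrix
  have hA : A.det ≠ 0 := by
    have : A.det = ((Equiv.Perm.sign ρ : ℤ) : ℝ) := Matrix.det_permutation ρ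
    rw [this]
    rcases Int.units_eq_one_or (Equiv.Perm.sign ρ) with h | h <;> rw [h] <;> norm_num
  refine h.transfer (π := π) (ε := fun _ => true) hA fun j => ?_
  have hone : sg true = 1 := by simp [sg]
  rw [hone, one_smul]
  refine Fin.addCases (m := 6) (n := 6) (fun a => ?_) (fun b => ?_) j
  · have e1 : cf M (π (ra a)) = Pi.single (ρ a) 1 := by rw [hl, cf_ra]
    have e2 : (cf fun a b => M (ρ a) (γ b)) (ra a) = Pi.single a 1 := cf_ra _ _
    show cf M (π (ra a)) = (cf fun a b => M (ρ a) (γ b)) (ra a) ᵥ* A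
    rw [e1, e2, Matrix.single_one_vecMul]
    funext i
    simp only [A, PEquiv.toMatrix_apply, Matrix.row, Equiv.toPEquiv_apply, Option.mem_def,
      Option.some.injEq, Pi.single_apply, eq_comm]
  · have e1 : cf M (π (cb b)) = fun i => M i (γ b) := by rw [hr, cf_cb]
    have e2 : (cf fun a b => M (ρ a) (γ b)) (cb b) = fun i => M (ρ i) (γ b) := cf_cb _ _
    show cf M (π (cb b)) = (cf fun a b => M (ρ a) (γ b)) (cb b) ᵥ* A
    rw [e1, e2]
    funext i
    rw [Matrix.vecMul, dotProduct]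
    simp only [A, PEquiv.toMatrix_apply, Equiv.toPEquiv_apply, Option.mem_def,
      Option.some.injEq, mul_ite, mul_one, mul_zero]
    rw [Finset.sum_eq_single (ρ.symm i)]
    · simp
    · intro c _ hc
      rw [if_neg]
      intro h0
      exact hc (by rw [← h0, ρ.symm_apply_apply])
    · intro h0
      exact absurd (Finset.mem_univ _) h0

end Pool.Agent.H77.Z12
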