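import Mathlib
import Pool.Agent.H77.Z12.Sym

/-!
Normal form: the largest cross ratio (MP_1e71f9_co).
-/

set_option autoImplicit false

namespace Pool.Agent.H77.Z12

open Finset Matrix Pool.Agent.H67.Nu

theorem chi_cf (M : Fin 6 → Fin 6 → ℝ) : chiN (cf M) 63 = true := by
  have hl : StrictMono ra := by
    intro a b h
    rw [Fin.lt_def, ra_lt, ra_lt]
    exact h
  have him : Finset.univ.image ra = toSet 63 := by decide
  rw [chiN, ← him, chi_iff _ hl.injective]
  have h1 : D (cf M) ra = 1 := by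
    rw [D]
    have : (Matrix.of fun i => cf M (ra i)) = (1 : Matrix (Fin 6) (Fin 6) ℝ) := by
      ext i j
      rw [Matrix.of_apply, cf_ra, Matrix.one_apply, Pi.single_apply]
      simp only [eq_comm]
    rw [this, Matrix.det_one]
  rw [h1, one_mul]
  exact vd_pos_of_mono hl

theorem sim_cf {M : Fin 6 → Fin 6 → ℝ} (hM : ∀ i c, 0 < M i c) :
    Sim (cf M) (toSet 63) fun i => (4095 : ℕ).testBit i := by
  have hall : ∀ i : Fin 12, (4095 : ℕ).testBit i = true := by decide
  have hsg : sg true = 1 := by simp [sg]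
  have hin : ∀ j : Fin 12, j ∈ toSet 63 → ∃ a : Fin 6, j = ra a := by decide
  have hout : ∀ j : Fin 12, j ∉ toSet 63 → ∃ b : Fin 6, j = cb b := by decide
  refine ⟨fun b => if h : (b : ℕ) < 6 then Pi.single ⟨b, h⟩ 1 else 0, ?_, ?_, ?_⟩
  · intro b hb b' hb' hne
    obtain ⟨a, rfl⟩ := hin b hb
    obtain ⟨a', rfl⟩ := hin b' hb'
    have ha : (ra a : ℕ) < 6 := a.2
    simp only [dif_pos ha]
    rw [cf_ra, single_dotProduct, one_mul, Pi.single_apply, if_neg]
    intro h0
    apply hne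
    rw [← h0]
    rfl
  · intro b hb
    obtain ⟨a, rfl⟩ := hin b hb
    have ha : (ra a : ℕ) < 6 := a.2
    simp only [dif_pos ha, hall, hsg, one_mul]
    have e : (⟨(ra a : ℕ), ha⟩ : Fin 6) = a := Fin.ext rfl
    rw [cf_ra, single_dotProduct, one_mul, Pi.single_apply, if_pos e]
    exact one_pos
  · intro k hk b hb
    obtain ⟨a, rfl⟩ := hin b hb
    obtain ⟨c, rfl⟩ := hout k hk
    have ha : (ra a : ℕ) < 6 := a.2
    simp only [dif_pos ha, hall, hsg, one_mul]
    rw [cf_cb, single_dotProduct, one_mul]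
    exact hM _ _

/-- The cross ratio inequality as an inequality of products. -/
theorem exists_max_ratio {M : Fin 6 → Fin 6 → ℝ} (hM : ∀ i c, 0 < M i c)
    (hnd : ∀ a a' b b' : Fin 6, a ≠ a' → b ≠ b' → M a b * M a' b' - M a' b * M a b' ≠ 0) :
    ∃ i i' j j' : Fin 6, i ≠ i' ∧ j ≠ j' ∧
      (∀ c, M i c * M i' j ≤ M i j * M i' c) ∧ (∀ c, M i j' * M i' c ≤ M i c * M i' j') ∧
      (∀ r, M r j * M i j' ≤ M i j * M r j') ∧ (∀ r, M i' j * M r j' ≤ M r j * M i' j') := by
  classical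
  let R : Fin 6 × Fin 6 × Fin 6 × Fin 6 → ℝ := fun p =>
    M p.1 p.2.2.1 * M p.2.1 p.2.2.2 / (M p.1 p.2.2.2 * M p.2.1 p.2.2.1)
  obtain ⟨⟨i, i', j, j'⟩, hmax⟩ := Finite.exists_max R
  have hR : ∀ a a' b b', M a b * M a' b' * (M i j' * M i' j) ≤
      M i j * M i' j' * (M a b' * M a' b) := by
    intro a a' b b'
    have h := hmax (a, a', b, b')
    simp only [R] at h
    rw [div_le_div_iff₀ (mul_pos (hM _ _) (hM _ _)) (mul_pos (hM _ _) (hM _ _))] at h
    exact h
  have hgt : M i j' * M i' j < M i j * M i' j' := by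
    have h1 := hnd 0 1 0 1 (by decide) (by decide)
    rcases lt_or_gt_of_ne h1 with h2 | h2
    · have h3 := hR 1 0 0 1
      have p1 := hM 0 0; have p2 := hM 1 1; have p3 := hM 1 0; have p4 := hM 0 1
      have h4 : M 0 0 * M 1 1 < M 1 0 * M 0 1 := by linarith
      by_contra hcon
      have h5 := not_lt.1 hcon
      have q1 := hM i j'; have q2 := hM i' j; have q3 := hM i j; have q4 := hM i' j'
      have h6 : M i j * M i' j' * (M 1 1 * M 0 0) ≤ M i j' * M i' j * (M 1 1 * M 0 0) :=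
        mul_le_mul_of_nonneg_right h5 (mul_pos p2 p1).le
      have h7 : M i j' * M i' j * (M 1 1 * M 0 0) < M i j' * M i' j * (M 1 0 * M 0 1) :=
        mul_lt_mul_of_pos_left (by linarith) (mul_pos q1 q2)
      linarith
    · have h3 := hR 0 1 0 1
      have p1 := hM 0 0; have p2 := hM 1 1; have p3 := hM 1 0; have p4 := hM 0 1
      have h4 : M 1 0 * M 0 1 < M 0 0 * M 1 1 := by linarith
      by_contra hcon
      have h5 := not_lt.1 hcon
      have q1 := hM i j'; have q2 := hM i' j; have q3 := hM i j; have q4 := hM i' j'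
      have h6 : M i j * M i' j' * (M 0 1 * M 1 0) ≤ M i j' * M i' j * (M 0 1 * M 1 0) :=
        mul_le_mul_of_nonneg_right h5 (mul_pos p4 p3).le
      have h7 : M i j' * M i' j * (M 0 1 * M 1 0) < M i j' * M i' j * (M 0 0 * M 1 1) :=
        mul_lt_mul_of_pos_left (by linarith) (mul_pos q1 q2)
      linarith
  refine ⟨i, i', j, j', ?_, ?_, ?_, ?_, ?_, ?_⟩
  · rintro rfl
    rw [mul_comm] at hgt
    exact lt_irrefl _ hgt
  · rintro rfl
    exact lt_irrefl _ hgt
  · intro c
    have h := hR i i' c j'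
    have q := mul_pos (hM i j') (hM i' j')
    have : (M i c * M i' j) * (M i j' * M i' j') ≤ (M i j * M i' c) * (M i j' * M i' j') := by
      linarith
    exact le_of_mul_le_mul_right this q
  · intro c
    have h := hR i i' j c
    have q := mul_pos (hM i j) (hM i' j)
    have : (M i j' * M i' c) * (M i j * M i' j) ≤ (M i c * M i' j') * (M i j * M i' j) := by
      linarith
    exact le_of_mul_le_mul_right this q
  · intro r
    have h := hR r i' j j'
    have q := mul_pos (hM i' j) (hM i' j')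
    have : (M r j * M i j') * (M i' j * M i' j') ≤ (M i j * M r j') * (M i' j * M i' j') := by
      linarith
    exact le_of_mul_le_mul_right this q
  · intro r
    have h := hR i r j j'
    have q := mul_pos (hM i j) (hM i j')
    have : (M i' j * M r j') * (M i j * M i j') ≤ (M r j * M i' j') * (M i j * M i j') := by
      linarith
    exact le_of_mul_le_mul_right this q

/-- Sorting by a ratio. -/
theorem exists_sort (f g : Fin 6 → ℝ) (hg : ∀ x, 0 < g x)
    (hne : ∀ x y, x ≠ y → f x * g y - f y * g x ≠ 0) {p q : Fin 6}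
    (hp : ∀ x, f x * g p ≤ f p * g x) (hq : ∀ x, f q * g x ≤ f x * g q) :
    ∃ σ : Fin 6 ≃ Fin 6, σ 0 = p ∧ σ 5 = q ∧
      ∀ a b, a < b → f (σ b) * g (σ a) < f (σ a) * g (σ b) := by
  classical
  let h : Fin 6 → ℝ := fun x => -(f x / g x)
  let σ := Tuple.sort h
  have hmono : Monotone (h ∘ σ) := Tuple.monotone_sort h
  have hle : ∀ a b, a ≤ b → f (σ b) * g (σ a) ≤ f (σ a) * g (σ b) := by
    intro a b hab
    have h1 := hmono hab
    simp only [h, Function.comp_apply, neg_le_neg_iff] at h1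
    rwa [div_le_div_iff₀ (hg _) (hg _)] at h1
  have hlt : ∀ a b, a < b → f (σ b) * g (σ a) < f (σ a) * g (σ b) := by
    intro a b hab
    have h1 := hle a b hab.le
    have h2 := hne (σ a) (σ b) (fun h => hab.ne (σ.injective h))
    rcases lt_or_eq_of_le h1 with h3 | h3
    · exact h3
    · exact absurd (by linarith) h2
  refine ⟨σ, ?_, ?_, hlt⟩
  · by_contra hcon
    have h1 := hne p (σ 0) (Ne.symm hcon)
    have h2 := hp (σ 0)
    have h3 := hle 0 (σ.symm p) (Fin.zero_le _)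
    rw [σ.apply_symm_apply] at h3
    apply h1
    linarith
  · by_contra hcon
    have h1 := hne q (σ 5) (Ne.symm hcon)
    have h2 := hq (σ 5)
    have h3 := hle (σ.symm q) 5 (Fin.le_last _)
    rw [σ.apply_symm_apply] at h3
    apply h1
    linarith

/-- The matrix is in normal form. -/
def Nf (M : Fin 6 → Fin 6 → ℝ) : Prop :=
  (∀ i c, 0 < M i c) ∧ (∀ b b', b < b' → 0 < M 0 b * M 5 b' - M 5 b * M 0 b') ∧
    ∀ a a', a < a' → 0 < M a 0 * M a' 5 - M a' 0 * M a 5

theorem exists_nf {M : Fin 6 → Fin 6 → ℝ} (hb : Bad (cf M)) (hM : ∀ i c, 0 < M i c) :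
    ∃ M', Bad (cf M') ∧ Nf M' := by
  have hnd : ∀ a a' b b' : Fin 6, a ≠ a' → b ≠ b' →
      M a b * M a' b' - M a' b * M a b' ≠ 0 := by
    intro a a' b b' ha hb'
    rcases lt_or_gt_of_ne ha with h1 | h1 <;> rcases lt_or_gt_of_ne hb' with h2 | h2
    · exact (minor_sign hb.1 h1 h2).1
    · have := (minor_sign hb.1 h1 h2).1
      intro h0
      apply this
      linarith
    · have := (minor_sign hb.1 h1 h2).1
      intro h0
      apply this
      linarith
    · have := (minor_sign hb.1 h1 h2).1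
      intro h0
      apply this
      linarith
  obtain ⟨i, i', j, j', hii, hjj, h1, h2, h3, h4⟩ := exists_max_ratio hM hnd
  obtain ⟨γ, g0, g5, hγ⟩ := exists_sort (M i) (M i') (hM i')
    (fun x y hxy => by
      have := hnd i i' x y hii hxy
      intro h0
      apply this
      linarith) h1 h2
  obtain ⟨ρ, r0, r5, hρ⟩ := exists_sort (fun r => M r j) (fun r => M r j') (fun r => hM r j')
    (fun x y hxy => by
      have := hnd x y j j' hxy hjj
      intro h0
      apply this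
      linarith) h3 h4
  refine ⟨fun a b => M (ρ a) (γ b), bad_perm hb ρ γ, fun i c => hM _ _, fun b b' hbb => ?_,
    fun a a' haa => ?_⟩
  · simp only [r0, r5]
    have := hγ b b' hbb
    linarith
  · simp only [g0, g5]
    have := hρ a a' haa
    linarith

/-- The reversed matrix. -/
theorem nf_rev {M : Fin 6 → Fin 6 → ℝ} (hb : Bad (cf M)) (h : Nf M) :
    Bad (cf fun a b => M (Fin.rev a) (Fin.rev b)) ∧ Nf fun a b => M (Fin.rev a) (Fin.rev b) := by
  refine ⟨bad_perm hb Fin.revPerm Fin.revPerm, fun i c => h.1 _ _, fun b b' hbb => ?_,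
    fun a a' haa => ?_⟩
  · have h1 := h.2.1 (Fin.rev b') (Fin.rev b) (Fin.rev_lt_rev.2 hbb)
    have e0 : Fin.rev (0 : Fin 6) = 5 := rfl
    have e5 : Fin.rev (5 : Fin 6) = 0 := rfl
    simp only [e0, e5]
    linarith
  · have h1 := h.2.2 (Fin.rev a') (Fin.rev a) (Fin.rev_lt_rev.2 haa)
    have e0 : Fin.rev (0 : Fin 6) = 5 := rfl
    have e5 : Fin.rev (5 : Fin 6) = 0 := rfl
    simp only [e0, e5]
    linarith

/-- **Normal form.** -/
theorem exists_sym {v : Fin 12 → Fin 6 → ℝ} (hv : Bad v) :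
    ∃ v' : Fin 12 → Fin 6 → ℝ, Bad v' ∧ Model (chiN v') (topN v') ∧ chiN v' 63 = true ∧
      Simp (chiN v') 63 4095 ∧
      (∀ b b' : ℕ, b < b' → b' < 6 → fsm (chiN v') (rm 0 5) (6 + b) (6 + b') =
        fsm (chiN v') (rm 0 5) 0 5) ∧
      (∀ a a' : ℕ, a < a' → a' < 6 → fsm (chiN v') (rm a a') 6 11 =
        fsm (chiN v') (rm a a') a a') ∧
      (fsm (chiN v') (rm 0 1) 6 7 = fsm (chiN v') (rm 0 1) 0 1 ∨
        fsm (chiN v') (rm 4 5) 10 11 = !(fsm (chiN v') (rm 4 5) 4 5)) := by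
  obtain ⟨M, hM, hg, hb⟩ := exists_chart (r := 6) (m := 6) v hv.1 (by norm_num) (by norm_num) hv.2
  have hbad : Bad (cf M) := ⟨hg, hb⟩
  obtain ⟨M1, hb1, hn1⟩ := exists_nf hbad hM
  obtain ⟨M2, hb2, hn2, hrev⟩ : ∃ M2, Bad (cf M2) ∧ Nf M2 ∧
      (0 < M2 0 0 * M2 1 1 - M2 1 0 * M2 0 1 ∨ M2 4 4 * M2 5 5 - M2 5 4 * M2 4 5 < 0) := by
    by_cases h1 : 0 < M1 0 0 * M1 1 1 - M1 1 0 * M1 0 1
    · exact ⟨M1, hb1, hn1, Or.inl h1⟩
    · by_cases h2 : M1 4 4 * M1 5 5 - M1 5 4 * M1 4 5 < 0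
      · exact ⟨M1, hb1, hn1, Or.inr h2⟩
      · obtain ⟨hb3, hn3⟩ := nf_rev hb1 hn1
        refine ⟨_, hb3, hn3, Or.inl ?_⟩
        have hne := (minor_sign hb1.1 (a := 4) (a' := 5) (b := 4) (b' := 5) (by decide)
          (by decide)).1
        have h3 := lt_of_le_of_ne (not_lt.1 h2) (Ne.symm hne)
        have e0 : Fin.rev (0 : Fin 6) = 5 := rfl
        have e1 : Fin.rev (1 : Fin 6) = 4 := rfl
        simp only [e0, e1]
        linarith
  refine ⟨cf M2, hb2, exists_model hb2.1 hb2.2, chi_cf M2, simp_of_sim hb2.1 (by rfl)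
    (sim_cf hn2.1), fun b b' hbb hb' => ?_, fun a a' haa ha' => ?_, ?_⟩
  · exact (minor_sign hb2.1 (a := 0) (a' := 5) (b := ⟨b, by omega⟩) (b' := ⟨b', hb'⟩) (by decide)
      hbb).2.1 (hn2.2.1 _ _ hbb)
  · exact (minor_sign hb2.1 (a := ⟨a, by omega⟩) (a' := ⟨a', ha'⟩) (b := 0) (b' := 5) haa
      (by decide)).2.1 (hn2.2.2 _ _ haa)
  · rcases hrev with h | h
    · exact Or.inl ((minor_sign hb2.1 (a := 0) (a' := 1) (b := 0) (b' := 1) (by decide)
        (by decide)).2.1 h)
    · exact Or.inr ((minor_sign hb2.1 (a := 4) (a' := 5) (b := 4) (b' := 5) (by decide)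
        (by decide)).2.2 h)

end Pool.Agent.H77.Z12
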