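import Mathlib
import Pool.Agent.H77.Z12.Sym3

/-!
The signs of the inverse matrix: covering by nogoods up to permutations (MP_1e71f9_co).
-/

set_option autoImplicit false

namespace Pool.Agent.H77.Z12

open Finset Matrix Pool.Agent.H67.Nu

/-- Ratio of the values of a cocircuit. -/
theorem cs_ratio {n : ℕ} {v : Fin n → Fin 6 → ℝ} (hv : Gen v) {S : Finset (Fin n)}
    (hS : S.card = 5) {x y : Fin n} (hx : x ∉ S) (hy : y ∉ S) {q : Fin 6 → ℝ}
    (hq : ∀ d ∈ S, q ⬝ᵥ v d = 0) (hqx : q ⬝ᵥ v x ≠ 0) :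
    0 < sg (cs v S x == cs v S y) * ((q ⬝ᵥ v x) * (q ⬝ᵥ v y)) := by
  classical
  set a := S.orderEmbOfFin hS with ha
  have hm : StrictMono a := a.strictMono
  have him : Finset.univ.image a = S := by
    apply Finset.coe_injective
    rw [Finset.coe_image, Finset.coe_univ, Set.image_univ, ha, Finset.range_orderEmbOfFin]
  have hmem : ∀ i, a i ∈ S := fun i => Finset.orderEmbOfFin_mem _ hS i
  obtain ⟨w, hw⟩ := exists_normal (fun i => v (a i))
  have hsig : ∀ j ∉ S, 0 < sg (cs v S j) * (w ⬝ᵥ v j) := by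
    intro j hj
    have := G_sign hv hm (x := j) (fun i h => hj (h ▸ hmem i))
    rw [him] at this
    rw [hw]
    exact this
  have hz : ∀ d ∈ S, w ⬝ᵥ v d = 0 := by
    intro d hd
    have : d ∈ Finset.univ.image a := by rw [him]; exact hd
    obtain ⟨i, -, rfl⟩ := Finset.mem_image.1 this
    rw [hw]
    exact G_row _ i
  have h1 := hsig x hx
  have h2 := hsig y hy
  have hwx : w ⬝ᵥ v x ≠ 0 := by
    intro h0
    rw [h0, mul_zero] at h1
    exact lt_irrefl _ h1
  have hprop : q - ((q ⬝ᵥ v x) / (w ⬝ᵥ v x)) • w = 0 := by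
    refine hv.eq_zero (B := insert x S) (by rw [Finset.card_insert_of_notMem hx, hS]) ?_
    intro d hd
    rw [sub_dotProduct, smul_dotProduct, smul_eq_mul]
    rcases Finset.mem_insert.1 hd with rfl | hd
    · field_simp; ring
    · rw [hz d hd, hq d hd]; ring
  set c := (q ⬝ᵥ v x) / (w ⬝ᵥ v x) with hc
  have hc0 : c ≠ 0 := div_ne_zero hqx hwx
  have hqq : ∀ j, q ⬝ᵥ v j = c * (w ⬝ᵥ v j) := fun j => by
    rw [sub_eq_zero.1 hprop, smul_dotProduct, smul_eq_mul]
  rw [hqq x, hqq y, sg_beq]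
  calc (0 : ℝ) < (c * c) * ((sg (cs v S x) * (w ⬝ᵥ v x)) * (sg (cs v S y) * (w ⬝ᵥ v y))) :=
        mul_pos (mul_self_pos.2 hc0) (mul_pos h1 h2)
    _ = _ := by ring

/-- Mask of the columns other than `k`. -/
def mS (k : ℕ) : ℕ := 4032 ^^^ 2 ^ (6 + k)

/-- The sign of the entry `(k, j)` of the inverse matrix. -/
def sigma (χ : ℕ → Bool) (k j : ℕ) : Bool := csm χ (mS k) j == csm χ (mS k) (6 + k)

theorem mS_facts : ∀ k : Fin 6, pc (mS k) = 5 ∧ (∀ j : Fin 6, (mS k).testBit j = false) ∧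
    (mS k).testBit (6 + k) = false ∧
    (∀ c : Fin 6, (mS k).testBit (6 + c) = true → c ≠ k) := by decide +kernel

theorem det_ne {M : Fin 6 → Fin 6 → ℝ} (hv : Gen (cf M)) : (Matrix.of M).det ≠ 0 := by
  have h := hv cb (by decide)
  intro h0
  apply h
  have e : (Matrix.of fun i => cf M (cb i)) = (Matrix.of M)ᵀ := by
    ext i j
    rw [Matrix.of_apply, cf_cb]
    rfl
  rw [e, Matrix.det_transpose, h0]

theorem sigma_pos {M : Fin 6 → Fin 6 → ℝ} (hv : Gen (cf M)) (k j : Fin 6) :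
    0 < sg (sigma (chiN (cf M)) k j) * ((Matrix.of M)⁻¹ k j) := by
  obtain ⟨f1, f2, f3, f4⟩ := mS_facts k
  have hu : IsUnit (Matrix.of M).det := isUnit_iff_ne_zero.2 (det_ne hv)
  have hmul := Matrix.nonsing_inv_mul (Matrix.of M) hu
  have hq : ∀ c : Fin 6, (fun i => (Matrix.of M)⁻¹ k i) ⬝ᵥ cf M (cb c) = if k = c then 1 else 0 := by
    intro c
    have h1 := congrFun (congrFun hmul k) c
    rw [Matrix.mul_apply, Matrix.one_apply] at h1
    rw [cf_cb, dotProduct, ← h1]
    rfl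
  have hx : cb k ∉ toSet (mS k) := by rw [mem_toSet, cb_val, f3]; decide
  have hy : ra j ∉ toSet (mS k) := by rw [mem_toSet, ra_lt, f2]; decide
  have hout : ∀ i : Fin 12, (∃ a : Fin 6, i = ra a) ∨ ∃ b : Fin 6, i = cb b := by decide
  have h := cs_ratio hv (S := toSet (mS k)) (by rw [card_toSet, f1]) hx hy
    (q := fun i => (Matrix.of M)⁻¹ k i) (fun d hd => by
      rcases hout d with ⟨a, rfl⟩ | ⟨b, rfl⟩
      · rw [mem_toSet, ra_lt, f2] at hd
        exact absurd hd (by decide)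
      · rw [mem_toSet, cb_val] at hd
        rw [hq, if_neg (fun h0 => f4 b hd h0.symm)]) (by rw [hq, if_pos rfl]; exact one_ne_zero)
  rw [hq, if_pos rfl, one_mul, cf_ra, dotProduct_single, mul_one] at h
  have e1 : cs (cf M) (toSet (mS k)) (cb k) = csm (chiN (cf M)) (mS k) (6 + k) := cs_toSet _ _ _
  have e2 : cs (cf M) (toSet (mS k)) (ra j) = csm (chiN (cf M)) (mS k) j := cs_toSet _ _ _
  rw [e1, e2] at h
  have e3 : sigma (chiN (cf M)) k j =
      (csm (chiN (cf M)) (mS k) (6 + k) == csm (chiN (cf M)) (mS k) j) := by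
    rw [sigma]
    cases csm (chiN (cf M)) (mS k) (6 + k) <;> cases csm (chiN (cf M)) (mS k) j <;> rfl
  rw [e3]
  exact h

theorem det_pos {M : Fin 6 → Fin 6 → ℝ} (hv : Gen (cf M)) :
    0 < sg (chiN (cf M) 4032) * (Matrix.of M).det := by
  have hl : StrictMono cb := by
    intro a b h
    rw [Fin.lt_def, cb_val, cb_val]
    have : (a : ℕ) < b := h
    omega
  have him : Finset.univ.image cb = toSet 4032 := by decide
  have h := D_sign hv hl.injective
  rw [him] at h
  have e : D (cf M) cb = (Matrix.of M).det := by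
    rw [D]
    have e : (Matrix.of fun i => cf M (cb i)) = (Matrix.of M)ᵀ := by
      ext i j
      rw [Matrix.of_apply, cf_cb]
      rfl
    rw [e, Matrix.det_transpose]
  rw [e] at h
  have h2 := vd_pos_of_mono hl
  have h3 : 0 < (sg (chi (cf M) (toSet 4032)) * (Matrix.of M).det) * vd cb := by
    calc (0 : ℝ) < _ := h
      _ = _ := by ring
  exact (pos_iff_pos_of_mul_pos h3).2 h2

attribute [local irreducible] chiN topN sigma

/-- A state: the signs of the inverse matrix and the sign of the determinant. -/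
abbrev St36 := (Fin 6 → Fin 6 → Bool) × Bool

/-- The state of a matrix. -/
noncomputable def stt (M : Fin 6 → Fin 6 → ℝ) : St36 :=
  (fun k j => sigma (chiN (cf M)) k j, chiN (cf M) 4032)

/-- The parity of a permutation. -/
def par (σ : Equiv.Perm (Fin 6)) : Bool := decide (Equiv.Perm.sign σ = -1)

/-- The action on states. -/
def actS (ρ γ : Equiv.Perm (Fin 6)) (s : St36) : St36 :=
  (fun k j => s.1 (γ k) (ρ j), xor s.2 (xor (par ρ) (par γ)))

theorem sg_eq_of_mul_pos {a b : Bool} {x : ℝ} (ha : 0 < sg a * x) (hb : 0 < sg b * x) : a = b := by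
  cases a <;> cases b <;> simp [sg] at ha hb ⊢ <;> linarith

theorem sg_par (σ : Equiv.Perm (Fin 6)) : ((Equiv.Perm.sign σ : ℤ) : ℝ) = sg (!(par σ)) := by
  unfold par
  rcases Int.units_eq_one_or (Equiv.Perm.sign σ) with h | h <;> rw [h] <;> simp [sg]

theorem stt_perm {M : Fin 6 → Fin 6 → ℝ} (h : Bad (cf M)) (ρ γ : Equiv.Perm (Fin 6)) :
    stt (fun a b => M (ρ a) (γ b)) = actS ρ γ (stt M) := by
  have h' := bad_perm h ρ γ
  have hsub : (Matrix.of fun a b => M (ρ a) (γ b)) = (Matrix.of M).submatrix ρ γ := rfl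
  refine Prod.ext ?_ ?_
  · funext k j
    have h1 := sigma_pos h'.1 k j
    have h2 := sigma_pos h.1 (γ k) (ρ j)
    rw [hsub, Matrix.inv_submatrix_equiv, Matrix.submatrix_apply] at h1
    exact sg_eq_of_mul_pos h1 h2
  · have h1 := det_pos h'.1
    have h2 := det_pos h.1
    have e : ((Matrix.of M).submatrix ρ γ).det =
        sg (!(par ρ)) * (sg (!(par γ)) * (Matrix.of M).det) := by
      rw [← sg_par, ← sg_par]
      have e1 : (Matrix.of M).submatrix ρ γ =
          (((Matrix.of M).submatrix id γ)).submatrix ρ id := rfl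
      rw [e1, Matrix.det_permute, Matrix.det_permute']
    rw [hsub, e] at h1
    have e0 : (stt fun a b => M (ρ a) (γ b)).2 = chiN (cf fun a b => M (ρ a) (γ b)) 4032 := by
      unfold stt
      rfl
    have e0' : (actS ρ γ (stt M)).2 = xor (chiN (cf M) 4032) (xor (par ρ) (par γ)) := by
      unfold stt actS
      rfl
    rw [e0, e0']
    refine sg_eq_of_mul_pos (x := sg (!(par ρ)) * (sg (!(par γ)) * (Matrix.of M).det)) h1 ?_
    have e3 : sg (xor (chiN (cf M) 4032) (xor (par ρ) (par γ))) =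
        sg (chiN (cf M) 4032) * (sg (!(par ρ)) * sg (!(par γ))) := by
      cases chiN (cf M) 4032 <;> cases par ρ <;> cases par γ <;> simp [sg]
    rw [e3]
    have e4 := sg_mul_self (!(par ρ))
    have e5 := sg_mul_self (!(par γ))
    calc (0 : ℝ) < sg (chiN (cf M) 4032) * (Matrix.of M).det := h2
      _ = (sg (!(par ρ)) * sg (!(par ρ))) * ((sg (!(par γ)) * sg (!(par γ))) *
          (sg (chiN (cf M) 4032) * (Matrix.of M).det)) := by rw [e4, e5]; ring
      _ = _ := by ring

/-- A state satisfies a nogood: bits `6 k + j` of the mask `m` and the value `w` for the signs of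
the inverse, bit 36 for the sign of the determinant. -/
def Sat (m w : ℕ) (s : St36) : Prop :=
  (∀ k j : Fin 6, m.testBit (6 * k + j) = true → s.1 k j = w.testBit (6 * k + j)) ∧
    (m.testBit 36 = true → s.2 = w.testBit 36)

/-- A nogood is refuted. -/
def Ref36 (m w : ℕ) : Prop := ∀ χ T : ℕ → Bool, Model χ T → χ 63 = true → Simp χ 63 4095 →
  (∀ k j : Fin 6, m.testBit (6 * k + j) = true → sigma χ k j = w.testBit (6 * k + j)) →
  (m.testBit 36 = true → χ 4032 = w.testBit 36) → False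

/-- **Covering by nogoods.** -/
theorem not_bad_of_cover (NG : List (ℕ × ℕ)) (href : ∀ p ∈ NG, Ref36 p.1 p.2)
    (hcov : ∀ s : St36, ∃ ρ γ : Equiv.Perm (Fin 6), ∃ p ∈ NG, Sat p.1 p.2 (actS ρ γ s))
    (v : Fin 12 → Fin 6 → ℝ) : ¬ Bad v := by
  intro hv
  obtain ⟨M, hM, hg, hb⟩ := exists_chart (r := 6) (m := 6) v hv.1 (by norm_num) (by norm_num) hv.2
  have hbad : Bad (cf M) := ⟨hg, hb⟩
  obtain ⟨ρ, γ, p, hp, hs⟩ := hcov (stt M)
  have hbad' := bad_perm hbad ρ γ
  rw [← stt_perm hbad] at hs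
  have h63 : pc 63 = 6 := by decide
  have hsim := simp_of_sim hbad'.1 h63 (sim_cf (M := fun a b => M (ρ a) (γ b)) fun i c => hM _ _)
  exact href p hp _ _ (exists_model hbad'.1 hbad'.2) (chi_cf _) hsim hs.1 hs.2

end Pool.Agent.H77.Z12
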