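import Mathlib
import Pool.Agent.H77.Z12.Frame

/-!
Relative types of pairs of simplicial cells (MP_1e71f9_co).
-/

set_option autoImplicit false

namespace Pool.Agent.H77.Z12

open Finset Matrix Pool.Agent.H67.Nu

/-- The relations of a simplicial cell give a simplicial cell. -/
theorem sim_of_sign {n : ℕ} {v : Fin n → Fin 6 → ℝ} (hv : Gen v) {B : Finset (Fin n)}
    (hB : B.card = 6) {s : Fin n → Bool}
    (h : ∀ b ∈ B, ∀ k ∉ B,
      xor (cs v (B.erase b) b) (cs v (B.erase b) k) = xor (s b) (s k)) : Sim v B s := by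
  classical
  have hex : ∀ b : Fin n, ∃ Q : Fin 6 → ℝ, b ∈ B → (∀ b' ∈ B, b' ≠ b → Q ⬝ᵥ v b' = 0) ∧
      (0 < sg (s b) * (Q ⬝ᵥ v b)) ∧ ∀ k ∉ B, 0 < sg (s k) * (Q ⬝ᵥ v k) := by
    intro b
    by_cases hb : b ∈ B
    swap
    · exact ⟨0, fun h => absurd h hb⟩
    have hS : (B.erase b).card = 5 := by rw [Finset.card_erase_of_mem hb, hB]
    set a := (B.erase b).orderEmbOfFin hS with ha
    have hm : StrictMono a := a.strictMono
    have him : Finset.univ.image a = B.erase b := by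
      apply Finset.coe_injective
      rw [Finset.coe_image, Finset.coe_univ, Set.image_univ, ha, Finset.range_orderEmbOfFin]
    have hmem : ∀ i, a i ∈ B.erase b := fun i => Finset.orderEmbOfFin_mem _ hS i
    obtain ⟨w, hw⟩ := exists_normal (fun i => v (a i))
    have hsig : ∀ j ∉ B.erase b, 0 < sg (cs v (B.erase b) j) * (w ⬝ᵥ v j) := by
      intro j hj
      have := G_sign hv hm (x := j) (fun i h => hj (h ▸ hmem i))
      rw [him] at this
      rw [hw]
      exact this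
    have hz : ∀ d ∈ B.erase b, w ⬝ᵥ v d = 0 := by
      intro d hd
      have : d ∈ Finset.univ.image a := by rw [him]; exact hd
      obtain ⟨i, -, rfl⟩ := Finset.mem_image.1 this
      rw [hw]
      exact G_row _ i
    have hb' : b ∉ B.erase b := Finset.notMem_erase _ _
    refine ⟨sg (s b == cs v (B.erase b) b) • w, fun _ => ⟨fun b' hb'' hne => ?_, ?_, fun k hk => ?_⟩⟩
    · rw [smul_dotProduct, hz b' (Finset.mem_erase.2 ⟨hne, hb''⟩), smul_zero]
    · rw [smul_dotProduct, smul_eq_mul, sg_beq]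
      have h1 := hsig b hb'
      have e := sg_mul_self (s b)
      calc (0 : ℝ) < sg (cs v (B.erase b) b) * (w ⬝ᵥ v b) := h1
        _ = (sg (s b) * sg (s b)) * (sg (cs v (B.erase b) b) * (w ⬝ᵥ v b)) := by rw [e, one_mul]
        _ = _ := by ring
    · rw [smul_dotProduct, smul_eq_mul, sg_beq]
      have h1 := hsig k (fun h => hk (Finset.mem_of_mem_erase h))
      have h2 := h b hb k hk
      have e : sg (s k) * (sg (s b) * sg (cs v (B.erase b) b)) = sg (cs v (B.erase b) k) := by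
        revert h2
        cases cs v (B.erase b) b <;> cases cs v (B.erase b) k <;> cases s b <;> cases s k <;>
          simp [sg]
      calc (0 : ℝ) < sg (cs v (B.erase b) k) * (w ⬝ᵥ v k) := h1
        _ = (sg (s k) * (sg (s b) * sg (cs v (B.erase b) b))) * (w ⬝ᵥ v k) := by rw [e]
        _ = _ := by ring
  choose Q hQ using hex
  exact ⟨Q, fun b hb b' hb' hne => (hQ b hb).1 b' hb' hne, fun b hb => (hQ b hb).2.1,
    fun k hk b hb => (hQ b hb).2.2 k hk⟩

theorem sim_of_simp {v : Fin 12 → Fin 6 → ℝ} (hv : Gen v) {B s : ℕ} (hB : pc B = 6)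
    (hs : Simp (chiN v) B s) : Sim v (toSet B) fun i => s.testBit i := by
  refine sim_of_sign hv (by rw [card_toSet, hB]) fun b hb k hk => ?_
  rw [mem_toSet] at hb
  rw [mem_toSet, Bool.not_eq_true] at hk
  have := hs b b.2 hb k k.2 hk
  rw [← toSet_xor B b hb, cs_toSet, cs_toSet]
  exact this

/-- Number of elements with a given label. -/
def cnt (B1 B2 : Finset (Fin 12)) (s1 s2 : Fin 12 → Bool) (a : Bool × Bool × Bool) : ℕ :=
  (univ.filter fun j => lab B1 B2 s1 s2 j = a).card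

/-- The type of a pair of cells: the numbers of all labels. -/
def Ty (B1 B2 : Finset (Fin 12)) (s1 s2 : Fin 12 → Bool) (k a1 a2 b1 b2 : ℕ) : Prop :=
  cnt B1 B2 s1 s2 (true, true, false) = a1 ∧ cnt B1 B2 s1 s2 (true, true, true) + a1 = k ∧
  cnt B1 B2 s1 s2 (true, false, false) = a2 ∧ cnt B1 B2 s1 s2 (true, false, true) + a2 + k = 6 ∧
  cnt B1 B2 s1 s2 (false, true, false) = b1 ∧ cnt B1 B2 s1 s2 (false, true, true) + b1 + k = 6 ∧
  cnt B1 B2 s1 s2 (false, false, false) = b2 ∧ cnt B1 B2 s1 s2 (false, false, true) + b2 = k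

/-- No pair of simplicial cells of a bad configuration has the type. -/
def NoType (k a1 a2 b1 b2 : ℕ) : Prop :=
  ∀ v, Bad v → ∀ B1 B2 s1 s2, Sim v B1 s1 → Sim v B2 s2 → ¬ Ty B1 B2 s1 s2 k a1 a2 b1 b2

theorem cnt_not (B1 B2 : Finset (Fin 12)) (s1 s2 : Fin 12 → Bool) (x y z : Bool) :
    cnt B1 B2 s1 (fun j => !(s2 j)) (x, y, z) = cnt B1 B2 s1 s2 (x, y, !z) := by
  unfold cnt
  congr 1
  ext j
  simp only [Finset.mem_filter, Finset.mem_univ, true_and, lab, Prod.mk.injEq]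
  cases s1 j <;> cases s2 j <;> cases z <;> simp

theorem cnt_swap (B1 B2 : Finset (Fin 12)) (s1 s2 : Fin 12 → Bool) (x y z : Bool) :
    cnt B2 B1 s2 s1 (x, y, z) = cnt B1 B2 s1 s2 (y, x, z) := by
  unfold cnt
  congr 1
  ext j
  simp only [Finset.mem_filter, Finset.mem_univ, true_and, lab, Prod.mk.injEq]
  cases s1 j <;> cases s2 j <;> simp [and_left_comm]

theorem NoType.neg {k a1 a2 b1 b2 : ℕ} (e1 : a1 ≤ k) (e2 : a2 + k ≤ 6) (e3 : b1 + k ≤ 6)
    (e4 : b2 ≤ k) (h : NoType k a1 a2 b1 b2) :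
    NoType k (k - a1) (6 - k - a2) (6 - k - b1) (k - b2) := by
  intro v hv B1 B2 s1 s2 h1 h2 ht
  refine h v hv B1 B2 s1 (fun j => !(s2 j)) h1 h2.neg ?_
  unfold Ty at ht ⊢
  simp only [cnt_not, Bool.not_true, Bool.not_false]
  omega

theorem NoType.swap {k a1 a2 b1 b2 : ℕ} (h : NoType k a1 a2 b1 b2) : NoType k a1 b1 a2 b2 := by
  intro v hv B1 B2 s1 s2 h1 h2 ht
  refine h v hv B2 B1 s2 s1 h2 h1 ?_
  unfold Ty at ht ⊢
  simp only [cnt_swap B1 B2 s1 s2]
  omega

/-- The counts are determined by the type. -/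
theorem cnt_eq_of_ty {B1 B2 B1' B2' : Finset (Fin 12)} {s1 s2 s1' s2' : Fin 12 → Bool}
    {k a1 a2 b1 b2 : ℕ} (h : Ty B1 B2 s1 s2 k a1 a2 b1 b2)
    (h' : Ty B1' B2' s1' s2' k a1 a2 b1 b2) (a : Bool × Bool × Bool) :
    cnt B1 B2 s1 s2 a = cnt B1' B2' s1' s2' a := by
  unfold Ty at h h'
  obtain ⟨x, y, z⟩ := a
  cases x <;> cases y <;> cases z <;> omega

/-- Certificates for a type: it is enough to treat one representative `(C, t)`. -/
theorem NoType.of_rep {k a1 a2 b1 b2 : ℕ} (C t : ℕ)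
    (hC : Ty (toSet 63) (toSet C) (fun _ => true) (fun j => t.testBit j) k a1 a2 b1 b2)
    (hpc : pc C = 6)
    (hcert : ∀ v, Bad v → Model (chiN v) (topN v) → chiN v 63 = true →
      Simp (chiN v) 63 4095 → Simp (chiN v) C t → False) : NoType k a1 a2 b1 b2 := by
  intro v hv B1 B2 s1 s2 h1 h2 ht
  obtain ⟨v', hv', hchi, g1, g2⟩ := hv.pair h1 h2 C t (fun a => cnt_eq_of_ty ht hC a)
  refine hcert v' hv' (exists_model hv'.1 hv'.2) hchi ?_ (simp_of_sim hv'.1 hpc g2)
  refine simp_of_sim hv'.1 (by rfl) ?_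
  have e : (fun i : Fin 12 => (4095 : ℕ).testBit i) = fun _ => true := by
    funext i
    revert i
    decide
  rw [e]
  exact g1

/-- Representative masks: the facets of the second cell. -/
def repC (k : ℕ) : ℕ := (2 ^ k - 1) + 64 * (2 ^ (6 - k) - 1)

/-- Representative masks: the plus signs of the second cell. -/
def repS (k a1 a2 b1 b2 : ℕ) : ℕ :=
  4095 - ((2 ^ a1 - 1) + 2 ^ k * (2 ^ a2 - 1) + 64 * (2 ^ b1 - 1) + 2 ^ (12 - k) * (2 ^ b2 - 1))

instance (B1 B2 : Finset (Fin 12)) (s1 s2 : Fin 12 → Bool) (k a1 a2 b1 b2 : ℕ) :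
    Decidable (Ty B1 B2 s1 s2 k a1 a2 b1 b2) := by
  unfold Ty
  infer_instance

end Pool.Agent.H77.Z12
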