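import Mathlib
import Pool.Agent.H77.Z12.Types

/-!
Two simplicial cells with at least three common facets (MP_1e71f9_co).
-/

set_option autoImplicit false

namespace Pool.Agent.H77.Z12

open Finset Matrix Pool.Agent.H67.Nu

/-- A family of 6-subsets of a 12-set which separates all ordered pairs contains two different
sets with at least three common elements. -/
theorem exists_three_common (P : Finset (Fin 12) → Prop) (h6 : ∀ B, P B → B.card = 6)
    (hP : ∀ f e : Fin 12, f ≠ e → ∃ B, P B ∧ f ∈ B ∧ e ∉ B) :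
    ∃ B1 B2, P B1 ∧ P B2 ∧ B1 ≠ B2 ∧ 3 ≤ (B1 ∩ B2).card := by
  classical
  by_contra hcon
  push Not at hcon
  have hno : ∀ B1 B2, P B1 → P B2 → B1 ≠ B2 → (B1 ∩ B2).card ≤ 2 := fun B1 B2 h1 h2 hne => by
    have := hcon B1 B2 h1 h2 hne
    omega
  obtain ⟨B1, hB1, -, -⟩ := hP 0 1 (by decide)
  have c1 := h6 B1 hB1
  obtain ⟨f, hf, e, he, hfe⟩ : ∃ f ∈ B1, ∃ e ∈ B1, f ≠ e :=
    Finset.one_lt_card.1 (by omega)
  obtain ⟨B2, hB2, hf2, he2⟩ := hP f e hfe
  have c2 := h6 B2 hB2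
  have hne : B1 ≠ B2 := fun h => he2 (h ▸ he)
  have c12 := hno B1 B2 hB1 hB2 hne
  have hU := Finset.card_union_add_card_inter B1 B2
  have hUc : ((B1 ∪ B2)ᶜ).card + (B1 ∪ B2).card = 12 := by
    have := Finset.card_add_card_compl (B1 ∪ B2)
    rw [Fintype.card_fin] at this
    omega
  -- a third set
  have third : ∀ B, P B → B ≠ B1 → B ≠ B2 → (B ∩ (B1 ∪ B2)ᶜ).card ≤ 1 → False := by
    intro B hB h1 h2 h3
    have d1 := hno B B1 hB hB1 h1
    have d2 := hno B B2 hB hB2 h2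
    have c := h6 B hB
    have hsub : B ⊆ (B ∩ B1) ∪ ((B ∩ B2) ∪ (B ∩ (B1 ∪ B2)ᶜ)) := by
      intro x hx
      simp only [Finset.mem_union, Finset.mem_inter, Finset.mem_compl]
      by_cases hx1 : x ∈ B1
      · exact Or.inl ⟨hx, hx1⟩
      · by_cases hx2 : x ∈ B2
        · exact Or.inr (Or.inl ⟨hx, hx2⟩)
        · exact Or.inr (Or.inr ⟨hx, by simp [hx1, hx2]⟩)
    have e1 := Finset.card_le_card hsub
    have e2 := Finset.card_union_le (B ∩ B1) ((B ∩ B2) ∪ (B ∩ (B1 ∪ B2)ᶜ))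
    have e3 := Finset.card_union_le (B ∩ B2) (B ∩ (B1 ∪ B2)ᶜ)
    omega
  by_cases h2 : ((B1 ∪ B2)ᶜ).card = 2
  · obtain ⟨a, b, hab, hset⟩ := Finset.card_eq_two.1 h2
    have ha : a ∉ B1 ∪ B2 := by
      rw [← Finset.mem_compl, hset]; simp
    obtain ⟨B3, hB3, ha3, hb3⟩ := hP a b hab
    rw [Finset.mem_union, not_or] at ha
    refine third B3 hB3 (fun h => ha.1 (h ▸ ha3)) (fun h => ha.2 (h ▸ ha3)) ?_
    have : B3 ∩ (B1 ∪ B2)ᶜ ⊆ {a} := by
      intro x hx
      rw [hset] at hx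
      simp only [Finset.mem_inter, Finset.mem_insert, Finset.mem_singleton] at hx
      rcases hx with ⟨hx, rfl | rfl⟩
      · simp
      · exact absurd hx hb3
    have := Finset.card_le_card this
    simpa using this
  · have h3 : ((B1 ∪ B2)ᶜ).card ≤ 1 := by omega
    have hd : (B1 \ B2).card + (B1 ∩ B2).card = B1.card := Finset.card_sdiff_add_card_inter B1 B2
    obtain ⟨a, ha, b, hb, hab⟩ : ∃ a ∈ B1 \ B2, ∃ b ∈ B1 \ B2, a ≠ b :=
      Finset.one_lt_card.1 (by omega)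
    rw [Finset.mem_sdiff] at ha hb
    obtain ⟨B3, hB3, ha3, hb3⟩ := hP a b hab
    refine third B3 hB3 (fun h => hb3 (h ▸ hb.1)) (fun h => ha.2 (h ▸ ha3)) ?_
    exact (Finset.card_le_card Finset.inter_subset_right).trans h3

/-- No two different simplicial cells of a bad configuration have exactly `k` common facets. -/
def NoOverlap (k : ℕ) : Prop :=
  ∀ v, Bad v → ∀ B1 B2 s1 s2, B1.card = 6 → B2.card = 6 → Sim v B1 s1 → Sim v B2 s2 →
    (B1 ∩ B2).card ≠ k

/-- Every pair has a type. -/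
theorem exists_ty {B1 B2 : Finset (Fin 12)} (s1 s2 : Fin 12 → Bool) (h1 : B1.card = 6)
    (h2 : B2.card = 6) : ∃ a1 a2 b1 b2, a1 ≤ (B1 ∩ B2).card ∧ a2 + (B1 ∩ B2).card ≤ 6 ∧
      b1 + (B1 ∩ B2).card ≤ 6 ∧ b2 ≤ (B1 ∩ B2).card ∧
      Ty B1 B2 s1 s2 (B1 ∩ B2).card a1 a2 b1 b2 := by
  classical
  have key : ∀ (x y : Bool) (S : Finset (Fin 12)),
      (∀ j, j ∈ S ↔ (decide (j ∈ B1) = x ∧ decide (j ∈ B2) = y)) →
      cnt B1 B2 s1 s2 (x, y, true) + cnt B1 B2 s1 s2 (x, y, false) = S.card := by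
    intro x y S hS
    unfold cnt
    rw [← Finset.card_union_of_disjoint]
    · congr 1
      ext j
      rw [Finset.mem_union, Finset.mem_filter, Finset.mem_filter, hS]
      simp only [Finset.mem_univ, true_and, lab, Prod.mk.injEq]
      cases (s2 j == s1 j) <;> simp
    · rw [Finset.disjoint_left]
      intro j hj hj'
      rw [Finset.mem_filter] at hj hj'
      have e1 := congrArg (fun x => x.2.2) hj.2
      have e2 := congrArg (fun x => x.2.2) hj'.2
      simp only at e1 e2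
      rw [e1] at e2
      exact absurd e2 (by decide)
  have k1 := key true true (B1 ∩ B2) (fun j => by simp)
  have k2 := key true false (B1 \ B2) (fun j => by simp)
  have k3 := key false true (B2 \ B1) (fun j => by simp [and_comm])
  have k4 := key false false ((B1 ∪ B2)ᶜ) (fun j => by simp)
  have c1 := Finset.card_sdiff_add_card_inter B1 B2
  have c2 := Finset.card_sdiff_add_card_inter B2 B1
  rw [Finset.inter_comm B2 B1] at c2
  have c3 := Finset.card_union_add_card_inter B1 B2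
  have c4 : ((B1 ∪ B2)ᶜ).card + (B1 ∪ B2).card = 12 := by
    have := Finset.card_add_card_compl (B1 ∪ B2)
    rw [Fintype.card_fin] at this
    omega
  refine ⟨cnt B1 B2 s1 s2 (true, true, false), cnt B1 B2 s1 s2 (true, false, false),
    cnt B1 B2 s1 s2 (false, true, false), cnt B1 B2 s1 s2 (false, false, false), by omega,
    by omega, by omega, by omega, ?_⟩
  unfold Ty
  omega

theorem NoOverlap.of_types {k : ℕ}
    (h : ∀ a1 a2 b1 b2, a1 ≤ k → a2 + k ≤ 6 → b1 + k ≤ 6 → b2 ≤ k → NoType k a1 a2 b1 b2) :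
    NoOverlap k := by
  intro v hv B1 B2 s1 s2 c1 c2 h1 h2 hk
  obtain ⟨a1, a2, b1, b2, e1, e2, e3, e4, ht⟩ := exists_ty s1 s2 c1 c2
  rw [hk] at e1 e2 e3 e4 ht
  exact h a1 a2 b1 b2 e1 e2 e3 e4 v hv B1 B2 s1 s2 h1 h2 ht

/-- **The main reduction**: no overlap of 3, 4 or 5 facets means no bad configuration. -/
theorem not_bad_of_overlap (h3 : NoOverlap 3) (h4 : NoOverlap 4) (h5 : NoOverlap 5)
    (v : Fin 12 → Fin 6 → ℝ) : ¬ Bad v := by
  classical
  intro hv
  obtain ⟨B1, B2, ⟨c1, s1, g1⟩, ⟨c2, s2, g2⟩, hne, hge⟩ := exists_three_common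
    (fun B => B.card = 6 ∧ ∃ s, Sim v B s) (fun B hB => hB.1) (fun f e hfe => by
      obtain ⟨B, s, h1, h2, h3, h4⟩ := exists_sim hv.1 (by norm_num) (by norm_num) hfe
      exact ⟨B, ⟨h1, s, h4⟩, h2, h3⟩)
  have hle : (B1 ∩ B2).card ≤ 5 := by
    by_contra hcon
    have h6 : 6 ≤ (B1 ∩ B2).card := by omega
    have e1 : B1 ∩ B2 = B1 := Finset.eq_of_subset_of_card_le Finset.inter_subset_left (by omega)
    have e2 : B1 ∩ B2 = B2 := Finset.eq_of_subset_of_card_le Finset.inter_subset_right (by omega)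
    exact hne (e1.symm.trans e2)
  have a3 := h3 v hv B1 B2 s1 s2 c1 c2 g1 g2
  have a4 := h4 v hv B1 B2 s1 s2 c1 c2 g1 g2
  have a5 := h5 v hv B1 B2 s1 s2 c1 c2 g1 g2
  omega

end Pool.Agent.H77.Z12
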