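import Mathlib
import Pool.Agent.H77.Z12.Chart

/-!
Complete cells give projective transformations onto convex position (MP_1e71f9_co).
-/

set_option autoImplicit false

namespace Pool.Agent.H77.Z12

open Finset Matrix Pool.Agent.H67.Nu

variable {d n : ℕ}

/-- Homogeneous coordinates. -/
def hom (x : Fin n → Fin d → ℝ) : Fin n → Fin (d + 1) → ℝ := fun j => Fin.cons 1 (x j)

theorem dot_hom (x : Fin n → Fin d → ℝ) (y : Fin (d + 1) → ℝ) (j : Fin n) :
    y ⬝ᵥ hom x j = (∑ a, y a.succ * x j a) + y 0 := by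
  rw [dotProduct, Fin.sum_univ_succ]
  simp only [hom, Fin.cons_zero, Fin.cons_succ, mul_one]
  ring

theorem gen_hom {x : Fin n → Fin d → ℝ} (hx : GenPos x) : Gen (hom x) := by
  intro f hf h0
  obtain ⟨y, hy, hy0⟩ := Matrix.exists_mulVec_eq_zero_iff.2 h0
  have h1 : ∀ i, (∑ a, y a.succ * x (f i) a) + y 0 = 0 := by
    intro i
    rw [← dot_hom, dotProduct_comm]
    exact congrFun hy0 i
  by_cases hc : (fun a : Fin d => y a.succ) = 0
  · apply hy
    have h2 := h1 0
    have h3 : ∑ a, y a.succ * x (f 0) a = 0 := Finset.sum_eq_zero fun a _ => by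
      have := congrFun hc a
      simp only [Pi.zero_apply] at this
      rw [this, zero_mul]
    rw [h3, zero_add] at h2
    funext i
    refine Fin.cases h2 (fun a => congrFun hc a) i
  · have h2 := hx (fun a => y a.succ) (y 0) hc
    have h3 : (Finset.univ.image f).card = d + 1 := by
      rw [Finset.card_image_of_injective _ hf, Finset.card_univ, Fintype.card_fin]
    have h4 : Finset.univ.image f ⊆ univ.filter fun i => (∑ k, y k.succ * x i k) + y 0 = 0 := by
      intro j hj
      obtain ⟨i, -, rfl⟩ := Finset.mem_image.1 hj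
      rw [Finset.mem_filter]
      exact ⟨Finset.mem_univ _, h1 i⟩
    have := Finset.card_le_card h4
    omega

theorem mappable_of_complete (x : Fin n → Fin d → ℝ) (s : Fin n → Bool)
    (h : Complete (hom x) s) : Mappable x := by
  classical
  obtain ⟨⟨l₀, hl₀⟩, hm⟩ := h
  simp only [dot_hom] at hl₀
  -- perturb so that the constant term is non-zero
  obtain ⟨l, hl0, hl⟩ : ∃ l : Fin (d + 1) → ℝ, l 0 ≠ 0 ∧
      ∀ i, 0 < sg (s i) * ((∑ a, l a.succ * x i a) + l 0) := by
    have h1 : ∀ i, ∀ᶠ ε in nhdsWithin (0 : ℝ) ({0}ᶜ : Set ℝ),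
        0 < sg (s i) * ((∑ a, l₀ a.succ * x i a) + (l₀ 0 + ε)) := by
      intro i
      have hc : ContinuousAt
          (fun ε : ℝ => sg (s i) * ((∑ a, l₀ a.succ * x i a) + (l₀ 0 + ε))) 0 := by
        fun_prop
      have : ∀ᶠ ε in nhds (0 : ℝ), 0 < sg (s i) * ((∑ a, l₀ a.succ * x i a) + (l₀ 0 + ε)) := by
        apply hc.eventually_const_lt
        simpa using hl₀ i
      exact this.filter_mono nhdsWithin_le_nhds
    by_cases h0 : l₀ 0 = 0
    · obtain ⟨ε, hε, hε0⟩ := ((Filter.eventually_all.2 h1).and self_mem_nhdsWithin).exists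
      refine ⟨Fin.cons (l₀ 0 + ε) (fun a => l₀ a.succ), ?_, ?_⟩
      · simpa [h0] using hε0
      · intro i
        simpa using hε i
    · exact ⟨l₀, h0, hl₀⟩
  let T : ProjTrans d :=
    { A := 1
      b := 0
      c := fun i => l i.succ
      δ := l 0
      inv := by
        rw [Matrix.isUnit_iff_isUnit_det]
        have h0 : (Matrix.of fun (i : Fin d) (_ : Unit) => (0 : Fin d → ℝ) i) = 0 := by
          ext i j; rfl
        rw [h0, Matrix.det_fromBlocks_zero₁₂]
        simpa using hl0 }
  have hden : ∀ j, T.den (x j) = (∑ i, l i.succ * x j i) + l 0 := fun j => rfl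
  have hne : ∀ j, T.den (x j) ≠ 0 := by
    intro j h0
    have := hl j
    rw [← hden, h0, mul_zero] at this
    exact lt_irrefl _ this
  have hmap : ∀ j i, T.map (x j) i = x j i / T.den (x j) := by
    intro j i
    simp only [ProjTrans.map, T]
    simp [Matrix.one_apply]
  refine ⟨T, hne, fun m hmem => ?_⟩
  obtain ⟨q, hq⟩ := hm m
  simp only [dot_hom] at hq
  -- the separating affine functional
  let f : (Fin d → ℝ) →ₗ[ℝ] ℝ :=
    ∑ i, (q i.succ - q 0 / l 0 * l i.succ) • LinearMap.proj i
  have hf : ∀ y, f y = ∑ i, (q i.succ - q 0 / l 0 * l i.succ) * y i := by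
    intro y
    simp [f, LinearMap.sum_apply]
  have hfx : ∀ j, f (T.map (x j)) + q 0 / l 0 =
      ((∑ i, q i.succ * x j i) + q 0) / T.den (x j) := by
    intro j
    have e1 : f (T.map (x j)) =
        ((∑ i, q i.succ * x j i) - q 0 / l 0 * ∑ i, l i.succ * x j i) / T.den (x j) := by
      rw [hf, Finset.mul_sum, ← Finset.sum_sub_distrib, Finset.sum_div]
      refine Finset.sum_congr rfl fun i _ => ?_
      rw [hmap]
      ring
    have e2 : (∑ i, l i.succ * x j i) = T.den (x j) - l 0 := by
      rw [hden]; ring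
    rw [e1, e2]
    have := hne j
    field_simp
    ring
  have hpos : ∀ j, j ≠ m → 0 < f (T.map (x j)) + q 0 / l 0 := by
    intro j hj
    have h1 := hl j
    have h2 := hq j
    rw [Function.update_of_ne hj] at h2
    rw [← hden] at h1
    rw [hfx]
    have h4 := mul_pos h2 h1
    have h5 : 0 < ((∑ i, q i.succ * x j i) + q 0) * T.den (x j) := by
      have e : sg (s j) * ((∑ i, q i.succ * x j i) + q 0) * (sg (s j) * T.den (x j)) =
        (sg (s j) * sg (s j)) * (((∑ i, q i.succ * x j i) + q 0) * T.den (x j)) := by ring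
      rw [e, sg_mul_self, one_mul] at h4
      exact h4
    have h6 : ((∑ i, q i.succ * x j i) + q 0) / T.den (x j) =
        (((∑ i, q i.succ * x j i) + q 0) * T.den (x j)) / (T.den (x j) * T.den (x j)) := by
      have := hne j
      field_simp
    rw [h6]
    exact div_pos h5 (mul_self_pos.mpr (hne j))
  have hneg : f (T.map (x m)) + q 0 / l 0 < 0 := by
    have h1 := hl m
    have h2 := hq m
    rw [Function.update_self, sg_not] at h2
    rw [← hden] at h1
    rw [hfx]
    have h4 := mul_pos h2 h1
    have h5 : 0 < -((∑ i, q i.succ * x m i) + q 0) * T.den (x m) := by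
      have e : -sg (s m) * ((∑ i, q i.succ * x m i) + q 0) * (sg (s m) * T.den (x m)) =
        (sg (s m) * sg (s m)) * (-((∑ i, q i.succ * x m i) + q 0) * T.den (x m)) := by ring
      rw [e, sg_mul_self, one_mul] at h4
      exact h4
    have h6 : ((∑ i, q i.succ * x m i) + q 0) / T.den (x m) =
        -((-((∑ i, q i.succ * x m i) + q 0) * T.den (x m)) /
          (T.den (x m) * T.den (x m))) := by
      have := hne m
      field_simp
    rw [h6, neg_lt_zero]
    exact div_pos h5 (mul_self_pos.mpr (hne m))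
  -- the half space
  have hconv : Convex ℝ {y : Fin d → ℝ | -(q 0 / l 0) < f y} :=
    convex_halfSpace_gt f.isLinear _
  have hsub : convexHull ℝ ((fun k => T.map (x k)) '' {k | k ≠ m}) ⊆
      {y : Fin d → ℝ | -(q 0 / l 0) < f y} := by
    refine convexHull_min ?_ hconv
    rintro _ ⟨k, hk, rfl⟩
    have := hpos k hk
    show -(q 0 / l 0) < f (T.map (x k))
    linarith
  have h7 : -(q 0 / l 0) < f (T.map (x m)) := hsub hmem
  linarith

end Pool.Agent.H77.Z12
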