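import Mathlib
import Pool.Agent.H77.Z12.Points
import Pool.Agent.H77.Z12.Frame

/-!
Last step: no bad family of twelve vectors in rank six, hence every twelve points in general
position in `ℝ^5` can be mapped onto the vertices of a polytope (MP_1e71f9_co).
-/

set_option autoImplicit false

namespace Pool.Agent.H77.Z12

open Pool.Agent.H67.Nu

theorem mappable_of_not_bad (h : ∀ v : Fin 12 → Fin 6 → ℝ, ¬ Bad v) (x : Fin 12 → Fin 5 → ℝ)
    (hx : GenPos x) : Mappable x := by
  by_contra hc
  exact h (hom x) ⟨gen_hom hx, fun s hs => hc (mappable_of_complete x s hs)⟩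

end Pool.Agent.H77.Z12
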