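import Mathlib
import Pool.Agent.H67.Nu.Defs
import Pool.Agent.H77.Z12.Final
import Pool.Agent.H96.Z12.Exact

/-!
`ν(5) = 12` from the nonexistence of bad families of twelve vectors of rank six (MP_1e71f9_co).
-/

set_option autoImplicit false

namespace Pool.Agent.H77.Z12

open Pool.Agent.H67.Nu

theorem nu_five_of_not_bad (h : ∀ v : Fin 12 → Fin 6 → ℝ, ¬ Bad v) :
    IsGreatest {n : ℕ | ∀ x : Fin n → Fin 5 → ℝ, GenPos x → Mappable x} 12 ∧
      ∀ n, 6 ≤ n → ((∀ x : Fin n → Fin 5 → ℝ, GenPos x → Mappable x) ↔ n ≤ 12) :=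
  Pool.Agent.H96.Z12.nu_five (mappable_of_not_bad h)

end Pool.Agent.H77.Z12
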