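import Mathlib
import Pool.Agent.H67.Nu.Defs

/-!
Simplicial cells of simple arrangements and the chart `(I | M)`, `M > 0` (MP_1e71f9_co).
-/

set_option autoImplicit false

namespace Pool.Agent.H77.Z12

open Finset Matrix Pool.Agent.H67.Nu

/-- The sign vector `s` is the sign vector of a functional. -/
def Tope {n r : ℕ} (v : Fin n → Fin r → ℝ) (s : Fin n → Bool) : Prop :=
  ∃ y : Fin r → ℝ, ∀ j, 0 < sg (s j) * (y ⬝ᵥ v j)

/-- A sign vector all of whose neighbours are topes. -/
def Complete {n r : ℕ} (v : Fin n → Fin r → ℝ) (s : Fin n → Bool) : Prop :=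
  Tope v s ∧ ∀ j, Tope v (Function.update s j (!s j))

/-- Every `r` of the vectors are linearly independent. -/
def Gen {n r : ℕ} (v : Fin n → Fin r → ℝ) : Prop :=
  ∀ f : Fin r → Fin n, Function.Injective f → (Matrix.of fun i => v (f i)).det ≠ 0

variable {n r : ℕ} {v : Fin n → Fin r → ℝ}

theorem Gen.eq_zero (h : Gen v) {B : Finset (Fin n)} (hB : B.card = r) {p : Fin r → ℝ}
    (hp : ∀ b ∈ B, p ⬝ᵥ v b = 0) : p = 0 := by
  classical
  let e : Fin r ≃ B := (Finset.equivFinOfCardEq hB).symm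
  have hf : Function.Injective fun i => (e i : Fin n) := fun a b hab =>
    e.injective (Subtype.ext hab)
  refine Matrix.eq_zero_of_mulVec_eq_zero (h _ hf) ?_
  funext i
  have := hp (e i) (e i).2
  rw [Pi.zero_apply, ← this, dotProduct_comm]
  rfl

theorem Gen.span (h : Gen v) {B : Finset (Fin n)} (hB : B.card = r) (w : Fin r → ℝ) :
    ∃ c : Fin n → ℝ, w = ∑ b ∈ B, c b • v b := by
  classical
  let e : Fin r ≃ B := (Finset.equivFinOfCardEq hB).symm
  have hf : Function.Injective fun i => (e i : Fin n) := fun a b hab =>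
    e.injective (Subtype.ext hab)
  set A : Matrix (Fin r) (Fin r) ℝ := Matrix.of fun i => v (e i : Fin n) with hA
  have hdet : A.det ≠ 0 := h _ hf
  have hu : IsUnit A.det := isUnit_iff_ne_zero.2 hdet
  refine ⟨fun b => if hb : b ∈ B then (w ᵥ* A⁻¹) (e.symm ⟨b, hb⟩) else 0, ?_⟩
  have h1 : (w ᵥ* A⁻¹) ᵥ* A = w := by
    rw [Matrix.vecMul_vecMul, Matrix.nonsing_inv_mul A hu, Matrix.vecMul_one]
  rw [← Finset.sum_coe_sort B, ← e.sum_comp]
  conv_lhs => rw [← h1]
  funext k
  simp only [Matrix.vecMul, dotProduct, Finset.sum_apply, Pi.smul_apply, smul_eq_mul]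
  refine Finset.sum_congr rfl fun i _ => ?_
  have hi : ((e i : B) : Fin n) ∈ B := (e i).2
  rw [dif_pos hi]
  have e2 : e.symm ⟨((e i : B) : Fin n), hi⟩ = i := by simp
  rw [e2]
  rfl

/-- The normal vector of `r - 1` vectors. -/
theorem Gen.normal (h : Gen v) (hr : 1 ≤ r) {D : Finset (Fin n)} (hD : D.card + 1 = r) :
    ∃ p : Fin r → ℝ, (∀ d ∈ D, p ⬝ᵥ v d = 0) ∧ ∀ j ∉ D, p ⬝ᵥ v j ≠ 0 := by
  classical
  let L : (Fin r → ℝ) →ₗ[ℝ] (D → ℝ) :=
    { toFun := fun p d => p ⬝ᵥ v d
      map_add' := fun p q => by funext d; simp [add_dotProduct]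
      map_smul' := fun a p => by funext d; simp [smul_dotProduct] }
  have hker : LinearMap.ker L ≠ ⊥ := by
    apply LinearMap.ker_ne_bot_of_finrank_lt
    simp only [Module.finrank_fintype_fun_eq_card, Fintype.card_coe, Fintype.card_fin]
    omega
  obtain ⟨p, hp, hp0⟩ := (Submodule.ne_bot_iff _).1 hker
  have hpD : ∀ d ∈ D, p ⬝ᵥ v d = 0 := fun d hd => by
    have := congrFun (LinearMap.mem_ker.1 hp) ⟨d, hd⟩
    exact this
  refine ⟨p, hpD, fun j hj h0 => hp0 ?_⟩
  refine h.eq_zero (B := insert j D) (by rw [Finset.card_insert_of_notMem hj]; omega) ?_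
  intro b hb
  rcases Finset.mem_insert.1 hb with rfl | hb
  · exact h0
  · exact hpD b hb

/-- Two functionals which vanish on the same `r - 1` vectors are proportional. -/
theorem Gen.normal_unique (h : Gen v) {D : Finset (Fin n)} (hD : D.card + 1 = r) {g : Fin r → ℝ}
    {p q : Fin r → ℝ} (hp : ∀ d ∈ D, p ⬝ᵥ v d = 0) (hq : ∀ d ∈ D, q ⬝ᵥ v d = 0)
    (hpg : p ⬝ᵥ g = 1) (hqg : q ⬝ᵥ g = 1) {j : Fin n} (hj : j ∉ D) : p = q := by
  classical
  have hqj : q ⬝ᵥ v j ≠ 0 := by
    intro h0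
    have : q = 0 := by
      refine h.eq_zero (B := insert j D) (by rw [Finset.card_insert_of_notMem hj]; omega) ?_
      intro b hb
      rcases Finset.mem_insert.1 hb with rfl | hb
      · exact h0
      · exact hq b hb
    rw [this, zero_dotProduct] at hqg
    exact zero_ne_one hqg
  obtain ⟨a, ha⟩ : ∃ a : ℝ, a = (p ⬝ᵥ v j) / (q ⬝ᵥ v j) := ⟨_, rfl⟩
  have hz : p - a • q = 0 := by
    refine h.eq_zero (B := insert j D) (by rw [Finset.card_insert_of_notMem hj]; omega) ?_
    intro b hb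
    rw [sub_dotProduct, smul_dotProduct, smul_eq_mul]
    rcases Finset.mem_insert.1 hb with rfl | hb
    · rw [ha]; field_simp; ring
    · rw [hp b hb, hq b hb]; ring
  have hpq : p = a • q := sub_eq_zero.1 hz
  rw [hpq, smul_dotProduct, smul_eq_mul, hqg, mul_one] at hpg
  rw [hpq, hpg, one_smul]

/-- **Simplicial cells exist.** -/
theorem exists_simplicial (h : Gen v) (hr : 1 ≤ r) (hn : r < n) :
    ∃ (B : Finset (Fin n)) (Q : Fin n → Fin r → ℝ), B.card = r ∧
      (∀ b ∈ B, ∀ b' ∈ B, b' ≠ b → Q b ⬝ᵥ v b' = 0) ∧ (∀ b ∈ B, Q b ⬝ᵥ v b ≠ 0) ∧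
      ∀ k ∉ B, ∀ b ∈ B, ∀ b' ∈ B, 0 < (Q b ⬝ᵥ v k) * (Q b' ⬝ᵥ v k) := by
  classical
  -- normals
  have hex : ∀ D : Finset (Fin n), ∃ p : Fin r → ℝ, D.card + 1 = r →
      (∀ d ∈ D, p ⬝ᵥ v d = 0) ∧ ∀ j ∉ D, p ⬝ᵥ v j ≠ 0 := by
    intro D
    by_cases hD : D.card + 1 = r
    · obtain ⟨p, hp⟩ := h.normal hr hD
      exact ⟨p, fun _ => hp⟩
    · exact ⟨0, fun h => absurd h hD⟩
  choose p0 hp0 using hex
  have hout : ∀ D : Finset (Fin n), D.card + 1 = r → ∃ j, j ∉ D := by
    intro D hD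
    by_contra hcon
    push Not at hcon
    have : D = univ := Finset.eq_univ_iff_forall.2 hcon
    rw [this, Finset.card_univ, Fintype.card_fin] at hD
    omega
  -- a generic vector
  obtain ⟨g, hg⟩ : ∃ g : Fin r → ℝ, ∀ D : Finset (Fin n), D.card + 1 = r → p0 D ⬝ᵥ g ≠ 0 := by
    let K : Finset (Fin n) → Subspace ℝ (Fin r → ℝ) := fun D =>
      { carrier := {g | p0 D ⬝ᵥ g = 0}
        add_mem' := fun {a b} ha hb => by
          show p0 D ⬝ᵥ (a + b) = 0
          rw [dotProduct_add]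
          have ha' : p0 D ⬝ᵥ a = 0 := ha
          have hb' : p0 D ⬝ᵥ b = 0 := hb
          rw [ha', hb', add_zero]
        zero_mem' := by
          show p0 D ⬝ᵥ (0 : Fin r → ℝ) = 0
          simp
        smul_mem' := fun c a ha => by
          show p0 D ⬝ᵥ (c • a) = 0
          have ha' : p0 D ⬝ᵥ a = 0 := ha
          rw [dotProduct_smul, ha', smul_zero] }
    let S : Finset (Finset (Fin n)) := univ.filter fun D => D.card + 1 = r
    have htop : (⊤ : Subspace ℝ (Fin r → ℝ)) ∉ S.image K := by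
      intro htop
      rw [Finset.mem_image] at htop
      obtain ⟨D, hD, hKD⟩ := htop
      have hD' : D.card + 1 = r := (Finset.mem_filter.1 hD).2
      obtain ⟨j, hj⟩ := hout D hD'
      have hmem : v j ∈ K D := by rw [hKD]; exact Submodule.mem_top
      exact (hp0 D hD').2 j hj hmem
    have hne := Subspace.biUnion_ne_univ_of_top_notMem htop
    obtain ⟨g, hg⟩ := (Set.ne_univ_iff_exists_notMem _).1 hne
    refine ⟨g, fun D hD h0 => hg ?_⟩
    simp only [Set.mem_iUnion]
    exact ⟨K D, Finset.mem_image.2 ⟨D, Finset.mem_filter.2 ⟨Finset.mem_univ _, hD⟩, rfl⟩, h0⟩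
  -- normalised normals
  obtain ⟨P, hP⟩ : ∃ P : Finset (Fin n) → Fin r → ℝ, ∀ D, D.card + 1 = r →
      (∀ d ∈ D, P D ⬝ᵥ v d = 0) ∧ (∀ j ∉ D, P D ⬝ᵥ v j ≠ 0) ∧ P D ⬝ᵥ g = 1 := by
    refine ⟨fun D => (p0 D ⬝ᵥ g)⁻¹ • p0 D, fun D hD => ⟨fun d hd => ?_, fun j hj => ?_, ?_⟩⟩
    · rw [smul_dotProduct, (hp0 D hD).1 d hd, smul_zero]
    · rw [smul_dotProduct, smul_eq_mul]
      exact mul_ne_zero (inv_ne_zero (hg D hD)) ((hp0 D hD).2 j hj)
    · rw [smul_dotProduct, smul_eq_mul, inv_mul_cancel₀ (hg D hD)]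
  -- the minimal vertex
  obtain ⟨n0, -⟩ : ∃ n0 : Fin n, True := ⟨⟨0, by omega⟩, trivial⟩
  obtain ⟨D0, hD0, hmin⟩ := Finset.exists_min_image
    ((univ.erase n0).powersetCard (r - 1)) (fun D => |P D ⬝ᵥ v n0|) (by
      apply Finset.powersetCard_nonempty.2
      rw [Finset.card_erase_of_mem (Finset.mem_univ _), Finset.card_univ, Fintype.card_fin]
      omega)
  rw [Finset.mem_powersetCard] at hD0
  obtain ⟨hD0s, hD0c⟩ := hD0
  have hn0 : n0 ∉ D0 := fun h0 => by
    have := hD0s h0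
    simp at this
  have hD0r : D0.card + 1 = r := by omega
  have hDi : ∀ i ∈ D0, (insert n0 (D0.erase i)).card + 1 = r := by
    intro i hi
    rw [Finset.card_insert_of_notMem (fun h0 => hn0 (Finset.mem_of_mem_erase h0)),
      Finset.card_erase_of_mem hi]
    have : 0 < D0.card := Finset.card_pos.2 ⟨i, hi⟩
    omega
  -- the key fact
  have key : ∀ k, k ∉ D0 → k ≠ n0 → ∀ i ∈ D0,
      0 < (P D0 ⬝ᵥ v k) * (P (insert n0 (D0.erase i)) ⬝ᵥ v k) := by
    intro k hk hkn i hi
    have hki : k ∉ insert n0 (D0.erase i) := by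
      intro h0
      rcases Finset.mem_insert.1 h0 with h0 | h0
      · exact hkn h0
      · exact hk (Finset.mem_of_mem_erase h0)
    obtain ⟨a1, a2, a3⟩ := hP D0 hD0r
    obtain ⟨b1, b2, b3⟩ := hP _ (hDi i hi)
    have ha := a2 k hk
    have hb := b2 k hki
    by_contra hcon
    have hneg : (P D0 ⬝ᵥ v k) * (P (insert n0 (D0.erase i)) ⬝ᵥ v k) < 0 :=
      lt_of_le_of_ne (not_lt.1 hcon) (mul_ne_zero ha hb)
    set A := P D0 ⬝ᵥ v k with hA
    set C := P (insert n0 (D0.erase i)) ⬝ᵥ v k with hC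
    have hAC : A - C ≠ 0 := by
      intro h0
      have : A = C := sub_eq_zero.1 h0
      rw [this] at hneg
      nlinarith [mul_self_nonneg C]
    obtain ⟨l, hl⟩ : ∃ l : ℝ, l = -C / (A - C) := ⟨_, rfl⟩
    have hl01 : 0 < l ∧ l < 1 := by
      rw [hl]
      rcases lt_or_gt_of_ne ha with h1 | h1
      · have h2 : 0 < C := by nlinarith
        constructor
        · exact div_pos_of_neg_of_neg (by linarith) (by linarith)
        · rw [div_lt_one_of_neg (by linarith)]; linarith
      · have h2 : C < 0 := by nlinarith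
        constructor
        · exact div_pos (by linarith) (by linarith)
        · rw [div_lt_one (by linarith)]; linarith
    obtain ⟨q, hq⟩ : ∃ q : Fin r → ℝ, q = l • P D0 + (1 - l) • P (insert n0 (D0.erase i)) :=
      ⟨_, rfl⟩
    have hqw : ∀ w : Fin r → ℝ, q ⬝ᵥ w = l * (P D0 ⬝ᵥ w) +
        (1 - l) * (P (insert n0 (D0.erase i)) ⬝ᵥ w) := by
      intro w
      rw [hq, add_dotProduct, smul_dotProduct, smul_dotProduct, smul_eq_mul, smul_eq_mul]
    have hD'c : (insert k (D0.erase i)).card + 1 = r := by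
      rw [Finset.card_insert_of_notMem (fun h0 => hk (Finset.mem_of_mem_erase h0)),
        Finset.card_erase_of_mem hi]
      have : 0 < D0.card := Finset.card_pos.2 ⟨i, hi⟩
      omega
    obtain ⟨c1, c2, c3⟩ := hP _ hD'c
    have hqP : q = P (insert k (D0.erase i)) := by
      refine h.normal_unique hD'c (g := g) ?_ c1 ?_ c3 (j := i) ?_
      · intro d hd
        rw [hqw]
        rcases Finset.mem_insert.1 hd with rfl | hd
        · rw [← hA, ← hC, hl]
          field_simp
          ring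
        · rw [a1 d (Finset.mem_of_mem_erase hd), b1 d (Finset.mem_insert_of_mem hd)]
          ring
      · rw [hqw, a3, b3]; ring
      · intro h0
        rcases Finset.mem_insert.1 h0 with h0 | h0
        · exact hk (h0 ▸ hi)
        · exact absurd rfl (Finset.ne_of_mem_erase h0)
    have hm := hmin (insert k (D0.erase i)) (by
      rw [Finset.mem_powersetCard]
      refine ⟨fun x hx => ?_, by omega⟩
      rcases Finset.mem_insert.1 hx with rfl | hx
      · simp [hkn]
      · exact hD0s (Finset.mem_of_mem_erase hx))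
    rw [← hqP, hqw, b1 n0 (Finset.mem_insert_self _ _), mul_zero, add_zero, abs_mul,
      abs_of_pos hl01.1] at hm
    have hpos : 0 < |P D0 ⬝ᵥ v n0| := abs_pos.2 (a2 n0 hn0)
    nlinarith [hl01.2]
  -- the basis
  refine ⟨insert n0 D0, fun b => if b = n0 then P D0 else P (insert n0 (D0.erase b)), ?_, ?_, ?_,
    ?_⟩
  · rw [Finset.card_insert_of_notMem hn0]; omega
  · intro b hb b' hb' hne
    by_cases hbn : b = n0
    · subst hbn
      simp only [if_true]
      rcases Finset.mem_insert.1 hb' with h0 | h0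
      · exact absurd h0 hne
      · exact (hP D0 hD0r).1 b' h0
    · simp only [hbn, if_false]
      have hbD : b ∈ D0 := (Finset.mem_insert.1 hb).resolve_left hbn
      refine (hP _ (hDi b hbD)).1 b' ?_
      rcases Finset.mem_insert.1 hb' with h0 | h0
      · rw [h0]; exact Finset.mem_insert_self _ _
      · exact Finset.mem_insert_of_mem (Finset.mem_erase.2 ⟨hne, h0⟩)
  · intro b hb
    by_cases hbn : b = n0
    · subst hbn
      simp only [if_true]
      exact (hP D0 hD0r).2.1 b hn0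
    · simp only [hbn, if_false]
      have hbD : b ∈ D0 := (Finset.mem_insert.1 hb).resolve_left hbn
      refine (hP _ (hDi b hbD)).2.1 b ?_
      intro h0
      rcases Finset.mem_insert.1 h0 with h0 | h0
      · exact hbn h0
      · exact absurd rfl (Finset.ne_of_mem_erase h0)
  · intro k hk b hb b' hb'
    have hkD : k ∉ D0 := fun h0 => hk (Finset.mem_insert_of_mem h0)
    have hkn : k ≠ n0 := fun h0 => hk (by rw [h0]; exact Finset.mem_insert_self _ _)
    have hval : ∀ b ∈ insert n0 D0, 0 < (P D0 ⬝ᵥ v k) *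
        ((if b = n0 then P D0 else P (insert n0 (D0.erase b))) ⬝ᵥ v k) := by
      intro b hb
      by_cases hbn : b = n0
      · simp only [hbn, if_true]
        exact mul_self_pos.2 ((hP D0 hD0r).2.1 k hkD)
      · simp only [hbn, if_false]
        exact key k hkD hkn b ((Finset.mem_insert.1 hb).resolve_left hbn)
    have h1 := hval b hb
    have h2 := hval b' hb'
    have h3 := mul_pos h1 h2
    have h4 : 0 < (P D0 ⬝ᵥ v k) ^ 2 := by
      have := (hP D0 hD0r).2.1 k hkD
      positivity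
    by_contra hcon
    have h5 := not_lt.1 hcon
    nlinarith

end Pool.Agent.H77.Z12
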